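import Pool.Agent.helper88.RL.SpecL

set_option autoImplicit false

namespace Pool.Agent.RL

open Finset Pool.Agent.helper3.FT Pool.Agent.T6 Pool.Agent.RF

theorem Cop_congr {d r r' : ℕ} (h : r ≡ r' [MOD d]) (hr : Cop r d) : Cop r' d := by
  have h1 : (r : ℤ) ≡ (r' : ℤ) [ZMOD d] := by exact_mod_cast (Int.natCast_modEq_iff.2 h)
  have h2 : (r : ℤ) ^ 2 + r - 1 ≡ (r' : ℤ) ^ 2 + r' - 1 [ZMOD d] :=
    ((h1.pow 2).add h1).sub (Int.ModEq.refl 1)
  have h3 : Int.gcd ((r : ℤ) ^ 2 + r - 1) d = Int.gcd ((r' : ℤ) ^ 2 + r' - 1) d := by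
    obtain ⟨c, hc⟩ := h2.symm.dvd
    have e1 : (r : ℤ) ^ 2 + r - 1 = ((r' : ℤ) ^ 2 + r' - 1) + c * d := by linarith
    rw [e1, Int.gcd_add_mul_right_left]
  unfold Cop Nat.Coprime nr at *
  have h4 : ∀ x : ℤ, Nat.gcd x.natAbs d = Int.gcd x d := fun x => by
    rw [Int.gcd, Int.natAbs_natCast]
  rw [h4] at hr ⊢
  rw [← h3]; exact hr

theorem nrm_le_iff (b V : ℝ) (v : V4) : nrm b v ≤ V ↔ |(v.1 : ℝ)| ≤ V ∧ |(v.2.1 : ℝ)| ≤ V ∧ |(v.2.2.1 : ℝ)| ≤ V ∧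
    |(v.2.2.2 : ℝ)| ≤ V := by
  unfold nrm
  simp only [max_le_iff]
  tauto

theorem nrm_nonneg (b : ℝ) (v : V4) : 0 ≤ nrm b v :=
  le_max_of_le_left (le_max_of_le_left (abs_nonneg _))

theorem nrm_fin (b V : ℝ) : {v : V4 | nrm b v ≤ V}.Finite := by
  set N : ℤ := ⌈V⌉ with hN
  have key : ∀ x : ℤ, |(x : ℝ)| ≤ V → x ∈ Set.Icc (-N) N := by
    intro x hx
    have h1 : |(x : ℝ)| ≤ (N : ℝ) := hx.trans (Int.le_ceil _)
    rw [abs_le] at h1
    constructor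
    · have := h1.1
      exact_mod_cast this
    · exact_mod_cast h1.2
  refine Set.Finite.subset (Set.Finite.prod (Set.finite_Icc (-N) N) (Set.Finite.prod (Set.finite_Icc (-N) N)
    (Set.Finite.prod (Set.finite_Icc (-N) N) (Set.finite_Icc (-N) N)))) ?_
  intro v hv
  obtain ⟨h1, h2, h3, h4⟩ := (nrm_le_iff b V v).1 hv
  exact ⟨key _ h1, key _ h2, key _ h3, key _ h4⟩

theorem va4_smul (k : ℤ) (v : V4) : va4 (k • v) = (k : OO) * va4 v := by
  obtain ⟨a, b, c, d⟩ := v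
  simp only [va4, Prod.smul_mk, smul_eq_mul]
  ext <;> simp

theorem vz4_smul (k : ℤ) (v : V4) : vz4 (k • v) = (k : OO) * vz4 v := by
  obtain ⟨a, b, c, d⟩ := v
  simp only [vz4, Prod.smul_mk, smul_eq_mul]
  ext <;> simp

theorem va4_add (v w : V4) : va4 (v + w) = va4 v + va4 w := by
  obtain ⟨a, b, c, d⟩ := v
  obtain ⟨a', b', c', d'⟩ := w
  rfl

theorem vz4_add (v w : V4) : vz4 (v + w) = vz4 v + vz4 w := by
  obtain ⟨a, b, c, d⟩ := v
  obtain ⟨a', b', c', d'⟩ := w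
  rfl

theorem RV_zero : RV 0 = 0 := by
  have e1 : va4 (0 : V4) = 0 := rfl
  have e2 : vz4 (0 : V4) = 0 := rfl
  unfold RV
  rw [e1, e2]
  simp [R0, trO]

theorem trO_smul (k : ℤ) (x : OO) : trO ((k : OO) * x) = k * trO x := by
  unfold trO
  simp
  ring

theorem norm_smul (k : ℤ) (x : OO) : ((k : OO) * x).norm = k ^ 2 * x.norm := by
  simp only [QuadraticAlgebra.norm_def, QuadraticAlgebra.re_mul, QuadraticAlgebra.im_mul, QuadraticAlgebra.re_intCast,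
    QuadraticAlgebra.im_intCast, Int.cast_id]
  ring

theorem R0_smul (k : ℤ) (a z : OO) : R0 ((k : OO) * a) ((k : OO) * z) = k ^ 6 * R0 a z := by
  unfold R0
  have e1 : star ((k : OO) * z) = (k : OO) * star z := by
    rw [star_mul, mul_comm, star_intCast]
  rw [norm_smul, norm_smul, e1,
    show ph ^ 3 * ((k : OO) * a) * ((k : OO) * star z) ^ 5 = ((k ^ 6 : ℤ) : OO) * (ph ^ 3 * a * star z ^ 5) by
      push_cast; ring, trO_smul]
  ring

theorem RV_smul (k : ℤ) (v : V4) : RV (k • v) = k ^ 6 * RV v := by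
  unfold RV
  rw [va4_smul, vz4_smul, R0_smul]

theorem InG_dvd {d d' r : ℕ} {v : V4} (h : d' ∣ d) (hv : InG d r v) : InG d' r v :=
  (Nat.cast_dvd_cast h).trans hv

theorem InG_congr {d r r' : ℕ} {v : V4} (h : r ≡ r' [MOD d]) (hv : InG d r v) : InG d r' v := by
  unfold InG at *
  have h1 : (d : ℤ) ∣ (r' : ℤ) - r := (Int.natCast_modEq_iff.2 h).dvd
  obtain ⟨c, hc⟩ := h1
  have h2 : (⟨(r' : ℤ), 1⟩ : OO) = ⟨(r : ℤ), 1⟩ + ((d : ℕ) : OO) * (c : OO) := by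
    ext
    · simp; linarith
    · simp
  have h3 : star (⟨(r' : ℤ), 1⟩ : OO) = star (⟨(r : ℤ), 1⟩ : OO) + ((d : ℕ) : OO) * (c : OO) := by
    rw [h2, star_add, star_mul, star_natCast, star_intCast]
    ring
  have h4 : ((d : ℕ) : OO) ∣ FF ⟨(r' : ℤ), 1⟩ (va4 v) (vz4 v) - FF ⟨(r : ℤ), 1⟩ (va4 v) (vz4 v) := by
    unfold FF
    rw [h3, h2]
    generalize (⟨(r : ℤ), 1⟩ : OO) = K
    generalize star K = K'
    generalize va4 v = a
    generalize vz4 v = z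
    generalize star z = z'
    generalize star ph = p
    generalize ((d : ℕ) : OO) = D
    generalize (c : OO) = C
    refine ⟨5 * a * C * (3 * K ^ 2 + 3 * K * (D * C) + (D * C) ^ 2) +
      2 * p * z * (C * (K' + D * C) ^ 2 + K * C * (2 * K' + D * C)) -
      z' * C * (3 * K' ^ 2 + 3 * K' * (D * C) + (D * C) ^ 2), ?_⟩
    ring
  have h5 := dvd_add h4 hv
  rwa [sub_add_cancel] at h5

end Pool.Agent.RL
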