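import Pool.Agent.helper88.RL.AllL
import Pool.Agent.helper87.RL.VIN
import Pool.Agent.helper75.RL.VDC
import Pool.Agent.helper5.RL.VDQ
import Pool.Agent.helper16.RL.VDM
import Pool.Agent.helper43.RL.VSZ
import Pool.Agent.helper14.RL.VGN
import Pool.Agent.helper64.RL.VNR
import Pool.Agent.helper35.RL.VNB
import Pool.Agent.helper32.RL.VRK
import Pool.Agent.helper65.RL.VWF
import Pool.Agent.helper33.RL.VMU
import Pool.Agent.helper39.RL.VEP
import Pool.Agent.helper41.RL.VSM
import Pool.Agent.helper50.RL.VKA
import Pool.Agent.helper39.RL.VKB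

set_option autoImplicit false

/-! # Project RL, block W assembled: near points for all moduli, without loss -/

namespace Pool.Agent.RL

open Finset Pool.Agent.helper3.FT Pool.Agent.T6 Pool.Agent.RF

theorem VIN_final : VIN_stmt := VIN

theorem VDC_final : VDC_stmt := VDC WEU_final

theorem VDQ_final : VDQ_stmt := VDQ VIN_final

theorem VDM_final : VDM_stmt := VDM VIN_final

theorem VSZ_final : VSZ_stmt := VSZ WVA_final

theorem VGN_final : VGN_stmt := VGN allGP allGR allN1 allN2 allN4

theorem VNR_final : VNR_stmt := VNR VGN_final VDC_final VDQ_final VSZ_final WVA_final WEU_final allN4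

theorem VNB_final : VNB_stmt := VNB VGN_final VDC_final VDM_final VSZ_final WVA_final WEU_final allN4

theorem VRK_final : VRK_stmt := VRK

theorem VWF_final : VWF_stmt := VWF WVA_final

theorem VMU_final : VMU_stmt := VMU VWF_final WRO_final

theorem VEP_final : VEP_stmt := VEP

theorem VSM_final : VSM_stmt := VSM VRK_final VMU_final VEP_final allN4 allN5

theorem VKA_final : VKA_stmt := VKA VNR_final VSM_final VRK_final VWF_final allN4

theorem VKB_final : VKB_stmt := VKB VNB_final VSM_final VRK_final VMU_final allN4

end Pool.Agent.RL
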