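import Pool.Agent.helper88.RL.SpecL
import Pool.Agent.helper88.RL.Cop

set_option autoImplicit false

/-!
# T6, row C0
-/

namespace Pool.Agent.RL

open Finset Pool.Agent.helper3.FT Pool.Agent.T6 Pool.Agent.RF

theorem C0_card (y u : ℕ) : ((PR y u).card : ℝ) ≤ 2 * 4 ^ u := by
  classical
  have h1 : (PR y u).card ≤ 2 ^ u * 2 ^ (u + 1) := by
    unfold PR
    refine (Finset.card_filter_le _ _).trans ?_
    rw [Finset.card_product, Nat.card_Ico, Finset.card_range]
    have h2 : 2 ^ (u + 1) - 2 ^ u = 2 ^ u := by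
      rw [pow_succ]
      omega
    rw [h2]
  have h3 : 2 ^ u * 2 ^ (u + 1) = 2 * 4 ^ u := by
    have h4 : (4 : ℕ) ^ u = 2 ^ u * 2 ^ u := by
      rw [← mul_pow]
      norm_num
    rw [h4, pow_succ]
    ring
  rw [h3] at h1
  exact_mod_cast h1

theorem C0 (hN5 : N5_stmt) : C0_stmt := by
  classical
  refine ⟨C0_card, fun b y u s hb hs => ?_⟩
  have hb0 : 0 < b := lt_of_lt_of_le one_pos hb
  rcases (SU b y u s).eq_empty_or_nonempty with he | ⟨p, hp⟩
  · rw [he, Finset.card_empty, Nat.cast_zero, zero_mul]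
    positivity
  · have hp1 := (Finset.mem_filter.1 hp).1
    have hp2 := ((Finset.mem_filter.1 hp).2).2
    have hd : 1 ≤ p.1 := by
      have h1 := (Finset.mem_filter.1 hp1).1
      rw [Finset.mem_product, Finset.mem_Ico] at h1
      exact le_trans Nat.one_le_two_pow h1.1.1
    have hl := ((hN5 b hb).1 p.1 p.2 hd).1
    have hb5 : 0 < b ^ 5 := by positivity
    have hs2 : s ^ 2 ≤ √(2 ^ u) * b ^ 5 := by
      have h1 : 1 / b ^ 5 * s ^ 2 ≤ √(2 ^ u) :=
        (mul_le_mul_of_nonneg_right hl (by positivity)).trans hp2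
      have h2 : 1 / b ^ 5 * s ^ 2 * b ^ 5 ≤ √(2 ^ u) * b ^ 5 :=
        mul_le_mul_of_nonneg_right h1 hb5.le
      have h3 : 1 / b ^ 5 * s ^ 2 * b ^ 5 = s ^ 2 := by
        field_simp
      rwa [h3] at h2
    have hs7 : s ^ 7 ≤ (2 : ℝ) ^ (7 * (u : ℝ) / 4) * b ^ 18 := by
      have hT : 0 ≤ (2 : ℝ) ^ (7 * (u : ℝ) / 4) * b ^ 18 := by positivity
      refine le_of_sq_le_sq ?_ hT
      have h1 : (s ^ 7) ^ 2 = (s ^ 2) ^ 7 := by ring
      have h2 : (s ^ 2) ^ 7 ≤ (√(2 ^ u) * b ^ 5) ^ 7 :=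
        pow_le_pow_left₀ (by positivity) hs2 7
      have h3 : (√(2 ^ u) : ℝ) ^ 7 = ((2 : ℝ) ^ (7 * (u : ℝ) / 4)) ^ 2 := by
        rw [Real.sqrt_eq_rpow, ← Real.rpow_natCast (2 : ℝ) u, ← Real.rpow_mul (by norm_num),
          ← Real.rpow_natCast _ 7, ← Real.rpow_mul (by norm_num), ← Real.rpow_natCast _ 2,
          ← Real.rpow_mul (by norm_num)]
        congr 1
        push_cast
        ring
      rw [h1]
      refine h2.trans ?_
      rw [mul_pow, mul_pow, h3]
      refine mul_le_mul_of_nonneg_left ?_ (by positivity)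
      rw [← pow_mul, ← pow_mul]
      exact pow_le_pow_right₀ hb (by norm_num)
    have hc : ((SU b y u s).card : ℝ) ≤ 2 * 4 ^ u :=
      le_trans (by exact_mod_cast Finset.card_filter_le _ _) (C0_card y u)
    exact mul_le_mul hc hs7 (by positivity) (by positivity)

end Pool.Agent.RL
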