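import Pool.Agent.helper88.RL.SpecL
import Pool.Agent.helper88.RL.Cop
import Pool.Agent.helper77.FT.P6c

set_option autoImplicit false

namespace Pool.Agent.RL

open Finset Pool.Agent.helper3.FT Pool.Agent.T6 Pool.Agent.RF

/-- content -/
def C2_ct (v : V4) : ℕ := Nat.gcd (Nat.gcd v.1.natAbs v.2.1.natAbs) (Nat.gcd v.2.2.1.natAbs v.2.2.2.natAbs)

theorem C2_dvd_ct (m : ℕ) (v : V4) (h : (m : ℤ) ∣ v.1 ∧ (m : ℤ) ∣ v.2.1 ∧ (m : ℤ) ∣ v.2.2.1 ∧ (m : ℤ) ∣ v.2.2.2) :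
    m ∣ C2_ct v := by
  obtain ⟨h1, h2, h3, h4⟩ := h
  unfold C2_ct
  exact Nat.dvd_gcd (Nat.dvd_gcd (Int.natCast_dvd.1 h1) (Int.natCast_dvd.1 h2))
    (Nat.dvd_gcd (Int.natCast_dvd.1 h3) (Int.natCast_dvd.1 h4))

theorem C2_ct_dvd (m : ℕ) (v : V4) (h : m ∣ C2_ct v) :
    (m : ℤ) ∣ v.1 ∧ (m : ℤ) ∣ v.2.1 ∧ (m : ℤ) ∣ v.2.2.1 ∧ (m : ℤ) ∣ v.2.2.2 := by
  unfold C2_ct at h
  have h1 := h.trans (Nat.gcd_dvd_left _ _)
  have h2 := h.trans (Nat.gcd_dvd_right _ _)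
  exact ⟨Int.natCast_dvd.2 (h1.trans (Nat.gcd_dvd_left _ _)), Int.natCast_dvd.2 (h1.trans (Nat.gcd_dvd_right _ _)),
    Int.natCast_dvd.2 (h2.trans (Nat.gcd_dvd_left _ _)), Int.natCast_dvd.2 (h2.trans (Nat.gcd_dvd_right _ _))⟩

theorem C2_RV (k : ℤ) (v : V4) : RV (k • v) = k ^ 6 * RV v := by
  exact RV_smul k v

theorem C2_box (b V : ℝ) (hb : 1 ≤ b) (v : V4) (h : nrm b v ≤ V) :
    |(v.1 : ℝ)| ≤ V * b ^ 5 ∧ |(v.2.1 : ℝ)| ≤ V * b ^ 5 ∧ |(v.2.2.1 : ℝ)| ≤ V * b ^ 5 ∧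
      |(v.2.2.2 : ℝ)| ≤ V * b ^ 5 := by
  obtain ⟨h1, h2, h3, h4⟩ := (nrm_le_iff b V v).1 h
  have hb5 : 1 ≤ b ^ 5 := one_le_pow₀ hb
  have hV : 0 ≤ V := le_trans (by positivity) h1
  have hVb : V ≤ V * b ^ 5 := le_mul_of_one_le_right hV hb5
  exact ⟨h1.trans hVb, h2.trans hVb, h3.trans hVb, h4.trans hVb⟩

/-- the decomposition of a good pair -/
theorem C2_dec (hN1 : N1_stmt) (hN2 : N2_stmt) (hNRV : NRV_stmt) (b V : ℝ) (d r : ℕ) (v : V4) (hb : 1 ≤ b)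
    (hd : 1 ≤ d) (hR : Rgh 5 d) (hrd : r < d) (hc : Cop r d) (hG : InG d r v) (hn : nrm b v ≤ V)
    (hRV : RV v ≠ 0) :
    ∃ (g : ℕ) (v' : V4) (d' r' t : ℕ), 1 ≤ g ∧ (g : ℝ) ≤ V * b ^ 5 ∧ nrm b v' ≤ V / g ∧ RV v' ≠ 0 ∧
      d' ∣ (RV v').natAbs ∧ 1 ≤ d' ∧ Rgh 5 d' ∧ Pm d' v' ∧ r' < d' ∧ Cop r' d' ∧ InG d' r' v' ∧
      t < g ∧ d = g * d' ∧ r = r' + d' * t := by
  set g := Nat.gcd d (C2_ct v) with hg
  have hg1 : 1 ≤ g := Nat.gcd_pos_of_pos_left _ hd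
  obtain ⟨d', hd'⟩ : g ∣ d := Nat.gcd_dvd_left _ _
  have hgc : g ∣ C2_ct v := Nat.gcd_dvd_right _ _
  obtain ⟨⟨a1, e1⟩, ⟨a2, e2⟩, ⟨a3, e3⟩, ⟨a4, e4⟩⟩ := C2_ct_dvd g v hgc
  set v' : V4 := (a1, a2, a3, a4) with hv'
  have hv : v = (g : ℤ) • v' := by
    obtain ⟨A, A', B, X⟩ := v
    simp only at e1 e2 e3 e4
    simp only [hv', Prod.smul_mk, smul_eq_mul]
    rw [e1, e2, e3, e4]
  have hd'1 : 1 ≤ d' := by
    rcases Nat.eq_zero_or_pos d' with h | h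
    · rw [h, mul_zero] at hd'
      omega
    · exact h
  have hd'd : d' ∣ d := ⟨g, by rw [hd', mul_comm]⟩
  have hR' : Rgh 5 d' := fun p hp hpd => hR p hp (hpd.trans hd'd)
  have hRV' : RV v' ≠ 0 := by
    intro h
    apply hRV
    rw [hv, C2_RV, h, mul_zero]
  have hnv : nrm b v = g * nrm b v' := by
    rw [hv, (hN1 b hb v' 0).2.2.2.1 g]
    simp
  have hg0 : (0 : ℝ) < g := by exact_mod_cast hg1
  have hnv' : nrm b v' ≤ V / g := by
    rw [le_div_iff₀ hg0, mul_comm, ← hnv]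
    exact hn
  have hv0 : v' ≠ 0 := by
    intro h
    apply hRV'
    rw [h]
    exact RV_zero
  have hInG : InG d' r v' := by
    have h1 := (hN2.2.2.2.2.2.2 g d' r v' hg1).1
    apply h1
    rw [← hd', ← hv]
    exact hG
  have hcop : Nat.Coprime d' 5 := by
    rw [Nat.coprime_comm, Nat.Prime.coprime_iff_not_dvd (by norm_num)]
    intro h
    have := hR' 5 (by norm_num) h
    omega
  have hInG' : InG d' (r % d') v' :=
    hN2.2.2.2.2.2.1 d' r (r % d') v' (Nat.mod_modEq r d').symm hInG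
  refine ⟨g, v', d', r % d', r / d', hg1, ?_, hnv', hRV', ?_, hd'1, hR', ?_, Nat.mod_lt _ hd'1, ?_, hInG', ?_, hd', ?_⟩
  · have h1 := (hN1 b hb v' 0).2.2.2.2.1 hv0
    have h2 := h1.trans hnv'
    have hb0 : 0 < b := by linarith
    rw [div_le_div_iff₀ (by positivity) hg0] at h2
    linarith
  · exact Int.natCast_dvd.1 (hNRV.1 d' (r % d') v' hcop hInG')
  · intro p hp hpd hall
    have h1 : p * g ∣ C2_ct v := by
      apply C2_dvd_ct
      push_cast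
      rw [e1, e2, e3, e4]
      obtain ⟨k1, k2, k3, k4⟩ := hall
      simp only [hv'] at k1 k2 k3 k4
      refine ⟨?_, ?_, ?_, ?_⟩
      · rw [mul_comm (p : ℤ)]; exact mul_dvd_mul_left _ k1
      · rw [mul_comm (p : ℤ)]; exact mul_dvd_mul_left _ k2
      · rw [mul_comm (p : ℤ)]; exact mul_dvd_mul_left _ k3
      · rw [mul_comm (p : ℤ)]; exact mul_dvd_mul_left _ k4
    have h2 : p * g ∣ d := by
      rw [hd', mul_comm p]
      exact mul_dvd_mul_left _ hpd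
    have h3 : p * g ∣ g := Nat.dvd_gcd h2 h1
    have h4 := Nat.le_of_dvd hg1 h3
    have h5 := hp.two_le
    nlinarith
  · have h1 : Cop r d' := Nat.Coprime.coprime_dvd_right hd'd hc
    exact Cop_congr (Nat.mod_modEq r d').symm h1
  · rw [Nat.div_lt_iff_lt_mul hd'1, ← hd']
    exact hrd
  · exact (Nat.mod_add_div r d').symm

theorem C2_cube (G : ℕ) : ∑ g ∈ Icc 1 G, (1 : ℝ) / (g : ℝ) ^ 3 ≤ 2 := by
  have h : ∀ G : ℕ, ∑ g ∈ Icc 1 (G + 1), (1 : ℝ) / (g : ℝ) ^ 3 ≤ 2 - 1 / ((G : ℝ) + 1) := by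
    intro G
    induction G with
    | zero => norm_num
    | succ G ih =>
      rw [Finset.sum_Icc_succ_top (by omega)]
      have h1 : (0 : ℝ) ≤ G := Nat.cast_nonneg G
      have h2 : (1 : ℝ) / (((G + 1 + 1 : ℕ) : ℝ)) ^ 3 ≤ 1 / ((G : ℝ) + 1) - 1 / ((G : ℝ) + 2) := by
        push_cast
        rw [div_sub_div _ _ (by positivity) (by positivity), div_le_div_iff₀ (by positivity) (by positivity)]
        nlinarith [mul_nonneg h1 h1, mul_nonneg (mul_nonneg h1 h1) h1]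
      push_cast at h2 ⊢
      have h3 : (G : ℝ) + 1 + 1 = G + 2 := by ring
      rw [h3] at h2 ⊢
      linarith
  rcases Nat.eq_zero_or_pos G with h0 | h0
  · subst h0
    simp
  · obtain ⟨k, rfl⟩ : ∃ k, G = k + 1 := ⟨G - 1, by omega⟩
    refine (h k).trans ?_
    have : (0 : ℝ) ≤ 1 / ((k : ℝ) + 1) := by positivity
    linarith

open Classical in
theorem C2_count (hNRT : NRT_stmt) (b V K : ℝ) (S : Finset (ℕ × ℕ)) (hb : 1 ≤ b) (hV : 0 ≤ V) (hK : 0 ≤ K)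
    (hτ : ∀ v : V4, nrm b v ≤ V → RV v ≠ 0 → (((RV v).natAbs.divisors.card : ℝ)) ^ 3 ≤ K)
    (hS : ∀ p ∈ S, ∃ (g : ℕ) (v' : V4) (d' r' t : ℕ), 1 ≤ g ∧ (g : ℝ) ≤ V * b ^ 5 ∧ nrm b v' ≤ V / g ∧ RV v' ≠ 0 ∧
      d' ∣ (RV v').natAbs ∧ 1 ≤ d' ∧ Rgh 5 d' ∧ Pm d' v' ∧ r' < d' ∧ Cop r' d' ∧ InG d' r' v' ∧
      t < g ∧ p.1 = g * d' ∧ p.2 = r' + d' * t) :
    (S.card : ℝ) ≤ 162 * K * (V * b ^ 5) ^ 4 := by
  have hb0 : 0 < b := by linarith
  set M : ℝ := V * b ^ 5 with hM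
  have hM0 : 0 ≤ M := by positivity
  set G : ℕ := ⌊M⌋₊ with hG
  let Bx : ℕ → Finset V4 := fun g =>
    ((Icc (-(⌊M / g⌋)) ⌊M / g⌋) ×ˢ ((Icc (-(⌊M / g⌋)) ⌊M / g⌋) ×ˢ ((Icc (-(⌊M / g⌋)) ⌊M / g⌋) ×ˢ
      (Icc (-(⌊M / g⌋)) ⌊M / g⌋)))).filter (fun v => nrm b v ≤ V / g ∧ RV v ≠ 0)
  let D : V4 → Finset ℕ := fun v => (RV v).natAbs.divisors.filter (fun d => Rgh 5 d ∧ Pm d v)
  let R : ℕ → V4 → Finset ℕ := fun d v => (range d).filter (fun r => Cop r d ∧ InG d r v)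
  have hsub : S ⊆ (Icc 1 G).biUnion fun g => (Bx g).biUnion fun v => (D v).biUnion fun d =>
      ((R d v) ×ˢ (range g)).image (fun x => (g * d, x.1 + d * x.2)) := by
    intro p hp
    obtain ⟨g, v, d, r, t, h1, h2, h3, h4, h5, h6, h7, h8, h9, h10, h11, h12, h13, h14⟩ := hS p hp
    have hg0 : (0 : ℝ) < g := by exact_mod_cast h1
    simp only [mem_biUnion]
    refine ⟨g, mem_Icc.2 ⟨h1, Nat.le_floor h2⟩, v, ?_, d, ?_, ?_⟩
    · rw [mem_filter]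
      refine ⟨?_, h3, h4⟩
      obtain ⟨k1, k2, k3, k4⟩ := C2_box b (V / g) hb v h3
      have hMg : V / g * b ^ 5 = M / g := by rw [hM]; ring
      rw [hMg] at k1 k2 k3 k4
      have key : ∀ z : ℤ, |(z : ℝ)| ≤ M / g → z ∈ Icc (-(⌊M / g⌋)) ⌊M / g⌋ := by
        intro z hz
        rw [abs_le] at hz
        rw [mem_Icc]
        constructor
        · rw [neg_le, Int.le_floor]
          push_cast
          linarith [hz.1]
        · rw [Int.le_floor]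
          exact hz.2
      simp only [mem_product]
      exact ⟨key _ k1, key _ k2, key _ k3, key _ k4⟩
    · rw [mem_filter, Nat.mem_divisors]
      exact ⟨⟨h5, Int.natAbs_ne_zero.2 h4⟩, h7, h8⟩
    · rw [mem_image]
      refine ⟨(r, t), ?_, ?_⟩
      · rw [mem_product]
        exact ⟨mem_filter.2 ⟨mem_range.2 h9, h10, h11⟩, mem_range.2 h12⟩
      · exact Prod.ext h13.symm h14.symm
  have hD : ∀ g ∈ Icc 1 G, ∀ v ∈ Bx g, (((D v).biUnion fun d =>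
      ((R d v) ×ˢ (range g)).image (fun x => (g * d, x.1 + d * x.2))).card : ℝ) ≤ K * g := by
    intro g hg v hv
    rw [mem_Icc] at hg
    have hv' := (mem_filter.1 hv).2
    have hg0 : (0 : ℝ) < g := by exact_mod_cast hg.1
    have hnv : nrm b v ≤ V := by
      refine hv'.1.trans (div_le_self hV ?_)
      exact_mod_cast hg.1
    have h1 : ((D v).biUnion fun d =>
      ((R d v) ×ˢ (range g)).image (fun x => (g * d, x.1 + d * x.2))).card ≤
        ∑ d ∈ D v, (R d v).card * g := by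
      refine card_biUnion_le.trans (sum_le_sum ?_)
      intro d hd
      refine card_image_le.trans ?_
      rw [card_product, card_range]
    have h2 : ∀ d ∈ D v, ((R d v).card : ℝ) * g ≤ (((RV v).natAbs.divisors.card : ℝ)) ^ 2 * g := by
      intro d hd
      rw [mem_filter, Nat.mem_divisors] at hd
      obtain ⟨⟨hd1, hd2⟩, hd3, hd4⟩ := hd
      have hd0 : 0 < d := Nat.pos_of_dvd_of_pos hd1 (Nat.pos_of_ne_zero hd2)
      apply mul_le_mul_of_nonneg_right _ hg0.le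
      have h3 := hNRT d v hd0 hd3 hd4
      have h4 : ((R d v).card : ℝ) ≤ (3 : ℝ) ^ d.primeFactors.card := by exact_mod_cast h3
      refine h4.trans ((P6c_three_pow d hd0).trans ?_)
      apply pow_le_pow_left₀ (by positivity)
      exact_mod_cast card_le_card (Nat.divisors_subset_of_dvd hd2 hd1)
    calc (((D v).biUnion fun d =>
      ((R d v) ×ˢ (range g)).image (fun x => (g * d, x.1 + d * x.2))).card : ℝ)
        ≤ ∑ d ∈ D v, ((R d v).card : ℝ) * g := by exact_mod_cast h1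
      _ ≤ ∑ d ∈ D v, (((RV v).natAbs.divisors.card : ℝ)) ^ 2 * g := sum_le_sum h2
      _ = ((D v).card : ℝ) * ((((RV v).natAbs.divisors.card : ℝ)) ^ 2 * g) := by
          rw [sum_const, nsmul_eq_mul]
      _ ≤ ((RV v).natAbs.divisors.card : ℝ) * ((((RV v).natAbs.divisors.card : ℝ)) ^ 2 * g) := by
          apply mul_le_mul_of_nonneg_right _ (by positivity)
          exact_mod_cast card_le_card (filter_subset _ _)
      _ = (((RV v).natAbs.divisors.card : ℝ)) ^ 3 * g := by ring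
      _ ≤ K * g := mul_le_mul_of_nonneg_right (hτ v hnv hv'.2) hg0.le
  have hB : ∀ g ∈ Icc 1 G, ((Bx g).card : ℝ) * (K * g) ≤ 81 * K * M ^ 4 * (1 / (g : ℝ) ^ 3) := by
    intro g hg
    rw [mem_Icc] at hg
    have hg0 : (0 : ℝ) < g := by exact_mod_cast hg.1
    have hMg : (1 : ℝ) ≤ M / g := by
      rw [le_div_iff₀ hg0, one_mul]
      refine le_trans ?_ (Nat.floor_le hM0)
      exact_mod_cast hg.2
    have hfl : (1 : ℤ) ≤ ⌊M / g⌋ := by
      rw [Int.le_floor]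
      exact_mod_cast hMg
    have h1 : (Bx g).card ≤ ((2 * ⌊M / g⌋ + 1).toNat) ^ 4 := by
      refine (card_filter_le _ _).trans ?_
      rw [card_product, card_product, card_product, Int.card_Icc]
      have h2 : (⌊M / g⌋ + 1 - -⌊M / g⌋) = 2 * ⌊M / g⌋ + 1 := by ring
      rw [h2]
      apply le_of_eq
      ring
    have h2 : (((2 * ⌊M / g⌋ + 1).toNat : ℕ) : ℝ) ≤ 3 * (M / g) := by
      have h3 : (((2 * ⌊M / g⌋ + 1).toNat : ℕ) : ℤ) = 2 * ⌊M / g⌋ + 1 := Int.toNat_of_nonneg (by omega)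
      have h4 : (((2 * ⌊M / g⌋ + 1).toNat : ℕ) : ℝ) = 2 * (⌊M / g⌋ : ℝ) + 1 := by
        exact_mod_cast congrArg (Int.cast : ℤ → ℝ) h3
      rw [h4]
      have h5 := Int.floor_le (M / g)
      have h6 : (1 : ℝ) ≤ (⌊M / g⌋ : ℝ) := by exact_mod_cast hfl
      linarith
    have h3 : ((Bx g).card : ℝ) ≤ (3 * (M / g)) ^ 4 := by
      calc ((Bx g).card : ℝ) ≤ ((((2 * ⌊M / g⌋ + 1).toNat : ℕ) : ℝ)) ^ 4 := by exact_mod_cast h1
        _ ≤ _ := pow_le_pow_left₀ (by positivity) h2 4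
    calc ((Bx g).card : ℝ) * (K * g) ≤ (3 * (M / g)) ^ 4 * (K * g) :=
          mul_le_mul_of_nonneg_right h3 (by positivity)
      _ = 81 * K * M ^ 4 * (1 / (g : ℝ) ^ 3) := by
          field_simp
          ring
  calc (S.card : ℝ) ≤ (((Icc 1 G).biUnion fun g => (Bx g).biUnion fun v => (D v).biUnion fun d =>
      ((R d v) ×ˢ (range g)).image (fun x => (g * d, x.1 + d * x.2))).card : ℝ) := by
        exact_mod_cast card_le_card hsub
    _ ≤ ∑ g ∈ Icc 1 G, (((Bx g).biUnion fun v => (D v).biUnion fun d =>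
      ((R d v) ×ˢ (range g)).image (fun x => (g * d, x.1 + d * x.2))).card : ℝ) := by
        exact_mod_cast card_biUnion_le
    _ ≤ ∑ g ∈ Icc 1 G, ∑ v ∈ Bx g, (((D v).biUnion fun d =>
      ((R d v) ×ˢ (range g)).image (fun x => (g * d, x.1 + d * x.2))).card : ℝ) := by
        apply sum_le_sum
        intro g _
        exact_mod_cast card_biUnion_le
    _ ≤ ∑ g ∈ Icc 1 G, ∑ v ∈ Bx g, K * g := sum_le_sum fun g hg => sum_le_sum fun v hv => hD g hg v hv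
    _ = ∑ g ∈ Icc 1 G, ((Bx g).card : ℝ) * (K * g) := by
        apply sum_congr rfl
        intro g _
        rw [sum_const, nsmul_eq_mul]
    _ ≤ ∑ g ∈ Icc 1 G, 81 * K * M ^ 4 * (1 / (g : ℝ) ^ 3) := sum_le_sum hB
    _ = 81 * K * M ^ 4 * ∑ g ∈ Icc 1 G, (1 / (g : ℝ) ^ 3) := by rw [mul_sum]
    _ ≤ 81 * K * M ^ 4 * 2 := mul_le_mul_of_nonneg_left (C2_cube G) (by positivity)
    _ = 162 * K * M ^ 4 := by ring

theorem C2 (hN1 : N1_stmt) (hN2 : N2_stmt) (hNRT : NRT_stmt) (hNRV : NRV_stmt) (hVVP : VVP_stmt) : C2_stmt := by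
  classical
  intro ε hε
  obtain ⟨C, hC1, hC⟩ := P6c_div (ε / 3) (by positivity) 16384 (by norm_num) 3
  refine ⟨162 * C ^ 3, ?_, ?_⟩
  · have : 1 ≤ C ^ 3 := one_le_pow₀ hC1
    linarith
  · intro b y u s hb hy hs
    have hb0 : 0 < b := by linarith
    have hs0 : 0 < s := by linarith
    set V : ℝ := √(2 ^ u) / s ^ 2 with hV
    have hV0 : 0 ≤ V := by positivity
    have hVu : V ≤ √(2 ^ u) := div_le_self (Real.sqrt_nonneg _) (one_le_pow₀ hs)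
    have hV2 : V ^ 2 ≤ (2 : ℝ) ^ u := by
      calc V ^ 2 ≤ (√(2 ^ u)) ^ 2 := pow_le_pow_left₀ hV0 hVu 2
        _ = 2 ^ u := Real.sq_sqrt (by positivity)
    have hK : ∀ v : V4, nrm b v ≤ V → RV v ≠ 0 → (((RV v).natAbs.divisors.card : ℝ)) ^ 3 ≤
        C ^ 3 * (2 : ℝ) ^ (ε * u) := by
      intro v hv hRV
      have h1 := hNRV.2 b v hb
      have h0 := (hN1 b hb v 0).1
      have h2 : ((RV v).natAbs : ℝ) ≤ 16384 * ((2 ^ u : ℕ) : ℝ) ^ 3 := by
        have h3 : ((RV v).natAbs : ℝ) = |(RV v : ℝ)| := by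
          rw [Nat.cast_natAbs, Int.cast_abs]
        rw [h3]
        refine h1.trans ?_
        push_cast
        apply mul_le_mul_of_nonneg_left _ (by norm_num)
        calc nrm b v ^ 6 ≤ V ^ 6 := pow_le_pow_left₀ h0 hv 6
          _ = (V ^ 2) ^ 3 := by ring
          _ ≤ (2 ^ u) ^ 3 := pow_le_pow_left₀ (by positivity) hV2 3
      have h3 := hC (2 ^ u) Nat.one_le_two_pow (RV v).natAbs (Int.natAbs_pos.2 hRV) h2
      calc (((RV v).natAbs.divisors.card : ℝ)) ^ 3 ≤ (C * ((2 ^ u : ℕ) : ℝ) ^ (ε / 3)) ^ 3 :=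
            pow_le_pow_left₀ (by positivity) h3 3
        _ = C ^ 3 * (2 : ℝ) ^ (ε * u) := by
            rw [mul_pow]
            congr 1
            push_cast
            rw [← Real.rpow_natCast (2 : ℝ) u, ← Real.rpow_mul (by norm_num), ← Real.rpow_natCast,
              ← Real.rpow_mul (by norm_num)]
            congr 1
            push_cast
            ring
    have hcnt := C2_count hNRT b V (C ^ 3 * (2 : ℝ) ^ (ε * u)) (SU b y u s) hb hV0 (by positivity) hK (by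
      intro p hp
      obtain ⟨h1, h2, h3, h4, h5, h6, h7⟩ := hVVP b y u s hb hy hs p hp
      have hp' := hp
      unfold SU PR at hp'
      rw [mem_filter, mem_filter, mem_product, mem_Ico, mem_range] at hp'
      obtain ⟨⟨⟨⟨hd1, hd2⟩, hr1⟩, hrd, hcop, hrg⟩, hgd, hlam⟩ := hp'
      have hd : 1 ≤ p.1 := le_trans Nat.one_le_two_pow hd1
      exact C2_dec hN1 hN2 hNRV b V p.1 p.2 _ hb hd (fun q hq hqd => lt_of_le_of_lt hy (hrg q hq hqd)) hrd hcop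
        h1 h4 h3)
    refine hcnt.trans ?_
    have hV4 : V ^ 4 = 4 ^ u / s ^ 8 := by
      rw [hV, div_pow, ← pow_mul]
      congr 1
      calc (√(2 ^ u : ℝ)) ^ 4 = ((√(2 ^ u : ℝ)) ^ 2) ^ 2 := by ring
        _ = (2 ^ u) ^ 2 := by rw [Real.sq_sqrt (by positivity)]
        _ = 4 ^ u := by
            rw [← pow_mul, mul_comm u 2, pow_mul]
            norm_num
    calc 162 * (C ^ 3 * (2 : ℝ) ^ (ε * u)) * (V * b ^ 5) ^ 4
        = (162 * C ^ 3 * (2 : ℝ) ^ (ε * u) * V ^ 4) * b ^ 20 := by ring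
      _ ≤ (162 * C ^ 3 * (2 : ℝ) ^ (ε * u) * V ^ 4) * b ^ 40 := by
          apply mul_le_mul_of_nonneg_left _ (by positivity)
          exact pow_le_pow_right₀ hb (by norm_num)
      _ = 162 * C ^ 3 * (2 : ℝ) ^ (ε * u) * b ^ 40 * (4 ^ u / s ^ 8) := by
          rw [hV4]
          ring

end Pool.Agent.RL
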