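import Pool.Agent.helper88.RL.SpecL
import Pool.Agent.helper88.RL.Cop

/-!
# T6, row C5: tail sum
-/

set_option autoImplicit false

namespace Pool.Agent.RL

open Finset Pool.Agent.helper3.FT Pool.Agent.T6 Pool.Agent.RF

theorem C5_log {t : ℝ} (ht : 1 ≤ t) : (2 : ℝ) ^ Nat.log 2 ⌊t⌋₊ ≤ t ∧ t ^ 3 ≤ 8 ^ (Nat.log 2 ⌊t⌋₊ + 1) := by
  have h0 : (0 : ℝ) ≤ t := by linarith
  have h1 : 1 ≤ ⌊t⌋₊ := Nat.one_le_floor_iff t |>.2 ht
  have h2 : 2 ^ Nat.log 2 ⌊t⌋₊ ≤ ⌊t⌋₊ := Nat.pow_log_le_self 2 (by omega)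
  have h3 : ⌊t⌋₊ < 2 ^ (Nat.log 2 ⌊t⌋₊ + 1) := Nat.lt_pow_succ_log_self (by norm_num) _
  have h4 : t < (2 : ℝ) ^ (Nat.log 2 ⌊t⌋₊ + 1) := by
    have h5 : t < (⌊t⌋₊ : ℝ) + 1 := Nat.lt_floor_add_one t
    have h6 : ((⌊t⌋₊ : ℝ) + 1) ≤ (2 : ℝ) ^ (Nat.log 2 ⌊t⌋₊ + 1) := by exact_mod_cast h3
    exact h5.trans_le h6
  constructor
  · have h5 : ((2 ^ Nat.log 2 ⌊t⌋₊ : ℕ) : ℝ) ≤ (⌊t⌋₊ : ℝ) := by exact_mod_cast h2
    push_cast at h5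
    exact h5.trans (Nat.floor_le h0)
  · calc t ^ 3 ≤ ((2 : ℝ) ^ (Nat.log 2 ⌊t⌋₊ + 1)) ^ 3 := pow_le_pow_left₀ h0 h4.le 3
      _ = 8 ^ (Nat.log 2 ⌊t⌋₊ + 1) := by
        rw [← pow_mul, mul_comm, pow_mul]
        norm_num

theorem C5_q : (32 / 3 : ℝ) ≤ (2 : ℝ) ^ (7 / 2 : ℝ) := by
  have h1 : ((2 : ℝ) ^ (7 / 2 : ℝ)) ^ 2 = 128 := by
    rw [← Real.rpow_natCast, ← Real.rpow_mul (by norm_num)]
    norm_num
  have h2 : (0 : ℝ) ≤ (2 : ℝ) ^ (7 / 2 : ℝ) := by positivity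
  nlinarith

theorem C5_geo (N : ℕ) : ∑ k ∈ range N, (3 / 4 : ℝ) ^ k ≤ 4 := by
  have h1 : ∀ n : ℕ, ∑ k ∈ range n, (3 / 4 : ℝ) ^ k = 4 - 4 * (3 / 4 : ℝ) ^ n := by
    intro n
    induction n with
    | zero => simp
    | succ n ih =>
      rw [sum_range_succ, ih]
      ring
  rw [h1]
  have h2 : (0 : ℝ) ≤ (3 / 4 : ℝ) ^ N := by positivity
  linarith

open Classical in
theorem C5 (hN5 : N5_stmt) : C5_stmt := by
  refine ⟨32, by norm_num, ?_⟩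
  intro b y u Φ hb hΦ hIH w hw V hV
  have hb0 : 0 < b := by linarith
  set T := (PR y w).filter (fun p => Gd b p.1 p.2 ∧ lamb b p.1 p.2 ≤ V) with hT
  have hlam : ∀ p ∈ T, 0 < lamb b p.1 p.2 ∧ lamb b p.1 p.2 ≤ V := by
    intro p hp
    rw [hT, mem_filter] at hp
    obtain ⟨hp1, -, hp2⟩ := hp
    unfold PR at hp1
    rw [mem_filter, mem_product, mem_Ico] at hp1
    have h1 : 1 ≤ p.1 := (Nat.one_le_two_pow).trans hp1.1.1.1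
    exact ⟨lt_of_lt_of_le (by positivity) ((hN5 b hb).1 p.1 p.2 h1).1, hp2⟩
  set R : ℝ := √(2 ^ w) with hR
  have hR0 : 0 < R := Real.sqrt_pos.2 (by positivity)
  have hΦ0 : 0 < Φ w := by linarith [hΦ.two w]
  -- the count at level `k`
  have hcnt : ∀ k : ℕ, ((T.filter (fun p => (2 : ℝ) ^ k ≤ V / lamb b p.1 p.2)).card : ℝ) ≤
      Φ w * 4 ^ w * (V / R) ^ (7 / 2 : ℝ) / ((2 : ℝ) ^ (7 / 2 : ℝ)) ^ k := by
    intro k
    have hx : 0 < (2 : ℝ) ^ k * (R / V) := by positivity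
    have hs : 0 < √((2 : ℝ) ^ k * (R / V)) := Real.sqrt_pos.2 hx
    have h1 := hIH w hw _ hs
    have h2 : (√((2 : ℝ) ^ k * (R / V))) ^ 7 = ((2 : ℝ) ^ (7 / 2 : ℝ)) ^ k / (V / R) ^ (7 / 2 : ℝ) := by
      rw [Real.sqrt_eq_rpow, ← Real.rpow_natCast, ← Real.rpow_mul hx.le,
        Real.mul_rpow (by positivity) (by positivity)]
      have h3 : ((2 : ℝ) ^ k) ^ ((1 / 2 : ℝ) * ((7 : ℕ) : ℝ)) = ((2 : ℝ) ^ (7 / 2 : ℝ)) ^ k := by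
        rw [← Real.rpow_natCast 2 k, ← Real.rpow_natCast _ k, ← Real.rpow_mul (by norm_num),
          ← Real.rpow_mul (by norm_num)]
        congr 1
        push_cast
        ring
      have h4 : (R / V) ^ ((1 / 2 : ℝ) * ((7 : ℕ) : ℝ)) = 1 / (V / R) ^ (7 / 2 : ℝ) := by
        have h5 : R / V = (V / R)⁻¹ := by
          rw [inv_div]
        rw [h5, Real.inv_rpow (by positivity)]
        have h6 : (1 / 2 : ℝ) * ((7 : ℕ) : ℝ) = 7 / 2 := by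
          push_cast
          ring
        rw [h6, one_div]
      rw [h3, h4]
      ring
    have h3 : (T.filter (fun p => (2 : ℝ) ^ k ≤ V / lamb b p.1 p.2)) ⊆ SU b y w (√((2 : ℝ) ^ k * (R / V))) := by
      intro p hp
      rw [mem_filter] at hp
      obtain ⟨hp1, hp2⟩ := hp
      have h4 := hlam p hp1
      rw [hT, mem_filter] at hp1
      unfold SU
      rw [mem_filter]
      refine ⟨hp1.1, hp1.2.1, ?_⟩
      rw [Real.sq_sqrt hx.le, ← hR]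
      rw [le_div_iff₀ h4.1] at hp2
      calc lamb b p.1 p.2 * ((2 : ℝ) ^ k * (R / V)) = ((2 : ℝ) ^ k * lamb b p.1 p.2) * (R / V) := by ring
        _ ≤ V * (R / V) := mul_le_mul_of_nonneg_right hp2 (by positivity)
        _ = R := by field_simp
    have h4 : ((T.filter (fun p => (2 : ℝ) ^ k ≤ V / lamb b p.1 p.2)).card : ℝ) ≤
        ((SU b y w (√((2 : ℝ) ^ k * (R / V)))).card : ℝ) := by
      exact_mod_cast card_le_card h3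
    have h5 : 0 < ((2 : ℝ) ^ (7 / 2 : ℝ)) ^ k := by positivity
    have h6 : 0 < (V / R) ^ (7 / 2 : ℝ) := by positivity
    rw [h2] at h1
    rw [le_div_iff₀ h5]
    calc ((T.filter (fun p => (2 : ℝ) ^ k ≤ V / lamb b p.1 p.2)).card : ℝ) * ((2 : ℝ) ^ (7 / 2 : ℝ)) ^ k
        ≤ ((SU b y w (√((2 : ℝ) ^ k * (R / V)))).card : ℝ) * ((2 : ℝ) ^ (7 / 2 : ℝ)) ^ k :=
          mul_le_mul_of_nonneg_right h4 h5.le
      _ = ((SU b y w (√((2 : ℝ) ^ k * (R / V)))).card : ℝ) *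
            (((2 : ℝ) ^ (7 / 2 : ℝ)) ^ k / (V / R) ^ (7 / 2 : ℝ)) * (V / R) ^ (7 / 2 : ℝ) := by
          field_simp
      _ ≤ Φ w * 4 ^ w * (V / R) ^ (7 / 2 : ℝ) := mul_le_mul_of_nonneg_right h1 h6.le
  -- the sum
  set kp : ℕ × ℕ → ℕ := fun p => Nat.log 2 ⌊V / lamb b p.1 p.2⌋₊ with hkp
  set N : ℕ := T.sup kp + 1 with hN
  have h1 : ∀ p ∈ T, (V / lamb b p.1 p.2) ^ 3 ≤
      ∑ k ∈ range N, (if (2 : ℝ) ^ k ≤ V / lamb b p.1 p.2 then (8 : ℝ) ^ (k + 1) else 0) := by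
    intro p hp
    have h2 := hlam p hp
    have h3 : 1 ≤ V / lamb b p.1 p.2 := by
      rw [le_div_iff₀ h2.1, one_mul]
      exact h2.2
    obtain ⟨h4, h5⟩ := C5_log h3
    have h6 : kp p ∈ range N := by
      rw [mem_range, hN]
      exact Nat.lt_succ_of_le (le_sup hp)
    refine h5.trans ?_
    have h7 := single_le_sum (f := fun k => (if (2 : ℝ) ^ k ≤ V / lamb b p.1 p.2 then (8 : ℝ) ^ (k + 1) else 0))
      (s := range N) (fun k _ => by split_ifs <;> positivity) h6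
    simp only [hkp] at h7
    rw [if_pos h4] at h7
    exact h7
  have h2 : ∑ p ∈ T, (V / lamb b p.1 p.2) ^ 3 ≤
      ∑ k ∈ range N, (8 : ℝ) ^ (k + 1) * ((T.filter (fun p => (2 : ℝ) ^ k ≤ V / lamb b p.1 p.2)).card : ℝ) := by
    refine (sum_le_sum h1).trans ?_
    rw [sum_comm]
    refine sum_le_sum fun k _ => ?_
    rw [← sum_filter, sum_const, nsmul_eq_mul, mul_comm]
  refine h2.trans ?_
  have hq := C5_q
  have hq0 : (0 : ℝ) < (2 : ℝ) ^ (7 / 2 : ℝ) := by positivity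
  have hW : 0 ≤ Φ w * 4 ^ w * (V / R) ^ (7 / 2 : ℝ) := by positivity
  have h3 : ∀ k ∈ range N, (8 : ℝ) ^ (k + 1) *
      ((T.filter (fun p => (2 : ℝ) ^ k ≤ V / lamb b p.1 p.2)).card : ℝ) ≤
      8 * (Φ w * 4 ^ w * (V / R) ^ (7 / 2 : ℝ)) * (3 / 4) ^ k := by
    intro k _
    have h5 : (8 : ℝ) ^ k / ((2 : ℝ) ^ (7 / 2 : ℝ)) ^ k ≤ (3 / 4) ^ k := by
      rw [← div_pow]
      refine pow_le_pow_left₀ (by positivity) ?_ k
      rw [div_le_iff₀ hq0]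
      linarith
    calc (8 : ℝ) ^ (k + 1) * ((T.filter (fun p => (2 : ℝ) ^ k ≤ V / lamb b p.1 p.2)).card : ℝ)
        ≤ (8 : ℝ) ^ (k + 1) * (Φ w * 4 ^ w * (V / R) ^ (7 / 2 : ℝ) / ((2 : ℝ) ^ (7 / 2 : ℝ)) ^ k) :=
          mul_le_mul_of_nonneg_left (hcnt k) (by positivity)
      _ = 8 * (Φ w * 4 ^ w * (V / R) ^ (7 / 2 : ℝ)) * ((8 : ℝ) ^ k / ((2 : ℝ) ^ (7 / 2 : ℝ)) ^ k) := by
          rw [pow_succ]
          ring
      _ ≤ 8 * (Φ w * 4 ^ w * (V / R) ^ (7 / 2 : ℝ)) * (3 / 4) ^ k :=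
          mul_le_mul_of_nonneg_left h5 (by positivity)
  refine (sum_le_sum h3).trans ?_
  rw [← mul_sum]
  calc 8 * (Φ w * 4 ^ w * (V / R) ^ (7 / 2 : ℝ)) * ∑ k ∈ range N, (3 / 4 : ℝ) ^ k
      ≤ 8 * (Φ w * 4 ^ w * (V / R) ^ (7 / 2 : ℝ)) * 4 :=
        mul_le_mul_of_nonneg_left (C5_geo N) (by positivity)
    _ = 32 * Φ w * 4 ^ w * (V / R) ^ (7 / 2 : ℝ) := by ring

end Pool.Agent.RL
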