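import Pool.Agent.helper88.RL.SpecL
import Pool.Agent.helper88.RL.Cop

set_option autoImplicit false

namespace Pool.Agent.RL

open Finset Pool.Agent.helper3.FT Pool.Agent.T6 Pool.Agent.RF

theorem DB_q (i q : ℕ) (h : (q : ℝ) ≤ (2 : ℝ) ^ ((i : ℝ) / 20)) : q ≤ 2 ^ i := by
  have h1 : (2 : ℝ) ^ ((i : ℝ) / 20) ≤ (2 : ℝ) ^ (i : ℝ) :=
    Real.rpow_le_rpow_of_exponent_le (by norm_num) (by
      have : (0 : ℝ) ≤ i := Nat.cast_nonneg i
      linarith)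
  rw [Real.rpow_natCast] at h1
  have h2 := h.trans h1
  exact_mod_cast h2

theorem DB_card (C : ℝ) (hC : ∀ (j X : ℕ) (F : Finset ℕ), 2 ^ j ≤ X →
    (∀ n ∈ F, 1 ≤ n ∧ n ≤ X ∧ ∀ p : ℕ, p.Prime → p ∣ n → j ≤ Nat.log 2 p) → (F.card : ℝ) ≤ C * X / (j + 1))
    (hC1 : 1 ≤ C) (y u i j q q' : ℕ) (hji : j ≤ i) (hi : 3 * i ≤ u + 1) (hq : 1 ≤ q) (hq' : 1 ≤ q')
    (hqi : q ≤ 2 ^ i) :
    ((DH y u i j q q').card : ℝ) ≤ C * (2 ^ (u + 1) / (2 ^ i * q)) / (j + 1) := by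
  classical
  have hpos : 0 < 2 ^ i * q := by positivity
  have hqq : 0 < q * q' := by positivity
  have h1 : 2 ^ j ≤ 2 ^ (u + 1) / (2 ^ i * q) := by
    rw [Nat.le_div_iff_mul_le hpos]
    calc 2 ^ j * (2 ^ i * q) ≤ 2 ^ i * (2 ^ i * 2 ^ i) :=
          Nat.mul_le_mul (Nat.pow_le_pow_right (by norm_num) hji) (Nat.mul_le_mul_left _ hqi)
      _ = 2 ^ (3 * i) := by ring
      _ ≤ 2 ^ (u + 1) := Nat.pow_le_pow_right (by norm_num) hi
  have hmem : ∀ H ∈ DH y u i j q q', ∃ h : ℕ, H = q * q' * h ∧ H / (q * q') = h ∧ 1 ≤ h ∧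
      h ≤ 2 ^ (u + 1) / (2 ^ i * q) ∧ ∀ p : ℕ, p.Prime → p ∣ h → j ≤ Nat.log 2 p := by
    intro H hH
    unfold DH at hH
    rw [Finset.mem_filter] at hH
    obtain ⟨-, -, hH1, ⟨h, hh, hp⟩, -, hH2⟩ := hH
    refine ⟨h, hh, ?_, ?_, ?_, hp⟩
    · rw [hh]
      exact Nat.mul_div_cancel_left _ hqq
    · rcases Nat.eq_zero_or_pos h with h0 | h0
      · rw [h0] at hh
        omega
      · exact h0
    · rw [Nat.le_div_iff_mul_le hpos]
      rw [hh] at hH2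
      have h3 : h * (2 ^ i * q) * q' < 2 ^ (u + 1) * q' := by
        calc h * (2 ^ i * q) * q' = 2 ^ i * (q * q' * h) := by ring
          _ < _ := hH2
      exact (Nat.lt_of_mul_lt_mul_right h3).le
  have h2 := hC j (2 ^ (u + 1) / (2 ^ i * q)) ((DH y u i j q q').image (fun H => H / (q * q'))) h1 (by
    intro n hn
    rw [Finset.mem_image] at hn
    obtain ⟨H, hH, rfl⟩ := hn
    obtain ⟨h, -, h4, h5, h6, h7⟩ := hmem H hH
    rw [h4]
    exact ⟨h5, h6, h7⟩)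
  rw [Finset.card_image_of_injOn] at h2
  · refine h2.trans ?_
    have h3 : ((2 ^ (u + 1) / (2 ^ i * q) : ℕ) : ℝ) ≤ 2 ^ (u + 1) / (2 ^ i * q) := by
      refine Nat.cast_div_le.trans (le_of_eq ?_)
      push_cast
      rfl
    have hj : (0 : ℝ) < (j : ℝ) + 1 := by positivity
    exact div_le_div_of_nonneg_right (mul_le_mul_of_nonneg_left h3 (by linarith)) hj.le
  · intro H hH H' hH' he
    obtain ⟨h, h3, h4, -⟩ := hmem H hH
    obtain ⟨h', h3', h4', -⟩ := hmem H' hH'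
    simp only at he
    rw [h4, h4'] at he
    rw [h3, h3', he]

/-- DB -/
theorem DB (hP2 : P2_stmt) : DB_stmt := by
  classical
  obtain ⟨C, hC1, hC⟩ := hP2
  refine ⟨58564 * C, by linarith, ?_⟩
  intro y u K i q q' s hs hK hi1 hi hq hq' hqs
  have hji : j0 K i ≤ i := Nat.div_le_self _ _
  have h3i : 3 * i ≤ u + 1 := by omega
  have hqi := DB_q i q hqs
  have hcard := DB_card C hC hC1 y u i (j0 K i) q q' hji h3i hq hq' hqi
  generalize j0 K i = j at *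
  have hs0 : (0 : ℝ) < s := by linarith
  have hq0 : (0 : ℝ) < q := by exact_mod_cast hq
  have hq0' : (0 : ℝ) < q' := by exact_mod_cast hq'
  have hV : (√(2 ^ u) / s ^ 2) ^ 4 = 4 ^ u / s ^ 8 := by
    rw [div_pow, ← pow_mul]
    congr 1
    have h4 : (√((2 : ℝ) ^ u)) ^ 4 = ((√((2 : ℝ) ^ u)) ^ 2) ^ 2 := by ring
    rw [h4, Real.sq_sqrt (by positivity), ← pow_mul, mul_comm, pow_mul]
    norm_num
  have hA : (0 : ℝ) ≤ 4 ^ u / s ^ 8 := by positivity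
  have hin : ∀ H ∈ DH y u i j q q', ∑ r ∈ (range H).filter (fun r => Cop r H),
      14641 * (√(2 ^ u) / s ^ 2) ^ 4 / (H : ℝ) ^ 2 ≤ 14641 * (4 ^ u / s ^ 8) * (2 ^ (i + 1) / (2 ^ u * q')) := by
    intro H hH
    unfold DH at hH
    rw [Finset.mem_filter] at hH
    obtain ⟨-, -, hH1, -, hH2, -⟩ := hH
    have hH0 : (0 : ℝ) < H := by exact_mod_cast hH1
    rw [Finset.sum_const, nsmul_eq_mul, hV]
    have h5 : (((range H).filter (fun r => Cop r H)).card : ℝ) ≤ H := by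
      have := Finset.card_filter_le (range H) (fun r => Cop r H)
      rw [Finset.card_range] at this
      exact_mod_cast this
    have h6 : 1 / (H : ℝ) ≤ 2 ^ (i + 1) / (2 ^ u * q') := by
      rw [div_le_div_iff₀ hH0 (by positivity)]
      have h7 : ((2 ^ u * q' : ℕ) : ℝ) ≤ ((2 ^ (i + 1) * H : ℕ) : ℝ) := by exact_mod_cast hH2.le
      push_cast at h7
      linarith
    calc (((range H).filter (fun r => Cop r H)).card : ℝ) * (14641 * (4 ^ u / s ^ 8) / (H : ℝ) ^ 2)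
        ≤ (H : ℝ) * (14641 * (4 ^ u / s ^ 8) / (H : ℝ) ^ 2) := by gcongr
      _ = 14641 * (4 ^ u / s ^ 8) * (1 / (H : ℝ)) := by field_simp
      _ ≤ _ := by gcongr
  calc ∑ H ∈ DH y u i j q q', ∑ r ∈ (range H).filter (fun r => Cop r H),
      14641 * (√(2 ^ u) / s ^ 2) ^ 4 / (H : ℝ) ^ 2
      ≤ ∑ H ∈ DH y u i j q q', 14641 * (4 ^ u / s ^ 8) * (2 ^ (i + 1) / (2 ^ u * q')) := Finset.sum_le_sum hin
    _ = ((DH y u i j q q').card : ℝ) * (14641 * (4 ^ u / s ^ 8) * (2 ^ (i + 1) / (2 ^ u * q'))) := by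
        rw [Finset.sum_const, nsmul_eq_mul]
    _ ≤ (C * (2 ^ (u + 1) / (2 ^ i * q)) / (j + 1)) * (14641 * (4 ^ u / s ^ 8) * (2 ^ (i + 1) / (2 ^ u * q'))) := by
        gcongr
    _ = 58564 * C * (4 ^ u / s ^ 8) / (q * q' * (j + 1)) := by
        field_simp
        ring

end Pool.Agent.RL
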