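import Pool.Agent.helper88.RL.SpecL
import Pool.Agent.helper88.RL.Cop

set_option autoImplicit false

/-!
# T6, row DC
-/

namespace Pool.Agent.RL

open Finset Pool.Agent.helper3.FT Pool.Agent.T6 Pool.Agent.RF

open Classical in
theorem DC_mem (y w : ℕ) (p : ℕ × ℕ) : p ∈ PR y w ↔
    2 ^ w ≤ p.1 ∧ p.1 < 2 ^ (w + 1) ∧ p.2 < p.1 ∧ Cop p.2 p.1 ∧ Rgh y p.1 := by
  unfold PR
  rw [Finset.mem_filter, Finset.mem_product, Finset.mem_Ico, Finset.mem_range]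
  constructor
  · rintro ⟨⟨⟨h1, h2⟩, -⟩, h3, h4, h5⟩
    exact ⟨h1, h2, h3, h4, h5⟩
  · rintro ⟨h1, h2, h3, h4, h5⟩
    exact ⟨⟨⟨h1, h2⟩, h3.trans h2⟩, h3, h4, h5⟩

theorem DC_log (y w : ℕ) (p : ℕ × ℕ) (h : p ∈ PR y w) : Nat.log 2 p.1 = w := by
  rw [DC_mem] at h
  exact (Nat.log_eq_iff (Or.inr ⟨by norm_num, by
    have := Nat.one_le_two_pow (n := w)
    omega⟩)).2 ⟨h.1, h.2.1⟩

open Classical in
/-- the pairs `(H, r)` are among the pairs of the levels `≤ w₀` -/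
theorem DC_sum (y w₀ : ℕ) (D : Finset ℕ) (f : ℕ → ℕ → ℝ) (hf : ∀ H r, 0 ≤ f H r)
    (hD : ∀ H ∈ D, Rgh y H ∧ 1 ≤ H ∧ Nat.log 2 H ≤ w₀) :
    ∑ H ∈ D, ∑ r ∈ (range H).filter (fun r => Cop r H), f H r ≤
      ∑ w ∈ range (w₀ + 1), ∑ p ∈ PR y w, f p.1 p.2 := by
  have h1 : ∑ p ∈ (D ×ˢ range (2 ^ (w₀ + 1))).filter
      (fun p => p.2 < p.1 ∧ Cop p.2 p.1), f p.1 p.2 =
      ∑ H ∈ D, ∑ r ∈ (range H).filter (fun r => Cop r H), f H r := by
    apply Finset.sum_finset_product (f := fun p : ℕ × ℕ => f p.1 p.2)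
    intro p
    rw [Finset.mem_filter, Finset.mem_product, Finset.mem_filter, Finset.mem_range,
      Finset.mem_range]
    constructor
    · rintro ⟨⟨h1, -⟩, h2, h3⟩
      exact ⟨h1, h2, h3⟩
    · rintro ⟨h1, h2, h3⟩
      refine ⟨⟨h1, ?_⟩, h2, h3⟩
      have h4 := (hD _ h1).2.2
      have h5 : p.1 < 2 ^ (Nat.log 2 p.1 + 1) := Nat.lt_pow_succ_log_self (by norm_num) _
      have h6 : (2 : ℕ) ^ (Nat.log 2 p.1 + 1) ≤ 2 ^ (w₀ + 1) :=
        Nat.pow_le_pow_right (by norm_num) (by omega)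
      omega
  rw [← h1]
  have h2 : ∑ p ∈ (range (w₀ + 1)).biUnion (PR y), f p.1 p.2 =
      ∑ w ∈ range (w₀ + 1), ∑ p ∈ PR y w, f p.1 p.2 := by
    apply Finset.sum_biUnion
    intro w _ w' _ hne
    rw [Function.onFun, Finset.disjoint_left]
    intro p hp hp'
    exact hne ((DC_log y w p hp).symm.trans (DC_log y w' p hp'))
  rw [← h2]
  apply Finset.sum_le_sum_of_subset_of_nonneg
  · intro p hp
    rw [Finset.mem_filter, Finset.mem_product] at hp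
    obtain ⟨⟨h3, -⟩, h4, h5⟩ := hp
    obtain ⟨a1, a2, a3⟩ := hD _ h3
    rw [Finset.mem_biUnion]
    refine ⟨Nat.log 2 p.1, Finset.mem_range.2 (by omega), ?_⟩
    rw [DC_mem]
    exact ⟨Nat.pow_log_le_self 2 (by omega), Nat.lt_pow_succ_log_self (by norm_num) _, h4, h5, a1⟩
  · intro p _ _
    exact hf _ _

open Classical in
/-- the error terms for a general set of numbers `H` -/
theorem DC_gen (hC6 : C6_stmt) (hZ9 : Z9_stmt) :
    ∃ C : ℝ, 1 ≤ C ∧ ∀ (b : ℝ) (y u i q' : ℕ) (s : ℝ) (Φ : ℕ → ℝ) (D : Finset ℕ), MR b u s →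
      5 ≤ y → Pot Φ → IH b y Φ u → 5 ≤ i → i ≤ 2 * u / 25 → (q' : ℝ) ≤ (2 : ℝ) ^ (3 * (i : ℝ) / 50) →
      (∀ H ∈ D, Rgh y H ∧ 1 ≤ H ∧ 2 ^ i * H < 2 ^ (u + 1) * q') →
      (∑ H ∈ D, ∑ r ∈ (range H).filter (fun r => Cop r H),
        ((if Gd b H r ∧ lamb b H r ≤ √(2 ^ u) / s ^ 2 then 343 * (√(2 ^ u) / s ^ 2 / lamb b H r) ^ 3 else 0) +
        (if ¬ Gd b H r ∧ lamb b H r ≤ √(2 ^ u) / s ^ 2 then 343 * 8 ^ (i + 1) else 0))) * s ^ 7 ≤
        C * Φ u * 4 ^ u * (2 : ℝ) ^ (-(47 * (i : ℝ) / 250)) + C * 8 ^ i * (2 : ℝ) ^ (158 * (u : ℝ) / 100) := by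
  obtain ⟨C₁, hC₁, h6⟩ := hC6
  obtain ⟨C₂, hC₂, h9⟩ := hZ9
  refine ⟨2 * C₁ + 343 * 8 * C₂, by linarith, ?_⟩
  intro b y u i q' s Φ D hM hy hP hI hi hiu hq' hD
  have hb := hM.b1
  have hs := hM.s1
  have hs0 : (0 : ℝ) < s := by linarith
  have hu0 : (0 : ℝ) ≤ u := Nat.cast_nonneg u
  have hΦ := hP.two u
  set m : ℕ := 47 * i / 50 with hm
  have hm1 : 50 * m ≤ 47 * i := Nat.mul_div_le _ _
  have hm2 : 47 * i < 50 * m + 50 := by omega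
  have hmu : m ≤ u := by omega
  have hm4 : 4 ≤ m := by omega
  set w₀ : ℕ := u + 1 - m with hw₀
  have hw₀u : w₀ < u := by omega
  have hsub : ((u - w₀ : ℕ) : ℝ) = (m : ℝ) - 1 := by
    have : u - w₀ = m - 1 := by omega
    rw [this, Nat.cast_sub (by omega)]
    simp
  have hm2' : (47 * i : ℝ) < 50 * m + 50 := by exact_mod_cast hm2
  have hm1' : (50 * m : ℝ) ≤ 47 * i := by exact_mod_cast hm1
  have hlog : ∀ H ∈ D, Rgh y H ∧ 1 ≤ H ∧ Nat.log 2 H ≤ w₀ := by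
    intro H hH
    obtain ⟨a1, a2, a3⟩ := hD H hH
    refine ⟨a1, a2, ?_⟩
    have b1 : (2 : ℝ) ^ (Nat.log 2 H) ≤ H := by exact_mod_cast Nat.pow_log_le_self 2 (by omega)
    have b2 : (2 : ℝ) ^ i * H < 2 ^ (u + 1) * q' := by exact_mod_cast a3
    have b3 : (2 : ℝ) ^ ((i : ℝ) + Nat.log 2 H) < (2 : ℝ) ^ ((u : ℝ) + 1 + 3 * (i : ℝ) / 50) := by
      calc (2 : ℝ) ^ ((i : ℝ) + Nat.log 2 H) = (2 : ℝ) ^ i * (2 : ℝ) ^ (Nat.log 2 H) := by
            rw [Real.rpow_add (by norm_num), Real.rpow_natCast, Real.rpow_natCast]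
        _ ≤ (2 : ℝ) ^ i * H := mul_le_mul_of_nonneg_left b1 (by positivity)
        _ < 2 ^ (u + 1) * q' := b2
        _ ≤ 2 ^ (u + 1) * (2 : ℝ) ^ (3 * (i : ℝ) / 50) :=
            mul_le_mul_of_nonneg_left hq' (by positivity)
        _ = (2 : ℝ) ^ ((u : ℝ) + 1 + 3 * (i : ℝ) / 50) := by
            rw [← Real.rpow_natCast 2 (u + 1), ← Real.rpow_add (by norm_num)]
            push_cast
            rfl
    have b4 := (Real.rpow_lt_rpow_left_iff (by norm_num : (1 : ℝ) < 2)).1 b3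
    have b5 : ((Nat.log 2 H + m : ℕ) : ℝ) < ((u + 1 : ℕ) : ℝ) := by
      push_cast
      linarith
    have b6 : Nat.log 2 H + m < u + 1 := by exact_mod_cast b5
    omega
  simp only [Finset.sum_add_distrib, add_mul]
  have g1 : (∑ H ∈ D, ∑ r ∈ (range H).filter (fun r => Cop r H),
      (if Gd b H r ∧ lamb b H r ≤ √(2 ^ u) / s ^ 2 then
        343 * (√(2 ^ u) / s ^ 2 / lamb b H r) ^ 3 else 0)) * s ^ 7 ≤
      C₁ * Φ u * 4 ^ u * (2 : ℝ) ^ (-(((u - w₀ : ℕ) : ℝ) / 5)) := by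
    refine le_trans (mul_le_mul_of_nonneg_right ?_ (by positivity)) (h6 b y u w₀ s Φ hb hs hP hI hw₀u)
    have := DC_sum y w₀ D (fun H r => if Gd b H r ∧ lamb b H r ≤ √(2 ^ u) / s ^ 2 then
        343 * (√(2 ^ u) / s ^ 2 / lamb b H r) ^ 3 else 0) ?_ hlog
    · refine this.trans (le_of_eq ?_)
      apply Finset.sum_congr rfl
      intro w _
      rw [Finset.sum_filter]
    · intro H r
      split_ifs
      · have hl : 0 ≤ lamb b H r := by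
          unfold lamb
          apply Real.sInf_nonneg
          rintro x ⟨v, -, -, rfl⟩
          exact nrm_nonneg b v
        positivity
      · exact le_refl _
  have g2 : (∑ H ∈ D, ∑ r ∈ (range H).filter (fun r => Cop r H),
      (if ¬ Gd b H r ∧ lamb b H r ≤ √(2 ^ u) / s ^ 2 then (343 : ℝ) * 8 ^ (i + 1) else 0)) ≤
      343 * 8 ^ (i + 1) * (C₂ * b ^ 5 * (2 : ℝ) ^ (151 * (u : ℝ) / 100)) := by
    refine le_trans ?_ (mul_le_mul_of_nonneg_left (h9 b y u s hM hy) (by positivity))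
    have := DC_sum y w₀ D (fun H r => if ¬ Gd b H r ∧ lamb b H r ≤ √(2 ^ u) / s ^ 2 then
        (343 : ℝ) * 8 ^ (i + 1) else 0) ?_ hlog
    · refine this.trans ?_
      rw [Finset.mul_sum]
      refine le_trans (Finset.sum_le_sum_of_subset_of_nonneg
        (Finset.range_mono (by omega : w₀ + 1 ≤ u)) ?_) (le_of_eq ?_)
      · intro w _ _
        apply Finset.sum_nonneg
        intro p _
        split_ifs
        · positivity
        · exact le_refl _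
      · apply Finset.sum_congr rfl
        intro w _
        rw [← Finset.sum_filter, Finset.sum_const, nsmul_eq_mul, mul_comm]
    · intro H r
      split_ifs
      · positivity
      · exact le_refl _
  have e1 : (2 : ℝ) ^ (-(((u - w₀ : ℕ) : ℝ) / 5)) ≤ 2 * (2 : ℝ) ^ (-(47 * (i : ℝ) / 250)) := by
    rw [hsub]
    calc (2 : ℝ) ^ (-(((m : ℝ) - 1) / 5)) ≤ (2 : ℝ) ^ (1 + -(47 * (i : ℝ) / 250)) := by
          apply Real.rpow_le_rpow_of_exponent_le (by norm_num)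
          linarith
      _ = 2 * (2 : ℝ) ^ (-(47 * (i : ℝ) / 250)) := by
          rw [Real.rpow_add (by norm_num), Real.rpow_one]
  have e2 : b ^ 5 ≤ (2 : ℝ) ^ ((u : ℝ) / 20) := by
    have := pow_le_pow_left₀ (by linarith : (0 : ℝ) ≤ b) hM.b2 5
    refine this.trans (le_of_eq ?_)
    rw [← Real.rpow_natCast, ← Real.rpow_mul (by norm_num)]
    congr 1
    push_cast
    ring
  have e3 : s ^ 7 ≤ (2 : ℝ) ^ (7 * (u : ℝ) / 400) := by
    have := pow_le_pow_left₀ hs0.le hM.s2 7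
    refine this.trans (le_of_eq ?_)
    rw [← Real.rpow_natCast, ← Real.rpow_mul (by norm_num)]
    congr 1
    push_cast
    ring
  have e4 : b ^ 5 * (2 : ℝ) ^ (151 * (u : ℝ) / 100) * s ^ 7 ≤ (2 : ℝ) ^ (158 * (u : ℝ) / 100) := by
    calc b ^ 5 * (2 : ℝ) ^ (151 * (u : ℝ) / 100) * s ^ 7
        ≤ (2 : ℝ) ^ ((u : ℝ) / 20) * (2 : ℝ) ^ (151 * (u : ℝ) / 100) * (2 : ℝ) ^ (7 * (u : ℝ) / 400) := by
          gcongr
      _ = (2 : ℝ) ^ ((u : ℝ) / 20 + 151 * (u : ℝ) / 100 + 7 * (u : ℝ) / 400) := by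
          rw [Real.rpow_add (by norm_num), Real.rpow_add (by norm_num)]
      _ ≤ _ := by
          apply Real.rpow_le_rpow_of_exponent_le (by norm_num)
          linarith
  have g1' : C₁ * Φ u * 4 ^ u * (2 : ℝ) ^ (-(((u - w₀ : ℕ) : ℝ) / 5)) ≤
      2 * C₁ * Φ u * 4 ^ u * (2 : ℝ) ^ (-(47 * (i : ℝ) / 250)) := by
    have hpos : 0 ≤ C₁ * Φ u * 4 ^ u := by
      have : 0 ≤ Φ u := by linarith
      have : 0 ≤ C₁ := by linarith
      positivity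
    calc C₁ * Φ u * 4 ^ u * (2 : ℝ) ^ (-(((u - w₀ : ℕ) : ℝ) / 5))
        ≤ C₁ * Φ u * 4 ^ u * (2 * (2 : ℝ) ^ (-(47 * (i : ℝ) / 250))) :=
          mul_le_mul_of_nonneg_left e1 hpos
      _ = _ := by ring
  have g2' : (∑ H ∈ D, ∑ r ∈ (range H).filter (fun r => Cop r H),
      (if ¬ Gd b H r ∧ lamb b H r ≤ √(2 ^ u) / s ^ 2 then (343 : ℝ) * 8 ^ (i + 1) else 0)) * s ^ 7 ≤
      343 * 8 * C₂ * 8 ^ i * (2 : ℝ) ^ (158 * (u : ℝ) / 100) := by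
    calc _ ≤ 343 * 8 ^ (i + 1) * (C₂ * b ^ 5 * (2 : ℝ) ^ (151 * (u : ℝ) / 100)) * s ^ 7 :=
          mul_le_mul_of_nonneg_right g2 (by positivity)
      _ = 343 * 8 * C₂ * 8 ^ i * (b ^ 5 * (2 : ℝ) ^ (151 * (u : ℝ) / 100) * s ^ 7) := by
          rw [pow_succ]
          ring
      _ ≤ _ := mul_le_mul_of_nonneg_left e4 (by positivity)
  have k1 : 0 ≤ 343 * 8 * C₂ * Φ u * 4 ^ u * (2 : ℝ) ^ (-(47 * (i : ℝ) / 250)) := by
    have : 0 ≤ Φ u := by linarith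
    positivity
  have k2 : 0 ≤ 2 * C₁ * 8 ^ i * (2 : ℝ) ^ (158 * (u : ℝ) / 100) := by positivity
  calc _ ≤ 2 * C₁ * Φ u * 4 ^ u * (2 : ℝ) ^ (-(47 * (i : ℝ) / 250)) +
        343 * 8 * C₂ * 8 ^ i * (2 : ℝ) ^ (158 * (u : ℝ) / 100) :=
        add_le_add (g1.trans g1') g2'
    _ ≤ _ := by linarith

/-- DC -/
theorem DC (hC6 : C6_stmt) (hZ9 : Z9_stmt) : DC_stmt := by
  obtain ⟨C, hC, h⟩ := DC_gen hC6 hZ9
  refine ⟨C, hC, ?_⟩
  intro b y u j i q q' s Φ hM hy hP hI hi hiu hq' h1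
  apply h b y u i q' s Φ _ hM hy hP hI hi hiu hq'
  intro H hH
  classical
  unfold DH at hH
  rw [Finset.mem_filter] at hH
  exact ⟨hH.2.1, hH.2.2.1, hH.2.2.2.2.2⟩

end Pool.Agent.RL
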