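import Pool.Agent.helper88.RL.SpecL
import Pool.Agent.helper88.RL.Cop

/-!
# T6, block L: row DD (case Ia for one part `q`)
-/

set_option autoImplicit false

namespace Pool.Agent.RL

open Finset Pool.Agent.helper3.FT Pool.Agent.T6 Pool.Agent.RF

theorem DD_cop (y H : ℕ) (hy : 32 ≤ y) (hH : Rgh y H) : Nat.Coprime H 5 := by
  rw [Nat.coprime_comm, Nat.Prime.coprime_iff_not_dvd (by norm_num)]
  intro h5
  have := hH 5 (by norm_num) h5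
  omega

/-- the elements of `QP` are at most `2^(3i/50)` -/
theorem DD_le (i q q' : ℕ) (hqi : (q : ℝ) ≤ (2 : ℝ) ^ ((i : ℝ) / 20)) (h : q' ^ 5 ≤ q ^ 6) :
    (q' : ℝ) ≤ (2 : ℝ) ^ (3 * (i : ℝ) / 50) := by
  have h1 : ((q' : ℝ)) ^ 5 ≤ ((2 : ℝ) ^ (3 * (i : ℝ) / 50)) ^ 5 := by
    calc ((q' : ℝ)) ^ 5 ≤ (q : ℝ) ^ 6 := by exact_mod_cast h
      _ ≤ ((2 : ℝ) ^ ((i : ℝ) / 20)) ^ 6 := pow_le_pow_left₀ (Nat.cast_nonneg _) hqi 6
      _ = ((2 : ℝ) ^ (3 * (i : ℝ) / 50)) ^ 5 := by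
        rw [← Real.rpow_natCast, ← Real.rpow_mul (by norm_num), ← Real.rpow_natCast, ← Real.rpow_mul (by norm_num)]
        refine congrArg (fun t : ℝ => (2 : ℝ) ^ t) ?_
        push_cast
        ring
  exact le_of_pow_le_pow_left₀ (by norm_num) (Real.rpow_nonneg (by norm_num) _) h1

theorem DD_card (i : ℕ) (Q : Finset ℕ) (h : ∀ q' ∈ Q, 1 ≤ q' ∧ (q' : ℝ) ≤ (2 : ℝ) ^ (3 * (i : ℝ) / 50)) :
    (Q.card : ℝ) ≤ (2 : ℝ) ^ (3 * (i : ℝ) / 50) := by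
  have h1 : Q ⊆ Finset.Icc 1 ⌊(2 : ℝ) ^ (3 * (i : ℝ) / 50)⌋₊ := by
    intro q' hq'
    obtain ⟨h2, h3⟩ := h q' hq'
    exact Finset.mem_Icc.mpr ⟨h2, Nat.le_floor h3⟩
  have h2 := Finset.card_le_card h1
  rw [Nat.card_Icc, Nat.add_sub_cancel] at h2
  calc (Q.card : ℝ) ≤ (⌊(2 : ℝ) ^ (3 * (i : ℝ) / 50)⌋₊ : ℝ) := by exact_mod_cast h2
    _ ≤ _ := Nat.floor_le (Real.rpow_nonneg (by norm_num) _)

open Classical in
theorem DD (hDA : DA_stmt) (hDB : DB_stmt) (hDC : DC_stmt) (hNBF : NBF_stmt) (hP5 : P5_stmt) : DD_stmt := by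
  obtain ⟨CB, hCB, hB⟩ := hDB
  obtain ⟨CC, hCC, hC⟩ := hDC
  refine ⟨3 * CB + 3 * CC, by linarith, ?_⟩
  intro b y u K i q s Φ hMR hy hPot hIH hK hi5 hiu hq hRq hqi
  have hs : 1 ≤ s := hMR.s1
  have hs0 : 0 < s := by linarith
  obtain ⟨hsum, hQ⟩ := hP5 y (j0 K i) q hq hRq hy
  have hA := hDA b y u K i q s hMR.b1 hy hs hK
  obtain ⟨V, hV⟩ : ∃ V : ℝ, V = √(2 ^ u) / s ^ 2 := ⟨_, rfl⟩
  have hV0 : 0 ≤ V := by rw [hV]; positivity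
  obtain ⟨E, hE⟩ : ∃ E : ℝ, E = CC * Φ u * 4 ^ u * (2 : ℝ) ^ (-(47 * (i : ℝ) / 250)) +
    CC * 8 ^ i * (2 : ℝ) ^ (158 * (u : ℝ) / 100) := ⟨_, rfl⟩
  obtain ⟨M, hM⟩ : ∃ M : ℝ, M = CB * (4 ^ u / s) / (q * (j0 K i + 1)) := ⟨_, rfl⟩
  have hq0 : (0 : ℝ) < q := by exact_mod_cast hq
  have key : ∀ q' ∈ QP y (j0 K i) q, (∑ H ∈ DH y u i (j0 K i) q q', ∑ r ∈ (range H).filter (fun r => Cop r H),
      NBf b (√(2 ^ u) / s ^ 2) H r i) * s ^ 7 ≤ M * (1 / (q' : ℝ)) + E := by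
    intro q' hq'
    obtain ⟨hq'1, hq'5, hq'R, -⟩ := hQ q' hq'
    have hq'le := DD_le i q q' hqi hq'5
    have hq'0 : (0 : ℝ) < q' := by exact_mod_cast hq'1
    have hb := hB y u K i q q' s hs hK (by omega) hiu hq hq'1 hqi
    have hc := hC b y u (j0 K i) i q q' s Φ hMR (by omega) hPot hIH hi5 hiu hq'le hq'1
    rw [← hE] at hc
    rw [← hV] at hb hc ⊢
    have h1 : (∑ H ∈ DH y u i (j0 K i) q q', ∑ r ∈ (range H).filter (fun r => Cop r H), NBf b V H r i) ≤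
        (∑ H ∈ DH y u i (j0 K i) q q', ∑ r ∈ (range H).filter (fun r => Cop r H), 14641 * V ^ 4 / (H : ℝ) ^ 2) +
        (∑ H ∈ DH y u i (j0 K i) q q', ∑ r ∈ (range H).filter (fun r => Cop r H),
          ((if Gd b H r ∧ lamb b H r ≤ V then 343 * (V / lamb b H r) ^ 3 else 0) +
          (if ¬ Gd b H r ∧ lamb b H r ≤ V then 343 * 8 ^ (i + 1) else 0))) := by
      rw [← Finset.sum_add_distrib]
      refine Finset.sum_le_sum (fun H hH => ?_)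
      rw [← Finset.sum_add_distrib]
      refine Finset.sum_le_sum (fun r _ => ?_)
      have hH' := (Finset.mem_filter.mp hH).2
      have h2 := hNBF b V H r i hMR.b1 hH'.2.1 (DD_cop y H hy hH'.1) hV0
      linarith
    have h3 := mul_le_mul_of_nonneg_right h1 (pow_nonneg hs0.le 7)
    rw [add_mul] at h3
    have h4 := mul_le_mul_of_nonneg_right hb (pow_nonneg hs0.le 7)
    have h5 : CB * (4 ^ u / s ^ 8) / (q * q' * (j0 K i + 1)) * s ^ 7 = M * (1 / (q' : ℝ)) := by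
      rw [hM]
      have hj : (0 : ℝ) < (j0 K i : ℝ) + 1 := by positivity
      field_simp
    rw [h5] at h4
    linarith
  have hE0 : 0 ≤ E := by
    rw [hE]
    have := hPot.two u
    positivity
  have hM0 : 0 ≤ M := by rw [hM]; positivity
  have h6 : (∑ q' ∈ QP y (j0 K i) q, ∑ H ∈ DH y u i (j0 K i) q q', ∑ r ∈ (range H).filter (fun r => Cop r H),
      NBf b (√(2 ^ u) / s ^ 2) H r i) * s ^ 7 ≤ M * (∏ J ∈ Sg (j0 K i) q, (4 / J : ℝ)) + (2 : ℝ) ^ (3 * (i : ℝ) / 50) * E := by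
    rw [Finset.sum_mul]
    calc _ ≤ ∑ q' ∈ QP y (j0 K i) q, (M * (1 / (q' : ℝ)) + E) := Finset.sum_le_sum key
      _ = M * (∑ q' ∈ QP y (j0 K i) q, 1 / (q' : ℝ)) + ((QP y (j0 K i) q).card : ℝ) * E := by
        rw [Finset.sum_add_distrib, ← Finset.mul_sum, Finset.sum_const, nsmul_eq_mul]
      _ ≤ _ := by
        refine add_le_add (mul_le_mul_of_nonneg_left hsum hM0) (mul_le_mul_of_nonneg_right ?_ hE0)
        exact DD_card i _ (fun q' hq' => ⟨(hQ q' hq').1, DD_le i q q' hqi (hQ q' hq').2.1⟩)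
  have h7 := mul_le_mul_of_nonneg_right hA (pow_nonneg hs0.le 7)
  have h8 : 0 ≤ (4 ^ u / s) * (∏ J ∈ Sg (j0 K i) q, (4 / J : ℝ)) / (q * (j0 K i + 1)) := by
    have : 0 ≤ ∏ J ∈ Sg (j0 K i) q, (4 / J : ℝ) := Finset.prod_nonneg (fun J _ => by positivity)
    positivity
  have h9 : 0 ≤ (2 : ℝ) ^ (3 * (i : ℝ) / 50) * (Φ u * 4 ^ u * (2 : ℝ) ^ (-(47 * (i : ℝ) / 250)) +
        8 ^ i * (2 : ℝ) ^ (158 * (u : ℝ) / 100)) := by
    have := hPot.two u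
    positivity
  calc ((SIq b y u s K i q).card : ℝ) * s ^ 7
      ≤ 3 * ((∑ q' ∈ QP y (j0 K i) q, ∑ H ∈ DH y u i (j0 K i) q q', ∑ r ∈ (range H).filter (fun r => Cop r H),
      NBf b (√(2 ^ u) / s ^ 2) H r i) * s ^ 7) := by rw [← mul_assoc]; exact h7
    _ ≤ 3 * (M * (∏ J ∈ Sg (j0 K i) q, (4 / J : ℝ)) + (2 : ℝ) ^ (3 * (i : ℝ) / 50) * E) := by linarith
    _ = 3 * CB * ((4 ^ u / s) * (∏ J ∈ Sg (j0 K i) q, (4 / J : ℝ)) / (q * (j0 K i + 1))) +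
        3 * CC * ((2 : ℝ) ^ (3 * (i : ℝ) / 50) * (Φ u * 4 ^ u * (2 : ℝ) ^ (-(47 * (i : ℝ) / 250)) +
        8 ^ i * (2 : ℝ) ^ (158 * (u : ℝ) / 100))) := by rw [hM, hE]; ring
    _ ≤ (3 * CB + 3 * CC) * ((4 ^ u / s) * (∏ J ∈ Sg (j0 K i) q, (4 / J : ℝ)) / (q * (j0 K i + 1))) +
        (3 * CB + 3 * CC) * ((2 : ℝ) ^ (3 * (i : ℝ) / 50) * (Φ u * 4 ^ u * (2 : ℝ) ^ (-(47 * (i : ℝ) / 250)) +
        8 ^ i * (2 : ℝ) ^ (158 * (u : ℝ) / 100))) := by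
        refine add_le_add (mul_le_mul_of_nonneg_right (by linarith) h8) (mul_le_mul_of_nonneg_right (by linarith) h9)
    _ = _ := by ring

end Pool.Agent.RL
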