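import Pool.Agent.helper88.RL.SpecL
import Pool.Agent.helper88.RL.Cop

set_option autoImplicit false

/-!
# T6, row t6:DE: trivial count of the pairs of case I
-/

namespace Pool.Agent.RL

open Finset Pool.Agent.helper3.FT Pool.Agent.T6 Pool.Agent.RF

/-- the part of `d` in the blocks `< j` and the rest -/
theorem DE_split (j d : ℕ) (hd : d ≠ 0) : ∃ m, d = prt j d * m ∧
    (∀ p : ℕ, p.Prime → p ∣ m → j ≤ Nat.log 2 p) ∧
    ∀ p : ℕ, p.Prime → p ∣ prt j d → Nat.log 2 p < j := by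
  refine ⟨∏ p ∈ d.primeFactors.filter (fun p => ¬ Nat.log 2 p < j), p ^ d.factorization p, ?_, ?_, ?_⟩
  · unfold prt
    rw [Finset.prod_filter_mul_prod_filter_not]
    exact (Nat.prod_factorization_pow_eq_self hd).symm
  · intro p hp h
    obtain ⟨a, ha, hpa⟩ := (Prime.dvd_finsetProd_iff hp.prime _).1 h
    rw [Finset.mem_filter, Nat.mem_primeFactors] at ha
    have h1 := hp.dvd_of_dvd_pow hpa
    have h2 := (Nat.prime_dvd_prime_iff_eq hp ha.1.1).1 h1
    rw [h2]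
    exact not_lt.1 ha.2
  · intro p hp h
    unfold prt at h
    obtain ⟨a, ha, hpa⟩ := (Prime.dvd_finsetProd_iff hp.prime _).1 h
    rw [Finset.mem_filter, Nat.mem_primeFactors] at ha
    have h1 := hp.dvd_of_dvd_pow hpa
    have h2 := (Nat.prime_dvd_prime_iff_eq hp ha.1.1).1 h1
    rw [h2]
    exact ha.2

/-- the numbers `h` -/
def DE_F (j X : ℕ) : Finset ℕ :=
  ((Icc 1 X).filter (fun h => ∀ p ∈ h.primeFactors, j ≤ Nat.log 2 p))

theorem DE_mem {b : ℝ} {y u K i q : ℕ} {s : ℝ} {p : ℕ × ℕ} (hi : 1 ≤ i) (hq : 1 ≤ q)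
    (hp : p ∈ SIq b y u s K i q) :
    p.2 < 2 ^ (u + 1) ∧ ∃ l ∈ pb y i, ∃ h ∈ DE_F (j0 K i) (2 ^ (u + 1) / (l * q)), p.1 = l * q * h := by
  obtain ⟨d, r⟩ := p
  unfold SIq SI SB SU PR at hp
  simp only [Finset.mem_filter, Finset.mem_product, Finset.mem_Ico, Finset.mem_range] at hp
  obtain ⟨⟨⟨⟨⟨⟨⟨hd1, hd2⟩, hr⟩, -, -, hrgh⟩, -⟩, -⟩, ⟨l, hl, hli⟩, -⟩, hprt⟩ := hp
  obtain ⟨hlp, hld, -, -⟩ := hl
  refine ⟨hr, l, ?_, ?_⟩
  · unfold pb
    have h1 : l ≠ 0 := hlp.ne_zero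
    rw [Finset.mem_filter, Finset.mem_Ico]
    refine ⟨⟨?_, ?_⟩, hlp, hrgh l hlp hld⟩
    · rw [← hli]
      exact Nat.pow_log_le_self 2 h1
    · rw [← hli]
      exact Nat.lt_pow_succ_log_self (by norm_num) l
  · have hd0 : d ≠ 0 := by
      have := Nat.pos_of_ne_zero (pow_ne_zero u (two_ne_zero : (2 : ℕ) ≠ 0))
      omega
    obtain ⟨m, hm1, hm2, hm3⟩ := DE_split (j0 K i) d hd0
    rw [hprt] at hm1 hm3
    have hj : j0 K i ≤ i := Nat.div_le_self _ _
    have hlq : ¬ l ∣ q := by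
      intro h
      have := hm3 l hlp h
      omega
    have hlm : l ∣ m := by
      rw [hm1] at hld
      exact (hlp.dvd_mul.1 hld).resolve_left hlq
    obtain ⟨h, hh⟩ := hlm
    have hd' : d = l * q * h := by
      rw [hm1, hh]
      ring
    refine ⟨h, ?_, hd'⟩
    unfold DE_F
    have hl0 : 0 < l * q := Nat.mul_pos hlp.pos hq
    rw [Finset.mem_filter, Finset.mem_Icc]
    refine ⟨⟨?_, ?_⟩, ?_⟩
    · rcases Nat.eq_zero_or_pos h with h0 | h0
      · rw [h0, mul_zero] at hd'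
        exact absurd hd' hd0
      · exact h0
    · rw [Nat.le_div_iff_mul_le hl0, mul_comm, ← hd']
      exact hd2.le
    · intro p hp
      rw [Nat.mem_primeFactors] at hp
      refine hm2 p hp.1 ?_
      rw [hh]
      exact dvd_mul_of_dvd_right hp.2.1 l

theorem DE (hP1 : P1_stmt) (hP2 : P2_stmt) : DE_stmt := by
  classical
  obtain ⟨C, hC, hcount⟩ := hP2
  refine ⟨16 * C, by linarith, ?_⟩
  intro b y u K i q s hK hi hiu hq hqi
  set j := j0 K i with hj
  have hji : j ≤ i := Nat.div_le_self _ _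
  have hqn : q ≤ 2 ^ i := by
    have h1 : (2 : ℝ) ^ ((i : ℝ) / 20) ≤ (2 : ℝ) ^ (i : ℝ) := by
      apply Real.rpow_le_rpow_of_exponent_le (by norm_num)
      have : (0 : ℝ) ≤ i := Nat.cast_nonneg i
      linarith
    rw [Real.rpow_natCast] at h1
    exact_mod_cast hqi.trans h1
  have h3i : 3 * i ≤ u := by omega
  -- the pairs
  have hsub : SIq b y u s K i q ⊆
      ((pb y i).biUnion (fun l => (DE_F j (2 ^ (u + 1) / (l * q))).image (fun h => l * q * h))) ×ˢ
        (range (2 ^ (u + 1))) := by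
    intro p hp
    obtain ⟨hr, l, hl, h, hh, he⟩ := DE_mem hi hq hp
    rw [Finset.mem_product, Finset.mem_biUnion, Finset.mem_range]
    exact ⟨⟨l, hl, Finset.mem_image.2 ⟨h, hh, he.symm⟩⟩, hr⟩
  have hc1 : ((SIq b y u s K i q).card : ℝ) ≤
      (∑ l ∈ pb y i, ((DE_F j (2 ^ (u + 1) / (l * q))).card : ℝ)) * 2 ^ (u + 1) := by
    have h1 := Finset.card_le_card hsub
    rw [Finset.card_product, Finset.card_range] at h1
    have h2 : ((pb y i).biUnion (fun l => (DE_F j (2 ^ (u + 1) / (l * q))).image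
        (fun h => l * q * h))).card ≤ ∑ l ∈ pb y i, (DE_F j (2 ^ (u + 1) / (l * q))).card :=
      Finset.card_biUnion_le.trans (Finset.sum_le_sum fun l _ => Finset.card_image_le)
    have h3 := h1.trans (Nat.mul_le_mul_right _ h2)
    exact_mod_cast h3
  have hqR : (0 : ℝ) < q := by exact_mod_cast hq
  have hc2 : ∀ l ∈ pb y i, ((DE_F j (2 ^ (u + 1) / (l * q))).card : ℝ) ≤
      C * 2 ^ (u + 1) / (q * (j + 1)) * (1 / l) := by
    intro l hl
    unfold pb at hl
    rw [Finset.mem_filter, Finset.mem_Ico] at hl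
    obtain ⟨⟨hl1, hl2⟩, hlp, -⟩ := hl
    have hl0 : 0 < l * q := Nat.mul_pos hlp.pos hq
    have hX : 2 ^ j ≤ 2 ^ (u + 1) / (l * q) := by
      rw [Nat.le_div_iff_mul_le hl0]
      calc 2 ^ j * (l * q) ≤ 2 ^ i * (2 ^ (i + 1) * 2 ^ i) :=
            Nat.mul_le_mul (Nat.pow_le_pow_right (by norm_num) hji) (Nat.mul_le_mul hl2.le hqn)
        _ = 2 ^ (3 * i + 1) := by
            rw [← pow_add, ← pow_add]
            congr 1
            ring
        _ ≤ 2 ^ (u + 1) := Nat.pow_le_pow_right (by norm_num) (by omega)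
    have h1 := hcount j (2 ^ (u + 1) / (l * q)) (DE_F j (2 ^ (u + 1) / (l * q))) hX (by
      intro n hn
      unfold DE_F at hn
      rw [Finset.mem_filter, Finset.mem_Icc] at hn
      refine ⟨hn.1.1, hn.1.2, ?_⟩
      intro p hp hpn
      exact hn.2 p (Nat.mem_primeFactors.2 ⟨hp, hpn, by omega⟩))
    refine h1.trans ?_
    have h2 : ((2 ^ (u + 1) / (l * q) : ℕ) : ℝ) ≤ (2 : ℝ) ^ (u + 1) / (l * q) := by
      refine (Nat.cast_div_le).trans (le_of_eq ?_)
      push_cast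
      rfl
    have hlR : (0 : ℝ) < l := by exact_mod_cast hlp.pos
    have hjR : (0 : ℝ) < (j : ℝ) + 1 := by positivity
    have h3 : C * ((2 ^ (u + 1) / (l * q) : ℕ) : ℝ) / (j + 1) ≤ C * ((2 : ℝ) ^ (u + 1) / (l * q)) / (j + 1) := by
      apply div_le_div_of_nonneg_right _ hjR.le
      exact mul_le_mul_of_nonneg_left h2 (by linarith)
    refine h3.trans (le_of_eq ?_)
    field_simp
  have hjR : (0 : ℝ) < (j : ℝ) + 1 := by positivity
  have hiR : (0 : ℝ) < i := by exact_mod_cast hi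
  have hc3 : ∑ l ∈ pb y i, ((DE_F j (2 ^ (u + 1) / (l * q))).card : ℝ) ≤
      C * 2 ^ (u + 1) / (q * (j + 1)) * (4 / i) := by
    refine (Finset.sum_le_sum hc2).trans ?_
    rw [← Finset.mul_sum]
    exact mul_le_mul_of_nonneg_left (hP1 y i hi) (by positivity)
  refine hc1.trans ((mul_le_mul_of_nonneg_right hc3 (by positivity)).trans (le_of_eq ?_))
  have h4 : (4 : ℝ) ^ u = 2 ^ u * 2 ^ u := by
    rw [← mul_pow]
    norm_num
  rw [h4, pow_succ]
  field_simp
  ring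

end Pool.Agent.RL
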