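import Pool.Agent.helper88.RL.SpecL
import Pool.Agent.helper88.RL.Cop

set_option autoImplicit false

namespace Pool.Agent.RL

open Finset Pool.Agent.helper3.FT Pool.Agent.T6 Pool.Agent.RF

theorem DI_log (k : ℕ) : (k : ℝ) + 1 ≤ 32 * (2 : ℝ) ^ ((k : ℝ) / 16) := by
  have h1 : (2 : ℝ) ^ ((k : ℝ) / 16) = Real.exp (Real.log 2 * ((k : ℝ) / 16)) :=
    Real.rpow_def_of_pos two_pos _
  have h2 := Real.add_one_le_exp (Real.log 2 * ((k : ℝ) / 16))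
  have h3 : (1 / 2 : ℝ) ≤ Real.log 2 := by
    have := Real.log_two_gt_d9
    linarith
  have h4 : (0 : ℝ) ≤ k := Nat.cast_nonneg k
  rw [h1]
  nlinarith

theorem DI_j0 (K i : ℕ) (hK : 1 ≤ K) (hi : 1 ≤ i) :
    1 / (((j0 K i : ℕ) + 1 : ℝ) * (i : ℝ) ^ (1 / 8 : ℝ)) ≤ 32 * K * (1 / (i : ℝ) ^ (17 / 16 : ℝ)) := by
  have hi0 : (0 : ℝ) < i := by exact_mod_cast hi
  have hK0 : (0 : ℝ) < K := by exact_mod_cast hK
  have ha : 0 < K * (Nat.log 2 i + 1) := Nat.mul_pos hK (Nat.succ_pos _)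
  have h1 : i < K * (Nat.log 2 i + 1) * (j0 K i + 1) := by
    unfold j0
    exact Nat.lt_mul_div_succ i ha
  have h2 : (i : ℝ) ≤ K * ((Nat.log 2 i : ℕ) + 1) * ((j0 K i : ℕ) + 1) := by
    exact_mod_cast h1.le
  have h3 : ((Nat.log 2 i : ℕ) : ℝ) + 1 ≤ 32 * (i : ℝ) ^ (1 / 16 : ℝ) := by
    refine (DI_log (Nat.log 2 i)).trans ?_
    have h4 : (2 : ℝ) ^ (((Nat.log 2 i : ℕ) : ℝ) / 16) ≤ (i : ℝ) ^ (1 / 16 : ℝ) := by
      have h5 : ((2 : ℝ) ^ (Nat.log 2 i)) ≤ i := by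
        exact_mod_cast Nat.pow_log_le_self 2 (by omega : i ≠ 0)
      have h6 : (2 : ℝ) ^ (((Nat.log 2 i : ℕ) : ℝ) / 16) = ((2 : ℝ) ^ (Nat.log 2 i)) ^ (1 / 16 : ℝ) := by
        rw [← Real.rpow_natCast, ← Real.rpow_mul (by norm_num)]
        congr 1
        ring
      rw [h6]
      exact Real.rpow_le_rpow (by positivity) h5 (by norm_num)
    linarith
  have h7 : (i : ℝ) ≤ 32 * K * ((j0 K i : ℕ) + 1) * (i : ℝ) ^ (1 / 16 : ℝ) := by
    have h8 : (0 : ℝ) ≤ K * ((j0 K i : ℕ) + 1) := by positivity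
    nlinarith [mul_le_mul_of_nonneg_left h3 h8]
  have h9 : (i : ℝ) ^ (17 / 16 : ℝ) = i * (i : ℝ) ^ (1 / 16 : ℝ) := by
    rw [show (17 / 16 : ℝ) = 1 + 1 / 16 by norm_num, Real.rpow_add hi0, Real.rpow_one]
  have h10 : (i : ℝ) ^ (1 / 8 : ℝ) = (i : ℝ) ^ (1 / 16 : ℝ) * (i : ℝ) ^ (1 / 16 : ℝ) := by
    rw [← Real.rpow_add hi0]
    norm_num
  have h11 : (0 : ℝ) < (i : ℝ) ^ (1 / 16 : ℝ) := Real.rpow_pos_of_pos hi0 _
  rw [h9, h10, mul_one_div, div_le_div_iff₀ (by positivity) (by positivity), one_mul]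
  nlinarith [mul_le_mul_of_nonneg_right h7 h11.le]

theorem DI_split {α : Type} (S : Finset α) (P : α → Prop) [DecidablePred P]
    [DecidablePred fun x => ¬ P x] :
    (S.filter P).card + (S.filter (fun x => ¬ P x)).card = S.card := by
  have h := Finset.card_filter_add_card_filter_not (s := S) P
  rw [← h]

theorem DI_empty (b : ℝ) (y u i : ℕ) (s : ℝ) (h : (SI b y u s i).Nonempty) : y < 2 ^ (i + 1) := by
  classical
  obtain ⟨p, hp⟩ := h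
  unfold SI at hp
  rw [Finset.mem_filter] at hp
  obtain ⟨hp1, ⟨l, hl, hl2⟩, _⟩ := hp
  unfold SB SU PR at hp1
  rw [Finset.mem_filter, Finset.mem_filter, Finset.mem_filter] at hp1
  have h1 : y < l := hp1.1.1.2.2.2 l hl.1 hl.2.1
  have h2 := Nat.lt_pow_succ_log_self (b := 2) (by norm_num) l
  rw [hl2] at h2
  exact h1.trans h2

theorem DI_a (i : ℕ) (y : ℕ) (hy : 1 ≤ y) (h : y < 2 ^ (i + 1)) :
    (2 : ℝ) ^ (11 * (i : ℝ) / 100) * (2 : ℝ) ^ (-(47 * (i : ℝ) / 250)) ≤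
      (2 : ℝ) ^ (1 / 20 : ℝ) * (y : ℝ) ^ (-(1 / 20 : ℝ)) * ((2 : ℝ) ^ (-(28 / 1000 : ℝ))) ^ i := by
  have hy0 : (0 : ℝ) < y := by exact_mod_cast hy
  have h1 : (y : ℝ) ≤ (2 : ℝ) ^ (((i : ℝ) + 1)) := by
    have h2 : (y : ℝ) ≤ (2 : ℝ) ^ (i + 1) := by exact_mod_cast h.le
    rw [← Real.rpow_natCast] at h2
    push_cast at h2
    exact h2
  have h3 : (2 : ℝ) ^ (-((i : ℝ) + 1) / 20) ≤ (y : ℝ) ^ (-(1 / 20 : ℝ)) := by
    rw [Real.rpow_neg hy0.le, neg_div, Real.rpow_neg (by norm_num)]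
    apply inv_anti₀ (Real.rpow_pos_of_pos hy0 _)
    calc (y : ℝ) ^ (1 / 20 : ℝ) ≤ ((2 : ℝ) ^ ((i : ℝ) + 1)) ^ (1 / 20 : ℝ) :=
          Real.rpow_le_rpow hy0.le h1 (by norm_num)
      _ = (2 : ℝ) ^ (((i : ℝ) + 1) / 20) := by
          rw [← Real.rpow_mul (by norm_num)]
          congr 1
          ring
  have h4 : (2 : ℝ) ^ (11 * (i : ℝ) / 100) * (2 : ℝ) ^ (-(47 * (i : ℝ) / 250)) =
      (2 : ℝ) ^ (1 / 20 : ℝ) * (2 : ℝ) ^ (-((i : ℝ) + 1) / 20) * ((2 : ℝ) ^ (-(28 / 1000 : ℝ))) ^ i := by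
    rw [← Real.rpow_natCast, ← Real.rpow_mul (by norm_num), ← Real.rpow_add (by norm_num),
      ← Real.rpow_add (by norm_num), ← Real.rpow_add (by norm_num)]
    congr 1
    ring
  rw [h4]
  gcongr

theorem DI_b (i u : ℕ) (h : (i : ℝ) ≤ 2 * u / 25) :
    (2 : ℝ) ^ (11 * (i : ℝ) / 100) * (8 ^ i * (2 : ℝ) ^ (158 * (u : ℝ) / 100)) ≤ 4 ^ u * (1 / 2) ^ i := by
  have h1 : (8 : ℝ) ^ i = (2 : ℝ) ^ (3 * (i : ℝ)) := by
    rw [show (8 : ℝ) = 2 ^ (3 : ℝ) by norm_num, ← Real.rpow_natCast, ← Real.rpow_mul (by norm_num)]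
  have h2 : (4 : ℝ) ^ u = (2 : ℝ) ^ (2 * (u : ℝ)) := by
    rw [show (4 : ℝ) = 2 ^ (2 : ℝ) by norm_num, ← Real.rpow_natCast, ← Real.rpow_mul (by norm_num)]
  have h3 : (1 / 2 : ℝ) ^ i = (2 : ℝ) ^ (-(i : ℝ)) := by
    rw [Real.rpow_neg (by norm_num), Real.rpow_natCast, one_div, inv_pow]
  rw [h1, h2, h3, ← Real.rpow_add (by norm_num), ← Real.rpow_add (by norm_num),
    ← Real.rpow_add (by norm_num)]
  apply Real.rpow_le_rpow_of_exponent_le (by norm_num)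
  have h4 : (0 : ℝ) ≤ u := Nat.cast_nonneg u
  have h5 : (0 : ℝ) ≤ i := Nat.cast_nonneg i
  nlinarith

theorem DI (hDF : DF_stmt) (hDG : DG_stmt) : DI_stmt := by
  obtain ⟨C₁, y₁, hC₁, hF⟩ := hDF
  obtain ⟨K₀, hK₀, hG⟩ := hDG
  refine ⟨K₀, hK₀, fun K hK => ?_⟩
  obtain ⟨C₂, hC₂, hG⟩ := hG K hK
  have hK1 : 1 ≤ K := hK₀.trans hK
  set g : ℕ → ℝ := fun i => 32 * C₁ * K * (1 / (i : ℝ) ^ (17 / 16 : ℝ)) + C₂ * (1 / (i : ℝ) ^ 2) +
    (C₁ + C₂) * (1 / 2) ^ i with hg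
  set f : ℕ → ℝ := fun i => (C₁ + C₂) * (2 : ℝ) ^ (1 / 20 : ℝ) * ((2 : ℝ) ^ (-(28 / 1000 : ℝ))) ^ i with hf
  have hgs : Summable g := by
    refine ((Summable.mul_left _ ?_).add (Summable.mul_left _ ?_)).add (Summable.mul_left _ ?_)
    · exact Real.summable_one_div_nat_rpow.2 (by norm_num)
    · exact Real.summable_one_div_nat_pow.2 (by norm_num)
    · exact summable_geometric_of_lt_one (by norm_num) (by norm_num)
  have hfs : Summable f := by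
    refine Summable.mul_left _ ?_
    refine summable_geometric_of_lt_one (by positivity) ?_
    exact Real.rpow_lt_one_of_one_lt_of_neg (by norm_num) (by norm_num)
  have hC0 : 0 ≤ C₁ + C₂ := by linarith
  have hg0 : ∀ i, 0 ≤ g i := fun i => by simp only [hg]; positivity
  have hf0 : ∀ i, 0 ≤ f i := fun i => by simp only [hf]; positivity
  refine ⟨1 + ∑' i, g i + ∑' i, f i, max y₁ 32, ?_, ?_, ?_⟩
  · have h1 : 0 ≤ ∑' i, g i := tsum_nonneg hg0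
    have h2 : 0 ≤ ∑' i, f i := tsum_nonneg hf0
    linarith
  · exact (by norm_num : 5 ≤ 32).trans (le_max_right _ _)
  intro b y u s Φ hM hy hP hI
  have hy1 : y₁ ≤ y := (le_max_left _ _).trans hy
  have hy2 : 32 ≤ y := (le_max_right _ _).trans hy
  have hΦ : 0 ≤ Φ u := by have := hP.two u; linarith
  have hy0 : (0 : ℝ) < y := by
    have : 0 < y := by omega
    exact_mod_cast this
  have hyr : 0 < (y : ℝ) ^ (-(1 / 20 : ℝ)) := Real.rpow_pos_of_pos hy0 _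
  have hs7 : 0 ≤ s ^ 7 := by have := hM.s1; positivity
  have key : ∀ i ∈ range (2 * u / 25 + 1), ((SI b y u s i).card : ℝ) * s ^ 7 ≤
      4 ^ u * g i + 4 ^ u * ((y : ℝ) ^ (-(1 / 20 : ℝ)) * Φ u) * f i := by
    intro i hi
    rw [Finset.mem_range] at hi
    by_cases hne : (SI b y u s i).Nonempty
    · have h1 := DI_empty b y u i s hne
      have h5 : 5 ≤ i := by
        by_contra hc
        have h2 : 2 ^ (i + 1) ≤ 2 ^ 5 := Nat.pow_le_pow_right (by norm_num) (by omega)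
        omega
      have hiu : i ≤ 2 * u / 25 := by omega
      have hiu' : (i : ℝ) ≤ 2 * u / 25 := by
        have h2 : 25 * i ≤ 2 * u := by omega
        have h3 : (25 : ℝ) * i ≤ 2 * u := by exact_mod_cast h2
        linarith
      have e1 := hF b y u K i s Φ hM hy1 hP hI hK1 h5 hiu
      have e2 := hG b y u i s Φ hM hy2 hP hI h5 hiu
      have e3 : (((SI b y u s i).filter (fun p => (prt (j0 K i) p.1 : ℝ) ≤ (2 : ℝ) ^ ((i : ℝ) / 20))).card : ℝ) +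
          (((SI b y u s i).filter (fun p => ¬ (prt (j0 K i) p.1 : ℝ) ≤ (2 : ℝ) ^ ((i : ℝ) / 20))).card : ℝ) =
          ((SI b y u s i).card : ℝ) := by
        rw [← Nat.cast_add, DI_split]
      have e4 := DI_j0 K i hK1 (by omega)
      have e5 := DI_a i y (by omega) h1
      have e6 := DI_b i u hiu'
      have hE : (0 : ℝ) ≤ Φ u * 4 ^ u * (2 : ℝ) ^ (-(47 * (i : ℝ) / 250)) +
          8 ^ i * (2 : ℝ) ^ (158 * (u : ℝ) / 100) := by positivity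
      have e7 : (1 : ℝ) ≤ (2 : ℝ) ^ (11 * (i : ℝ) / 100) :=
        Real.one_le_rpow (by norm_num) (by positivity)
      have e8 : C₂ * (Φ u * 4 ^ u * (2 : ℝ) ^ (-(47 * (i : ℝ) / 250)) +
          8 ^ i * (2 : ℝ) ^ (158 * (u : ℝ) / 100)) ≤ C₂ * (2 : ℝ) ^ (11 * (i : ℝ) / 100) *
          (Φ u * 4 ^ u * (2 : ℝ) ^ (-(47 * (i : ℝ) / 250)) +
          8 ^ i * (2 : ℝ) ^ (158 * (u : ℝ) / 100)) := by
        apply mul_le_mul_of_nonneg_right _ hE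
        nlinarith
      have e9 : (2 : ℝ) ^ (11 * (i : ℝ) / 100) * (Φ u * 4 ^ u * (2 : ℝ) ^ (-(47 * (i : ℝ) / 250)) +
          8 ^ i * (2 : ℝ) ^ (158 * (u : ℝ) / 100)) ≤
          Φ u * 4 ^ u * ((2 : ℝ) ^ (1 / 20 : ℝ) * (y : ℝ) ^ (-(1 / 20 : ℝ)) *
            ((2 : ℝ) ^ (-(28 / 1000 : ℝ))) ^ i) + 4 ^ u * (1 / 2) ^ i := by
        have e10 := mul_le_mul_of_nonneg_left e5 (by positivity : (0 : ℝ) ≤ Φ u * 4 ^ u)
        nlinarith
      have e11 : C₁ * 4 ^ u / (((j0 K i : ℕ) + 1 : ℝ) * (i : ℝ) ^ (1 / 8 : ℝ)) ≤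
          4 ^ u * (32 * C₁ * K * (1 / (i : ℝ) ^ (17 / 16 : ℝ))) := by
        have e12 := mul_le_mul_of_nonneg_left e4 (by positivity : (0 : ℝ) ≤ C₁ * 4 ^ u)
        rw [mul_one_div] at e12
        refine e12.trans (le_of_eq ?_)
        ring
      have e13 := mul_le_mul_of_nonneg_left e9 hC0
      simp only [hg, hf]
      rw [← e3, add_mul]
      have e14 : C₂ * 4 ^ u / (i : ℝ) ^ 2 = 4 ^ u * (C₂ * (1 / (i : ℝ) ^ 2)) := by ring
      rw [e14] at e2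
      nlinarith
    · rw [Finset.not_nonempty_iff_eq_empty] at hne
      rw [hne, Finset.card_empty, Nat.cast_zero, zero_mul]
      have h1 := hg0 i
      have h2 := hf0 i
      positivity
  rw [Finset.sum_mul]
  refine (Finset.sum_le_sum key).trans ?_
  rw [Finset.sum_add_distrib, ← Finset.mul_sum, ← Finset.mul_sum]
  have h1 := hgs.sum_le_tsum (range (2 * u / 25 + 1)) (fun i _ => hg0 i)
  have h2 := hfs.sum_le_tsum (range (2 * u / 25 + 1)) (fun i _ => hf0 i)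
  have h3 : 0 ≤ ∑' i, g i := tsum_nonneg hg0
  have h4 : 0 ≤ ∑' i, f i := tsum_nonneg hf0
  have h5 : (0 : ℝ) ≤ (y : ℝ) ^ (-(1 / 20 : ℝ)) * Φ u := by positivity
  have h6 : (0 : ℝ) < 4 ^ u := by positivity
  have h7 : ∑ i ∈ range (2 * u / 25 + 1), g i ≤ 1 + ∑' i, g i + ∑' i, f i := by linarith
  have h8 : ∑ i ∈ range (2 * u / 25 + 1), f i ≤ 1 + ∑' i, g i + ∑' i, f i := by linarith
  have h9 := mul_le_mul_of_nonneg_left h7 h6.le
  have h10 := mul_le_mul_of_nonneg_left h8 (mul_nonneg h6.le h5)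
  refine (add_le_add h9 h10).trans (le_of_eq ?_)
  ring

end Pool.Agent.RL
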