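import Pool.Agent.helper88.RL.SpecL
import Pool.Agent.helper88.RL.Cop
import Pool.Agent.helper83.RL.NRV
import Pool.Agent.helper8.FT.P1

set_option autoImplicit false

namespace Pool.Agent.RL

open Finset Pool.Agent.helper3.FT Pool.Agent.T6 Pool.Agent.RF

lemma EA_pw_pos (d : ℕ) : 1 ≤ pw d := by
  unfold pw
  refine Finset.one_le_prod' (fun p hp => ?_)
  have : p.Prime := Nat.prime_of_mem_primeFactors (Finset.mem_filter.1 hp).1
  exact Nat.one_le_pow _ _ this.pos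

lemma EA_dvd_pw {d p : ℕ} (hp : p.Prime) (h : p ∣ pw d) : p ∣ d ∧ 2 ≤ d.factorization p ∧ p ^ 2 ∣ pw d := by
  unfold pw at h ⊢
  obtain ⟨q, hq, hpq⟩ := (Prime.dvd_finsetProd_iff hp.prime _).1 h
  have hq' := Finset.mem_filter.1 hq
  have hqp : q.Prime := Nat.prime_of_mem_primeFactors hq'.1
  have : p ∣ q := hp.dvd_of_dvd_pow hpq
  have e : p = q := (Nat.prime_dvd_prime_iff_eq hp hqp).1 this
  subst e
  refine ⟨Nat.dvd_of_mem_primeFactors hq'.1, hq'.2, ?_⟩
  exact (pow_dvd_pow p hq'.2).trans (Finset.dvd_prod_of_mem (fun p => p ^ d.factorization p) hq)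

/-- the primes of `d` outside the powerful part -/
def EA_A (d : ℕ) : Finset ℕ := d.primeFactors.filter (fun p => ¬ 2 ≤ d.factorization p)

lemma EA_decomp {d : ℕ} (hd : 1 ≤ d) : d = pw d * ∏ p ∈ EA_A d, p := by
  have h1 : ∏ p ∈ EA_A d, p = ∏ p ∈ EA_A d, p ^ d.factorization p := by
    refine Finset.prod_congr rfl fun p hp => ?_
    have hp' := Finset.mem_filter.1 hp
    have h2 : 1 ≤ d.factorization p :=
      (Nat.prime_of_mem_primeFactors hp'.1).factorization_pos_of_dvd (by omega) (Nat.dvd_of_mem_primeFactors hp'.1)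
    have h3 : d.factorization p = 1 := by have := hp'.2; omega
    rw [h3, pow_one]
  rw [h1, pw, EA_A, Finset.prod_filter_mul_prod_filter_not]
  exact (Nat.prod_factorization_pow_eq_self (by omega : d ≠ 0)).symm

lemma EA_omega (d : ℕ) : d.primeFactors.card ≤ (pw d).primeFactors.card + (EA_A d).card := by
  have h1 : d.primeFactors.card = (d.primeFactors.filter (fun p => 2 ≤ d.factorization p)).card + (EA_A d).card := by
    rw [EA_A, Finset.card_filter_add_card_filter_not]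
  rw [h1]
  gcongr
  intro p hp
  have hp' := Finset.mem_filter.1 hp
  have hpp := Nat.prime_of_mem_primeFactors hp'.1
  rw [Nat.mem_primeFactors]
  refine ⟨hpp, ?_, by have := EA_pw_pos d; omega⟩
  have h2 : p ^ d.factorization p ∣ pw d := Finset.dvd_prod_of_mem (fun p => p ^ d.factorization p) hp
  exact (dvd_pow_self p (by have := hp'.2; omega)).trans h2

lemma EA_core (hNRT : NRT_stmt) (y m : ℕ) (v : V4) (T : Finset (ℕ × ℕ))
    (hfin : {p : ℕ | PV y v p ∧ ¬ p ∣ m ∧ 1 ≤ Nat.log 2 p}.Finite)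
    (hT : ∀ p ∈ T, 1 ≤ p.1 ∧ Rgh 5 p.1 ∧ Pm p.1 v ∧ p.2 < p.1 ∧ Cop p.2 p.1 ∧ InG p.1 p.2 v ∧ pw p.1 = m ∧
      ∀ q : ℕ, q.Prime → q ∣ p.1 → PV y v q) :
    T.card ≤ 3 ^ m.primeFactors.card * 4 ^ wj y 1 m v := by
  classical
  set W := hfin.toFinset with hW
  have hWc : W.card = wj y 1 m v := by
    rw [hW, wj, Set.ncard_eq_toFinset_card _ hfin]
  set D := T.image Prod.fst with hD
  have hDA : ∀ d ∈ D, EA_A d ∈ W.powerset := by
    intro d hd
    obtain ⟨p, hp, rfl⟩ := Finset.mem_image.1 hd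
    obtain ⟨h1, h2, h3, h4, h5, h6, h7, h8⟩ := hT p hp
    rw [Finset.mem_powerset]
    intro q hq
    have hq' := Finset.mem_filter.1 hq
    have hqp := Nat.prime_of_mem_primeFactors hq'.1
    have hqd := Nat.dvd_of_mem_primeFactors hq'.1
    rw [hW, Set.Finite.mem_toFinset]
    refine ⟨h8 q hqp hqd, ?_, ?_⟩
    · intro hqm
      rw [← h7] at hqm
      exact hq'.2 (EA_dvd_pw hqp hqm).2.1
    · exact Nat.log_pos (by norm_num) hqp.two_le
  have hinj : Set.InjOn EA_A (D : Set ℕ) := by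
    intro d hd d' hd' he
    obtain ⟨p, hp, rfl⟩ := Finset.mem_image.1 (Finset.mem_coe.1 hd)
    obtain ⟨p', hp', rfl⟩ := Finset.mem_image.1 (Finset.mem_coe.1 hd')
    obtain ⟨h1, _, _, _, _, _, h7, _⟩ := hT p hp
    obtain ⟨h1', _, _, _, _, _, h7', _⟩ := hT p' hp'
    rw [EA_decomp h1, EA_decomp h1', h7, h7', he]
  have hcount : ∀ d ∈ D, (T.filter (fun p => p.1 = d)).card ≤ 3 ^ m.primeFactors.card * 3 ^ (EA_A d).card := by
    intro d hd
    obtain ⟨p0, hp0, hp0d⟩ := Finset.mem_image.1 hd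
    obtain ⟨h1, h2, h3, h4, h5, h6, h7, h8⟩ := hT p0 hp0
    rw [hp0d] at h1 h2 h3 h7
    have hle : (T.filter (fun p => p.1 = d)).card ≤ ((range d).filter (fun r => Cop r d ∧ InG d r v)).card := by
      refine Finset.card_le_card_of_injOn Prod.snd ?_ ?_
      · intro p hp
        have hp' := Finset.mem_filter.1 (Finset.mem_coe.1 hp)
        obtain ⟨g1, g2, g3, g4, g5, g6, g7, g8⟩ := hT p hp'.1
        rw [hp'.2] at g4 g5 g6
        exact Finset.mem_coe.2 (Finset.mem_filter.2 ⟨Finset.mem_range.2 g4, g5, g6⟩)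
      · intro p hp p' hp' he
        have a := (Finset.mem_filter.1 (Finset.mem_coe.1 hp)).2
        have a' := (Finset.mem_filter.1 (Finset.mem_coe.1 hp')).2
        exact Prod.ext (a.trans a'.symm) he
    refine hle.trans ((hNRT d v h1 h2 h3).trans ?_)
    rw [← pow_add]
    refine Nat.pow_le_pow_right (by norm_num) ?_
    have := EA_omega d
    rw [h7] at this
    exact this
  calc T.card = ∑ d ∈ D, (T.filter (fun p => p.1 = d)).card := Finset.card_eq_sum_card_image _ _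
    _ ≤ ∑ d ∈ D, 3 ^ m.primeFactors.card * 3 ^ (EA_A d).card := Finset.sum_le_sum hcount
    _ = 3 ^ m.primeFactors.card * ∑ d ∈ D, 3 ^ (EA_A d).card := by rw [Finset.mul_sum]
    _ = 3 ^ m.primeFactors.card * ∑ S ∈ D.image EA_A, 3 ^ S.card := by
        rw [Finset.sum_image hinj]
    _ ≤ 3 ^ m.primeFactors.card * ∑ S ∈ W.powerset, 3 ^ S.card := by
        gcongr
        intro S hS
        obtain ⟨d, hd, rfl⟩ := Finset.mem_image.1 hS
        exact hDA d hd
    _ = 3 ^ m.primeFactors.card * 4 ^ W.card := by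
        congr 1
        have h := Finset.sum_pow_mul_eq_add_pow (3 : ℕ) 1 W
        simp only [one_pow, mul_one] at h
        rw [h]
    _ = _ := by rw [hWc]

lemma EA_InG {d m r : ℕ} {v : V4} (hmd : m ∣ d) (h : InG d r v) : InG m (r % m) v :=
  InG_congr (Nat.mod_modEq r m).symm (InG_dvd hmd h)

lemma EA_finite {y m : ℕ} {v : V4} (hy : 5 ≤ y) (hv : RV v ≠ 0) :
    {p : ℕ | PV y v p ∧ ¬ p ∣ m ∧ 1 ≤ Nat.log 2 p}.Finite := by
  refine (Set.finite_le_nat (RV v).natAbs).subset ?_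
  intro p hp
  obtain ⟨⟨hpp, hyp, r, hr, hG⟩, _, _⟩ := hp
  have hc : Nat.Coprime p 5 := (Nat.coprime_primes hpp (by norm_num)).2 (by omega)
  have h1 : (p : ℤ) ∣ RV v := NRV.1 p r v hc hG
  have h2 : p ∣ (RV v).natAbs := by
    have := Int.natAbs_dvd_natAbs.2 h1
    simpa using this
  exact Nat.le_of_dvd (Int.natAbs_pos.2 hv) h2

theorem EA (hML : ML_stmt) (hVVP : VVP_stmt) (hNRT : NRT_stmt) (hC3 : C3_stmt) : EA_stmt := by
  classical
  obtain ⟨C, C₁, hC, hml⟩ := hML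
  obtain ⟨C3, hC3', -, hc3⟩ := hC3
  refine ⟨C * C3, C₁, one_le_mul_of_one_le_of_one_le hC hC3', ?_⟩
  intro b y u s hMR hy hu hs
  have hs1 : 1 ≤ s := hMR.s1
  have hs0 : 0 < s := lt_of_lt_of_le one_pos hs1
  have hV := hVVP b y u s hMR.b1 hy hs1
  set T := SB b y u s with hT
  -- properties of the members
  have hmem : ∀ p ∈ T, p ∈ SU b y u s ∧ Pm p.1 (vv b p.1 p.2) ∧ (pw p.1 : ℝ) ≤ (2 : ℝ) ^ ((u : ℝ) / 25) ∧
      1 ≤ p.1 ∧ p.2 < p.1 ∧ Cop p.2 p.1 ∧ Rgh y p.1 := by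
    intro p hp
    have h1 := Finset.mem_filter.1 hp
    have h2 := Finset.mem_filter.1 h1.1
    have h3 := Finset.mem_filter.1 h2.1
    exact ⟨h1.1, h1.2.1, not_lt.1 h1.2.2, by have := h3.2.1; omega, h3.2.1, h3.2.2.1, h3.2.2.2⟩
  set M := T.image (fun p => pw p.1) with hM
  have hfib : ∀ m ∈ M, ((T.filter (fun p => pw p.1 = m)).card : ℝ) ≤
      (m : ℝ) * (3 ^ m.primeFactors.card * (C * ((4 ^ u / s ^ 8) / (m : ℝ) ^ 2) * ((u : ℝ) / 1) ^ C₁)) := by
    intro m hm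
    obtain ⟨p0, hp0, hp0m⟩ := Finset.mem_image.1 hm
    have hm1 : 1 ≤ m := by rw [← hp0m]; exact EA_pw_pos _
    have hRm : Rgh y m := by
      intro q hq hqm
      rw [← hp0m] at hqm
      exact (hmem p0 hp0).2.2.2.2.2.2 q hq (EA_dvd_pw hq hqm).1
    have hmu : (m : ℝ) ≤ (2 : ℝ) ^ ((u : ℝ) / 10) := by
      rw [← hp0m]
      refine (hmem p0 hp0).2.2.1.trans ?_
      apply Real.rpow_le_rpow_of_exponent_le (by norm_num)
      have : (0:ℝ) ≤ u := by positivity
      linarith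
    have hmaps : ∀ p ∈ T.filter (fun p => pw p.1 = m), p.2 % m ∈ range m := fun p _ =>
      Finset.mem_range.2 (Nat.mod_lt _ hm1)
    have h1 : (T.filter (fun p => pw p.1 = m)).card =
        ∑ ρ ∈ range m, ((T.filter (fun p => pw p.1 = m)).filter (fun p => p.2 % m = ρ)).card :=
      Finset.card_eq_sum_card_fiberwise hmaps
    rw [h1]
    push_cast
    have h2 : ∀ ρ ∈ range m, (((T.filter (fun p => pw p.1 = m)).filter (fun p => p.2 % m = ρ)).card : ℝ) ≤
        3 ^ m.primeFactors.card * (C * ((4 ^ u / s ^ 8) / (m : ℝ) ^ 2) * ((u : ℝ) / 1) ^ C₁) := by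
      intro ρ hρ
      set T' := (T.filter (fun p => pw p.1 = m)).filter (fun p => p.2 % m = ρ) with hT'
      have hT'mem : ∀ p ∈ T', p ∈ T ∧ pw p.1 = m ∧ p.2 % m = ρ := by
        intro p hp
        have g1 := Finset.mem_filter.1 hp
        have g2 := Finset.mem_filter.1 g1.1
        exact ⟨g2.1, g2.2, g1.2⟩
      set F := T'.image (fun p => vv b p.1 p.2) with hF
      have hFprop : ∀ v ∈ F, RV v ≠ 0 ∧ InG m ρ v ∧ nrm b v ≤ √(2 ^ u) / s ^ 2 := by
        intro v hv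
        obtain ⟨p, hp, rfl⟩ := Finset.mem_image.1 hv
        obtain ⟨g1, g2, g3⟩ := hT'mem p hp
        obtain ⟨a1, a2, a3, a4, a5, a6, a7⟩ := hV p (hmem p g1).1
        refine ⟨a3, ?_, a4⟩
        rw [← g3]
        refine EA_InG ?_ a1
        rw [← g2]
        exact ⟨_, EA_decomp (hmem p g1).2.2.2.1⟩
      have hcard : (T'.card : ℝ) ≤ ∑ v ∈ F, 3 ^ m.primeFactors.card * (4 : ℝ) ^ wj y 1 m v := by
        have g1 : T'.card = ∑ v ∈ F, (T'.filter (fun p => vv b p.1 p.2 = v)).card :=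
          Finset.card_eq_sum_card_image _ _
        rw [g1]
        push_cast
        refine Finset.sum_le_sum fun v hv => ?_
        have g2 := EA_core hNRT y m v (T'.filter (fun p => vv b p.1 p.2 = v)) (EA_finite hy (hFprop v hv).1) ?_
        · exact_mod_cast g2
        · intro p hp
          have k1 := Finset.mem_filter.1 hp
          obtain ⟨k2, k3, k4⟩ := hT'mem p k1.1
          obtain ⟨l1, l2, l3, l4, l5, l6, l7⟩ := hmem p k2
          obtain ⟨a1, a2, a3, a4, a5, a6, a7⟩ := hV p l1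
          rw [k1.2] at a1 a6 l2
          exact ⟨l4, fun q hq hqd => lt_of_le_of_lt hy (l7 q hq hqd), l2, l5, l6, a1, k3, a6⟩
      refine hcard.trans ?_
      rw [← Finset.mul_sum]
      have := hml b u s hMR y m ρ 1 F hy hm1 hRm hmu le_rfl hu hFprop
      have e1 : ((1 : ℕ) : ℝ) = 1 := by norm_num
      rw [e1] at this
      gcongr
    refine (Finset.sum_le_sum h2).trans (le_of_eq ?_)
    rw [Finset.sum_const, Finset.card_range, nsmul_eq_mul]
  have hcardT : (T.card : ℝ) = ∑ m ∈ M, ((T.filter (fun p => pw p.1 = m)).card : ℝ) := by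
    have : T.card = ∑ m ∈ M, (T.filter (fun p => pw p.1 = m)).card := Finset.card_eq_sum_card_image _ _
    rw [this]; push_cast; rfl
  have hsum3 := hc3 M (by
    intro m hm
    obtain ⟨p0, hp0, hp0m⟩ := Finset.mem_image.1 hm
    refine ⟨by rw [← hp0m]; exact EA_pw_pos _, fun q hq hqm => ?_⟩
    rw [← hp0m] at hqm ⊢
    exact (EA_dvd_pw hq hqm).2.2)
  have huC : (u : ℝ) ^ C₁ ≤ s := (pow_le_pow_left₀ (by positivity) (by linarith) C₁).trans hs
  have hterm : ∀ m ∈ M, (m : ℝ) * (3 ^ m.primeFactors.card * (C * ((4 ^ u / s ^ 8) / (m : ℝ) ^ 2) * ((u : ℝ) / 1) ^ C₁)) ≤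
      (C * (4 ^ u / s ^ 8) * (u : ℝ) ^ C₁) * ((4 : ℝ) ^ m.primeFactors.card / m) := by
    intro m hm
    obtain ⟨p0, hp0, hp0m⟩ := Finset.mem_image.1 hm
    have hm0 : (0:ℝ) < m := by
      have : 1 ≤ m := by rw [← hp0m]; exact EA_pw_pos _
      exact_mod_cast this
    have e1 : (m : ℝ) * (3 ^ m.primeFactors.card * (C * ((4 ^ u / s ^ 8) / (m : ℝ) ^ 2) * ((u : ℝ) / 1) ^ C₁)) =
        (C * (4 ^ u / s ^ 8) * (u : ℝ) ^ C₁) * ((3 : ℝ) ^ m.primeFactors.card / m) := by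
      rw [div_one]; field_simp
    rw [e1]
    gcongr
    norm_num
  calc (T.card : ℝ) * s ^ 7 = (∑ m ∈ M, ((T.filter (fun p => pw p.1 = m)).card : ℝ)) * s ^ 7 := by rw [hcardT]
    _ ≤ (∑ m ∈ M, (C * (4 ^ u / s ^ 8) * (u : ℝ) ^ C₁) * ((4 : ℝ) ^ m.primeFactors.card / m)) * s ^ 7 := by
        gcongr with m hm
        exact (hfib m hm).trans (hterm m hm)
    _ = (C * (4 ^ u / s ^ 8) * (u : ℝ) ^ C₁) * (∑ m ∈ M, (4 : ℝ) ^ m.primeFactors.card / m) * s ^ 7 := by
        rw [← Finset.mul_sum]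
    _ ≤ (C * (4 ^ u / s ^ 8) * s) * C3 * s ^ 7 := by gcongr
    _ = C * C3 * 4 ^ u := by field_simp

end Pool.Agent.RL
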