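import Pool.Agent.helper88.RL.SpecL
import Pool.Agent.helper88.RL.Cop

set_option autoImplicit false

namespace Pool.Agent.RL

open Finset Pool.Agent.helper3.FT Pool.Agent.T6 Pool.Agent.RF

theorem FL_y (C : ℝ) (hC : 1 ≤ C) (y₁ : ℕ) : ∃ y : ℕ, y₁ ≤ y ∧ C * (y : ℝ) ^ (-(1 / 20 : ℝ)) ≤ 1 / 2 := by
  refine ⟨max y₁ ⌈(2 * C) ^ (20 : ℕ)⌉₊, le_max_left _ _, ?_⟩
  have h1 : (2 * C) ^ (20 : ℕ) ≤ ((max y₁ ⌈(2 * C) ^ (20 : ℕ)⌉₊ : ℕ) : ℝ) := by
    refine (Nat.le_ceil _).trans ?_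
    exact_mod_cast le_max_right _ _
  have h0 : (0 : ℝ) < (2 * C) ^ (20 : ℕ) := by positivity
  generalize ((max y₁ ⌈(2 * C) ^ (20 : ℕ)⌉₊ : ℕ) : ℝ) = Y at h1
  have hY : 0 < Y := lt_of_lt_of_le h0 h1
  have h2 : 2 * C ≤ Y ^ ((1 / 20 : ℝ)) := by
    have h3 : ((2 * C) ^ (20 : ℕ)) ^ ((1 / 20 : ℝ)) ≤ Y ^ ((1 / 20 : ℝ)) :=
      Real.rpow_le_rpow h0.le h1 (by norm_num)
    have h4 : ((2 * C) ^ (20 : ℕ)) ^ ((1 / 20 : ℝ)) = 2 * C := by
      rw [← Real.rpow_natCast, ← Real.rpow_mul (by positivity)]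
      norm_num
    rw [h4] at h3
    exact h3
  rw [Real.rpow_neg hY.le, ← div_eq_mul_inv, div_le_iff₀ (by positivity)]
  linarith

theorem FL_sub (b : ℝ) (y u : ℕ) (s : ℝ) : SU b y u s ⊆ PR y u := by
  intro x hx
  simp only [SU, Finset.mem_filter] at hx
  exact hx.1

theorem FL (hFM : FM_stmt) (hC0 : C0_stmt) (hC2 : C2_stmt) : FL_stmt := by
  obtain ⟨C, y₁, hC, hy₁, hFM⟩ := hFM
  obtain ⟨C', hC', hC2⟩ := hC2 (1 / 1000) (by norm_num)
  obtain ⟨hPR, hC0⟩ := hC0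
  obtain ⟨y, hyy, hy⟩ := FL_y C hC y₁
  refine ⟨y, 200, 2 * C + 2, 2 + C', 1 / 1000, by omega, by linarith, by linarith, by norm_num, by norm_num, ?_⟩
  intro b hb
  have hb0 : 0 < b := by linarith
  have hPot : Pot (fun u : ℕ => 2 * C + 2 + (2 + C') * (b ^ 200 * (2 : ℝ) ^ (-(1 / 1000 * (u : ℝ))))) := by
    constructor
    · intro w
      have : 0 ≤ (2 + C') * (b ^ 200 * (2 : ℝ) ^ (-(1 / 1000 * (w : ℝ)))) := by positivity
      linarith
    · intro w u hwu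
      have hcast : (((u - w : ℕ) : ℝ)) = (u : ℝ) - w := by
        rw [Nat.cast_sub hwu]
      have hge : (1 : ℝ) ≤ (2 : ℝ) ^ (((u - w : ℕ) : ℝ) / 100) :=
        Real.one_le_rpow (by norm_num) (by positivity)
      have h1 : (2 : ℝ) ^ (-(1 / 1000 * (w : ℝ))) ≤
          (2 : ℝ) ^ (((u - w : ℕ) : ℝ) / 100) * (2 : ℝ) ^ (-(1 / 1000 * (u : ℝ))) := by
        rw [← Real.rpow_add (by norm_num)]
        refine Real.rpow_le_rpow_of_exponent_le (by norm_num) ?_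
        rw [hcast]
        have : (w : ℝ) ≤ u := by exact_mod_cast hwu
        linarith
      have h2 : (2 + C') * (b ^ 200 * (2 : ℝ) ^ (-(1 / 1000 * (w : ℝ)))) ≤
          (2 : ℝ) ^ (((u - w : ℕ) : ℝ) / 100) * ((2 + C') * (b ^ 200 * (2 : ℝ) ^ (-(1 / 1000 * (u : ℝ))))) := by
        calc (2 + C') * (b ^ 200 * (2 : ℝ) ^ (-(1 / 1000 * (w : ℝ))))
            ≤ (2 + C') * (b ^ 200 * ((2 : ℝ) ^ (((u - w : ℕ) : ℝ) / 100) * (2 : ℝ) ^ (-(1 / 1000 * (u : ℝ))))) := by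
              gcongr
          _ = _ := by ring
      have h3 : 2 * C + 2 ≤ (2 : ℝ) ^ (((u - w : ℕ) : ℝ) / 100) * (2 * C + 2) :=
        le_mul_of_one_le_left (by linarith) hge
      calc 2 * C + 2 + (2 + C') * (b ^ 200 * (2 : ℝ) ^ (-(1 / 1000 * (w : ℝ))))
          ≤ (2 : ℝ) ^ (((u - w : ℕ) : ℝ) / 100) * (2 * C + 2) +
            (2 : ℝ) ^ (((u - w : ℕ) : ℝ) / 100) * ((2 + C') * (b ^ 200 * (2 : ℝ) ^ (-(1 / 1000 * (u : ℝ))))) :=
            add_le_add h3 h2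
        _ = _ := by ring
  intro u
  induction u using Nat.strong_induction_on with
  | _ u ih =>
    intro s hs
    have hIH : IH b y (fun u : ℕ => 2 * C + 2 + (2 + C') * (b ^ 200 * (2 : ℝ) ^ (-(1 / 1000 * (u : ℝ))))) u := by
      intro w hw s' hs'
      exact ih w hw s' hs'
    have h4 : (0 : ℝ) < 4 ^ u := by positivity
    have hD0 : 0 ≤ b ^ 200 * (2 : ℝ) ^ (-(1 / 1000 * (u : ℝ))) := by positivity
    have hu0 : (0 : ℝ) ≤ (u : ℝ) := Nat.cast_nonneg u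
    rcases lt_or_ge s 1 with hs1 | hs1
    · have hc : ((SU b y u s).card : ℝ) ≤ 2 * 4 ^ u := by
        refine le_trans ?_ (hPR y u)
        have : (SU b y u s).card ≤ (PR y u).card := Finset.card_le_card (FL_sub b y u s)
        exact_mod_cast this
      have hs7 : s ^ 7 ≤ 1 := pow_le_one₀ hs.le hs1.le
      calc ((SU b y u s).card : ℝ) * s ^ 7 ≤ ((SU b y u s).card : ℝ) * 1 :=
            mul_le_mul_of_nonneg_left hs7 (Nat.cast_nonneg _)
        _ ≤ 2 * 4 ^ u := by rw [mul_one]; exact hc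
        _ ≤ (2 * C + 2 + (2 + C') * (b ^ 200 * (2 : ℝ) ^ (-(1 / 1000 * (u : ℝ))))) * 4 ^ u := by
            refine mul_le_mul_of_nonneg_right ?_ h4.le
            have : 0 ≤ (2 + C') * (b ^ 200 * (2 : ℝ) ^ (-(1 / 1000 * (u : ℝ)))) := by positivity
            linarith
    · rcases lt_or_ge ((2 : ℝ) ^ ((u : ℝ) / 100)) b with hb1 | hb1
      · have h5 := hC0 b y u s hb hs
        have h6 : (2 : ℝ) ^ (7 * (u : ℝ) / 4) * b ^ 18 ≤ b ^ 200 * (2 : ℝ) ^ (-(1 / 1000 * (u : ℝ))) := by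
          have h7 : ((2 : ℝ) ^ ((u : ℝ) / 100)) ^ (182 : ℕ) ≤ b ^ 182 :=
            pow_le_pow_left₀ (by positivity) hb1.le 182
          have h8 : ((2 : ℝ) ^ ((u : ℝ) / 100)) ^ (182 : ℕ) = (2 : ℝ) ^ (182 * (u : ℝ) / 100) := by
            rw [← Real.rpow_natCast, ← Real.rpow_mul (by norm_num)]
            congr 1
            push_cast
            ring
          rw [h8] at h7
          have h9 : (2 : ℝ) ^ (7 * (u : ℝ) / 4) ≤ b ^ 182 * (2 : ℝ) ^ (-(1 / 1000 * (u : ℝ))) := by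
            calc (2 : ℝ) ^ (7 * (u : ℝ) / 4) ≤ (2 : ℝ) ^ (182 * (u : ℝ) / 100) * (2 : ℝ) ^ (-(1 / 1000 * (u : ℝ))) := by
                  rw [← Real.rpow_add (by norm_num)]
                  refine Real.rpow_le_rpow_of_exponent_le (by norm_num) ?_
                  linarith
              _ ≤ _ := mul_le_mul_of_nonneg_right h7 (by positivity)
          calc (2 : ℝ) ^ (7 * (u : ℝ) / 4) * b ^ 18 ≤ (b ^ 182 * (2 : ℝ) ^ (-(1 / 1000 * (u : ℝ)))) * b ^ 18 :=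
                mul_le_mul_of_nonneg_right h9 (by positivity)
            _ = b ^ 200 * (2 : ℝ) ^ (-(1 / 1000 * (u : ℝ))) := by ring
        calc ((SU b y u s).card : ℝ) * s ^ 7 ≤ 2 * 4 ^ u * ((2 : ℝ) ^ (7 * (u : ℝ) / 4) * b ^ 18) := h5
          _ ≤ 2 * 4 ^ u * (b ^ 200 * (2 : ℝ) ^ (-(1 / 1000 * (u : ℝ)))) :=
              mul_le_mul_of_nonneg_left h6 (by positivity)
          _ = (2 * (b ^ 200 * (2 : ℝ) ^ (-(1 / 1000 * (u : ℝ))))) * 4 ^ u := by ring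
          _ ≤ (2 * C + 2 + (2 + C') * (b ^ 200 * (2 : ℝ) ^ (-(1 / 1000 * (u : ℝ))))) * 4 ^ u := by
              refine mul_le_mul_of_nonneg_right ?_ h4.le
              nlinarith
      · rcases lt_or_ge ((2 : ℝ) ^ ((u : ℝ) / 400)) s with hs2 | hs2
        · have h5 := hC2 b y u s hb (by omega) hs1
          have h6 : ((SU b y u s).card : ℝ) * s ^ 7 ≤ C' * (2 : ℝ) ^ ((1 / 1000 : ℝ) * u) * b ^ 40 * (4 ^ u / s) := by
            calc ((SU b y u s).card : ℝ) * s ^ 7 ≤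
                (C' * (2 : ℝ) ^ ((1 / 1000 : ℝ) * u) * b ^ 40 * (4 ^ u / s ^ 8)) * s ^ 7 :=
                  mul_le_mul_of_nonneg_right h5 (by positivity)
              _ = _ := by
                  field_simp
          have h7 : (2 : ℝ) ^ ((1 / 1000 : ℝ) * u) / s ≤ (2 : ℝ) ^ (-(1 / 1000 * (u : ℝ))) := by
            rw [div_le_iff₀ hs]
            calc (2 : ℝ) ^ ((1 / 1000 : ℝ) * u) ≤ (2 : ℝ) ^ (-(1 / 1000 * (u : ℝ))) * (2 : ℝ) ^ ((u : ℝ) / 400) := by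
                  rw [← Real.rpow_add (by norm_num)]
                  refine Real.rpow_le_rpow_of_exponent_le (by norm_num) ?_
                  linarith
              _ ≤ _ := mul_le_mul_of_nonneg_left hs2.le (by positivity)
          have h8 : b ^ 40 ≤ b ^ 200 := pow_le_pow_right₀ hb (by norm_num)
          calc ((SU b y u s).card : ℝ) * s ^ 7 ≤ C' * (2 : ℝ) ^ ((1 / 1000 : ℝ) * u) * b ^ 40 * (4 ^ u / s) := h6
            _ = C' * (b ^ 40 * ((2 : ℝ) ^ ((1 / 1000 : ℝ) * u) / s)) * 4 ^ u := by ring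
            _ ≤ C' * (b ^ 200 * (2 : ℝ) ^ (-(1 / 1000 * (u : ℝ)))) * 4 ^ u := by
                gcongr
            _ ≤ (2 * C + 2 + (2 + C') * (b ^ 200 * (2 : ℝ) ^ (-(1 / 1000 * (u : ℝ))))) * 4 ^ u := by
                refine mul_le_mul_of_nonneg_right ?_ h4.le
                nlinarith
        · have hMR : MR b u s := ⟨hb, hb1, hs1, hs2⟩
          have h5 := hFM b y u s _ hMR hyy hPot hIH
          refine h5.trans (mul_le_mul_of_nonneg_right ?_ h4.le)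
          have hΦ : 0 ≤ 2 * C + 2 + (2 + C') * (b ^ 200 * (2 : ℝ) ^ (-(1 / 1000 * (u : ℝ)))) := by positivity
          have h6 : C * (y : ℝ) ^ (-(1 / 20 : ℝ)) *
              (2 * C + 2 + (2 + C') * (b ^ 200 * (2 : ℝ) ^ (-(1 / 1000 * (u : ℝ))))) ≤
              1 / 2 * (2 * C + 2 + (2 + C') * (b ^ 200 * (2 : ℝ) ^ (-(1 / 1000 * (u : ℝ))))) :=
            mul_le_mul_of_nonneg_right hy hΦ
          have h7 : 0 ≤ (2 + C') * (b ^ 200 * (2 : ℝ) ^ (-(1 / 1000 * (u : ℝ)))) := by positivity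
          linarith

end Pool.Agent.RL
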