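import Pool.Agent.helper88.RL.SpecL
import Pool.Agent.helper88.RL.Cop

set_option autoImplicit false

namespace Pool.Agent.RL

open Finset Pool.Agent.helper3.FT Pool.Agent.T6 Pool.Agent.RF

theorem N5 (hN1 : N1_stmt) (hN2 : N2_stmt) (hN4 : N4_stmt) : N5_stmt := by
  intro b hb
  have hb0 : 0 < b := by linarith
  have hb5 : 0 < b ^ 5 := by positivity
  have hb51 : 1 ≤ b ^ 5 := one_le_pow₀ hb
  refine ⟨?_, ?_, ?_, ?_⟩
  · intro d r hd
    obtain ⟨⟨v, hv, hG, hn⟩, hmin⟩ := hN4 b d r hb hd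
    refine ⟨?_, ?_⟩
    · rw [← hn]
      exact (hN1 b hb v v).2.2.2.2.1 hv
    · have hd0 : (d : ℤ) ≠ 0 := by exact_mod_cast (by omega : d ≠ 0)
      have h0 : (d : ℤ) • ((1, 0, 0, 0) : V4) ≠ 0 := by
        intro h
        have h1 : ((d : ℤ) • ((1, 0, 0, 0) : V4)).1 = 0 := by rw [h]; rfl
        simp only [Prod.smul_fst, smul_eq_mul, mul_one] at h1
        exact hd0 h1
      have h1 := hmin _ h0 (hN2.2.2.2.1 d r _)
      rw [(hN1 b hb (1, 0, 0, 0) 0).2.2.2.1 (d : ℤ)] at h1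
      have h2 : nrm b ((1, 0, 0, 0) : V4) ≤ 1 := by
        unfold nrm
        simp only [Int.cast_one, Int.cast_zero, abs_one, abs_zero]
        norm_num
      have h3 : |(((d : ℤ)) : ℝ)| = (d : ℝ) := by
        rw [Int.cast_natCast, abs_of_nonneg (Nat.cast_nonneg _)]
      rw [h3] at h1
      calc lamb b d r ≤ d * nrm b ((1, 0, 0, 0) : V4) := h1
        _ ≤ d * 1 := by gcongr
        _ = d := mul_one _
  · intro d d' r hd hdd
    have hd' : 1 ≤ d' := Nat.pos_of_dvd_of_pos hdd hd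
    obtain ⟨⟨v, hv, hG, hn⟩, -⟩ := hN4 b d r hb hd
    rw [← hn]
    exact (hN4 b d' r hb hd').2 v hv (hN2.2.2.2.2.1 d d' r v hdd hG)
  · intro m d r hm hd
    obtain ⟨⟨v, hv, hG, hn⟩, -⟩ := hN4 b d r hb hd
    have hmd : 1 ≤ m * d := Nat.mul_pos hm hd
    have hm0 : (m : ℤ) ≠ 0 := by exact_mod_cast (by omega : m ≠ 0)
    have h0 : (m : ℤ) • v ≠ 0 := smul_ne_zero hm0 hv
    have h1 := (hN4 b (m * d) r hb hmd).2 _ h0 ((hN2.2.2.2.2.2.2 m d r v hm).2 hG)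
    rw [(hN1 b hb v v).2.2.2.1 (m : ℤ), hn] at h1
    have h3 : |(((m : ℤ)) : ℝ)| = (m : ℝ) := by
      rw [Int.cast_natCast, abs_of_nonneg (Nat.cast_nonneg _)]
    rwa [h3] at h1
  · intro d r r' hd hr
    apply le_antisymm
    · obtain ⟨⟨v, hv, hG, hn⟩, -⟩ := hN4 b d r' hb hd
      rw [← hn]
      exact (hN4 b d r hb hd).2 v hv (hN2.2.2.2.2.2.1 d r' r v hr.symm hG)
    · obtain ⟨⟨v, hv, hG, hn⟩, -⟩ := hN4 b d r hb hd
      rw [← hn]
      exact (hN4 b d r' hb hd).2 v hv (hN2.2.2.2.2.2.1 d r r' v hr hG)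

end Pool.Agent.RL
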