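import Pool.Agent.helper88.RL.SpecL
import Pool.Agent.helper88.RL.Cop

set_option autoImplicit false

namespace Pool.Agent.RL

open Finset Pool.Agent.helper3.FT Pool.Agent.T6 Pool.Agent.RF

/-- balls are finite -/
theorem TRN_fin (b V : ℝ) (_hb : 1 ≤ b) : {v : V4 | nrm b v ≤ V}.Finite := nrm_fin b V

/-- the set counted by `NBf` -/
def TRN_W (b V : ℝ) (H r i : ℕ) : Set V4 :=
  {v : V4 | v ≠ 0 ∧ InG H r v ∧ nrm b v ≤ V ∧ (Gd b H r ∨ nrm b v ≤ 2 ^ (i + 1) * lamb b H r)}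

theorem TRN_Wfin (b V : ℝ) (H r i : ℕ) (hb : 1 ≤ b) : (TRN_W b V H r i).Finite :=
  (TRN_fin b V hb).subset fun _ hv => hv.2.2.1

/-- the data attached to a pair -/
structure TRN_D (b : ℝ) (y i : ℕ) (Q : Finset ℕ) (D : ℕ → Finset ℕ) (d r l q ρ : ℕ) : Prop where
  iso : IsoP y (vv b d r) d l
  log : Nat.log 2 l = i
  qQ : q ∈ Q
  cop : Nat.Coprime q d
  one : 1 ≤ q
  mem : d / l * q ∈ D q
  lt : ρ < d / l * q
  c1 : Cop ρ (d / l * q)
  e1 : ρ ≡ r [MOD d / l]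
  inG : InG (d / l * q) ρ (vv b d r)

theorem TRN_cop {a r ρ : ℕ} (h : ρ ≡ r [MOD a]) (hr : Cop r a) : Cop ρ a := by
  exact Cop_congr h.symm hr

theorem TRN (hVVP : VVP_stmt) (hN2 : N2_stmt) (hN3 : N3_stmt) (hN5 : N5_stmt) (hNRT : NRT_stmt) :
    TRN_stmt := by
  classical
  intro b y u i s S Q D hb hy hs hSU hS
  set V : ℝ := √(2 ^ u) / s ^ 2 with hV
  obtain ⟨n1, n2, n3, n4, n5, n6, n7⟩ := hN2
  obtain ⟨m1, m2, m3, m4⟩ := hN5 b hb
  -- facts on the pairs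
  have hPR : ∀ p ∈ S, 2 ^ u ≤ p.1 ∧ p.2 < p.1 ∧ Cop p.2 p.1 ∧ Rgh y p.1 := by
    intro p hp
    have h1 := hSU hp
    unfold SU PR at h1
    rw [Finset.mem_filter, Finset.mem_filter, Finset.mem_product, Finset.mem_Ico] at h1
    exact ⟨h1.1.1.1.1, h1.1.2⟩
  have hd1 : ∀ p ∈ S, 1 ≤ p.1 := fun p hp => Nat.one_le_two_pow.trans (hPR p hp).1
  -- the data
  have hdata : ∀ p ∈ S, ∃ l q ρ : ℕ, TRN_D b y i Q D p.1 p.2 l q ρ := by
    rintro ⟨d, r⟩ hp
    obtain ⟨-, l, q, hiso, hlog, hqQ, hcop, ⟨r', hr', hG'⟩, hq1, hmem⟩ := hS _ hp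
    obtain ⟨-, hlt, hrd, hrgh⟩ := hPR _ hp
    have hd : 1 ≤ d := hd1 _ hp
    obtain ⟨v1, v2, v3, v4, v5, v6, v7⟩ := hVVP b y u s hb hy hs _ (hSU hp)
    have hdvd : d / l ∣ d := Nat.div_dvd_of_dvd hiso.2.1
    have hco : Nat.Coprime (d / l) q := (Nat.Coprime.coprime_dvd_left hdvd hcop.symm)
    have hdl : 1 ≤ d / l := Nat.div_pos (Nat.le_of_dvd hd hiso.2.1) hiso.1.pos
    obtain ⟨k, hk1, hk2⟩ := Nat.chineseRemainder hco r r'
    have hH : 0 < d / l * q := Nat.mul_pos hdl hq1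
    have hk3 : k % (d / l * q) ≡ k [MOD d / l * q] := Nat.mod_modEq _ _
    have e1 : k % (d / l * q) ≡ r [MOD d / l] := (hk3.of_mul_right q).trans hk1
    have e2 : k % (d / l * q) ≡ r' [MOD q] := (hk3.of_mul_left (d / l)).trans hk2
    have hrdl : Cop r (d / l) := Nat.Coprime.coprime_dvd_right hdvd hrd
    refine ⟨l, q, k % (d / l * q), hiso, hlog, hqQ, hcop, hq1, hmem, Nat.mod_lt _ hH, ?_, e1, ?_⟩
    · exact Nat.Coprime.mul_right (TRN_cop e1 hrdl) (TRN_cop e2 hr')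
    · exact hN3 _ _ _ _ _ _ hco (n5 _ _ _ _ hdvd v1) hG' e1 e2
  choose! fl fq fρ hf using hdata
  -- the target
  set T : Finset (Σ _ : (Σ _ : (Σ _ : ℕ, ℕ), ℕ), V4) :=
    ((Q.sigma fun q => D q).sigma fun x => (range x.2).filter (fun r => Cop r x.2)).sigma
      fun z => (TRN_Wfin b V z.1.2 z.2 i hb).toFinset with hT
  have hTc : (T.card : ℝ) = ∑ q' ∈ Q, ∑ H ∈ D q', ∑ r ∈ (range H).filter (fun r => Cop r H),
      NBf b V H r i := by
    rw [hT, Finset.card_sigma, Finset.sum_sigma, Finset.sum_sigma]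
    push_cast
    refine Finset.sum_congr rfl fun q' _ => Finset.sum_congr rfl fun H _ => ?_
    refine Finset.sum_congr rfl fun r _ => ?_
    unfold NBf
    have h1 := Set.ncard_eq_toFinset_card _ (TRN_Wfin b V H r i hb)
    have h2 : (TRN_Wfin b V H r i hb).toFinset.card = (TRN_W b V H r i).ncard := h1.symm
    rw [h2]
    rfl
  set f : ℕ × ℕ → (Σ _ : (Σ _ : (Σ _ : ℕ, ℕ), ℕ), V4) := fun p =>
    ⟨⟨⟨fq p, p.1 / fl p * fq p⟩, fρ p⟩, vv b p.1 p.2⟩ with hfdef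
  have hmaps : ∀ p ∈ S, f p ∈ T := by
    intro p hp
    have h := hf p hp
    obtain ⟨v1, v2, v3, v4, v5, v6, v7⟩ := hVVP b y u s hb hy hs p (hSU hp)
    have hd : 1 ≤ p.1 := hd1 _ hp
    have hdl : 1 ≤ p.1 / fl p := Nat.div_pos (Nat.le_of_dvd hd h.iso.2.1) h.iso.1.pos
    have hH : 1 ≤ p.1 / fl p * fq p := Nat.mul_pos hdl h.one
    rw [hT, Finset.mem_sigma, Finset.mem_sigma, Finset.mem_sigma]
    refine ⟨⟨⟨h.qQ, h.mem⟩, ?_⟩, ?_⟩
    · rw [Finset.mem_filter, Finset.mem_range]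
      exact ⟨h.lt, h.c1⟩
    · rw [Set.Finite.mem_toFinset]
      refine ⟨v5, h.inG, v4, Or.inr ?_⟩
      change nrm b (vv b p.1 p.2) ≤ 2 ^ (i + 1) * lamb b (p.1 / fl p * fq p) (fρ p)
      rw [v2]
      have h1 : lamb b p.1 p.2 ≤ fl p * lamb b (p.1 / fl p) p.2 := by
        have h2 := m3 (fl p) (p.1 / fl p) p.2 h.iso.1.one_lt.le hdl
        rwa [Nat.mul_div_cancel' h.iso.2.1] at h2
      have h3 : lamb b (p.1 / fl p) p.2 = lamb b (p.1 / fl p) (fρ p) := m4 _ _ _ hdl h.e1.symm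
      have h4 : lamb b (p.1 / fl p) (fρ p) ≤ lamb b (p.1 / fl p * fq p) (fρ p) :=
        m2 _ _ _ hH (Dvd.intro _ rfl)
      have h5 : (fl p : ℝ) ≤ 2 ^ (i + 1) := by
        have h6 : fl p < 2 ^ (i + 1) := by
          rw [← h.log]
          exact Nat.lt_pow_succ_log_self (by norm_num) _
        exact_mod_cast h6.le
      have h7 : 0 ≤ lamb b (p.1 / fl p * fq p) (fρ p) :=
        le_trans (by positivity) (m1 _ _ hH).1
      calc lamb b p.1 p.2 ≤ fl p * lamb b (p.1 / fl p) p.2 := h1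
        _ = fl p * lamb b (p.1 / fl p) (fρ p) := by rw [h3]
        _ ≤ fl p * lamb b (p.1 / fl p * fq p) (fρ p) := mul_le_mul_of_nonneg_left h4 (Nat.cast_nonneg _)
        _ ≤ 2 ^ (i + 1) * lamb b (p.1 / fl p * fq p) (fρ p) := mul_le_mul_of_nonneg_right h5 h7
  have hfib : ∀ t ∈ T, (S.filter fun p => f p = t).card ≤ 3 := by
    intro t _
    rcases (S.filter fun p => f p = t).eq_empty_or_nonempty with h0 | ⟨p₀, hp₀⟩
    · rw [h0]
      simp
    rw [Finset.mem_filter] at hp₀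
    obtain ⟨hp₀S, hp₀t⟩ := hp₀
    have h := hf p₀ hp₀S
    have hd : 1 ≤ p₀.1 := hd1 _ hp₀S
    obtain ⟨-, hlt, hrd, hrgh⟩ := hPR _ hp₀S
    have hlp := h.iso.1
    -- all elements of the fibre have the same prime and the same modulus
    have hsame : ∀ p ∈ S, f p = t → p.1 = p₀.1 ∧ vv b p.1 p.2 = vv b p₀.1 p₀.2 ∧
        p.2 ≡ p₀.2 [MOD p₀.1 / fl p₀] := by
      intro p hp hpt
      have h' := hf p hp
      rw [← hp₀t] at hpt
      rw [hfdef] at hpt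
      simp only [Sigma.mk.injEq, heq_eq_eq] at hpt
      obtain ⟨⟨⟨e1, e2⟩, e3⟩, e4⟩ := hpt
      obtain ⟨v1, v2, v3, v4, v5, v6, v7⟩ := hVVP b y u s hb hy hs p (hSU hp)
      have hl : fl p = fl p₀ := by
        refine h.iso.2.2.2 (fl p) ?_ ?_
        · rw [← e4]
          exact v6 _ h'.iso.1 h'.iso.2.1
        · rw [h'.log, h.log]
      have hdd : p.1 / fl p = p₀.1 / fl p₀ := by
        rw [e1] at e2
        exact Nat.eq_of_mul_eq_mul_right h.one e2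
      have hd' : p.1 = p₀.1 := by
        rw [← Nat.mul_div_cancel' h'.iso.2.1, ← Nat.mul_div_cancel' h.iso.2.1, hdd, hl]
      refine ⟨hd', e4, ?_⟩
      have h1 := h'.e1
      rw [hdd, e3] at h1
      exact h1.symm.trans h.e1
    have hle : (S.filter fun p => f p = t).card ≤
        ((range (fl p₀)).filter (fun r => Cop r (fl p₀) ∧ InG (fl p₀) r (vv b p₀.1 p₀.2))).card := by
      refine Finset.card_le_card_of_injOn (fun p => p.2 % fl p₀) ?_ ?_
      · intro p hp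
        rw [Finset.mem_coe, Finset.mem_filter] at hp
        obtain ⟨a1, a2, a3⟩ := hsame p hp.1 hp.2
        obtain ⟨-, -, hrd', -⟩ := hPR _ hp.1
        obtain ⟨v1, v2, v3, v4, v5, v6, v7⟩ := hVVP b y u s hb hy hs p (hSU hp.1)
        have hm : p.2 % fl p₀ ≡ p.2 [MOD fl p₀] := Nat.mod_modEq _ _
        rw [Finset.mem_coe, Finset.mem_filter, Finset.mem_range]
        refine ⟨Nat.mod_lt _ hlp.pos, TRN_cop hm ?_, ?_⟩
        · rw [a1] at hrd'
          exact Nat.Coprime.coprime_dvd_right h.iso.2.1 hrd'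
        · rw [a2] at v1
          rw [a1] at v1
          exact n6 _ _ _ _ hm.symm (n5 _ _ _ _ h.iso.2.1 v1)
      · intro p hp p' hp' he
        rw [Finset.mem_coe, Finset.mem_filter] at hp hp'
        obtain ⟨a1, a2, a3⟩ := hsame p hp.1 hp.2
        obtain ⟨a1', a2', a3'⟩ := hsame p' hp'.1 hp'.2
        have g1 := (hPR _ hp.1).2.1
        have g2 := (hPR _ hp'.1).2.1
        rw [a1] at g1
        rw [a1'] at g2
        have hco : Nat.Coprime (fl p₀) (p₀.1 / fl p₀) := by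
          rw [Nat.Prime.coprime_iff_not_dvd hlp]
          intro h1
          apply h.iso.2.2.1
          rw [pow_two]
          obtain ⟨c, hc⟩ := h1
          refine ⟨c, ?_⟩
          rw [mul_assoc, ← hc, Nat.mul_div_cancel' h.iso.2.1]
        have he' : p.2 ≡ p'.2 [MOD fl p₀] := he
        have h1 : p.2 ≡ p'.2 [MOD fl p₀ * (p₀.1 / fl p₀)] :=
          (Nat.modEq_and_modEq_iff_modEq_mul hco).1 ⟨he', a3.trans a3'.symm⟩
        rw [Nat.mul_div_cancel' h.iso.2.1] at h1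
        have h2 : p.2 = p'.2 := Nat.ModEq.eq_of_lt_of_lt h1 g1 g2
        exact Prod.ext (a1.trans a1'.symm) h2
    refine hle.trans ?_
    have hrg : Rgh 5 (fl p₀) := by
      intro p hp hpl
      have h1 : y < p := hrgh p hp (hpl.trans h.iso.2.1)
      omega
    have hpm : Pm (fl p₀) (vv b p₀.1 p₀.2) := by
      intro p hp hpl
      exact (hS _ hp₀S).1 p hp (hpl.trans h.iso.2.1)
    have h1 := hNRT (fl p₀) (vv b p₀.1 p₀.2) hlp.one_lt.le hrg hpm
    rw [hlp.primeFactors, Finset.card_singleton, pow_one] at h1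
    exact h1
  have hfin := Finset.card_le_mul_card_image_of_maps_to hmaps 3 hfib
  rw [← hTc]
  exact_mod_cast hfin

end Pool.Agent.RL
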