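import Pool.Agent.helper88.RL.SpecL
import Pool.Agent.helper88.RL.Cop

set_option autoImplicit false

namespace Pool.Agent.RL

open Finset Pool.Agent.helper3.FT Pool.Agent.T6 Pool.Agent.RF

theorem VVP (hNRV : NRV_stmt) : VVP_stmt := by
  classical
  intro b y u s hb hy hs p hp
  unfold SU at hp
  rw [mem_filter] at hp
  obtain ⟨hPR, hGd, hlam⟩ := hp
  unfold PR at hPR
  rw [mem_filter] at hPR
  obtain ⟨hm, hlt, hcop, hrgh⟩ := hPR
  have hvv : vv b p.1 p.2 = hGd.choose := by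
    unfold vv
    rw [dif_pos hGd]
  obtain ⟨hG, hn, hR⟩ := hGd.choose_spec
  rw [← hvv] at hG hn hR
  have h5 : Nat.Coprime p.1 5 := by
    rw [Nat.coprime_comm]
    refine (Nat.Prime.coprime_iff_not_dvd (by norm_num)).2 ?_
    intro h
    have := hrgh 5 (by norm_num) h
    omega
  have hs2 : 0 < s ^ 2 := by positivity
  refine ⟨hG, hn, hR, ?_, ?_, ?_, hNRV.1 p.1 p.2 _ h5 hG⟩
  · rw [hn, le_div_iff₀ hs2]
    exact hlam
  · intro h0
    apply hR
    rw [h0]
    have e1 : va4 (0 : V4) = 0 := rfl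
    have e2 : vz4 (0 : V4) = 0 := rfl
    unfold RV
    rw [e1, e2]
    simp [R0, trO]
  · intro q hq hqd
    refine ⟨hq, hrgh q hq hqd, p.2, Nat.Coprime.coprime_dvd_right hqd hcop, ?_⟩
    have hqd' : ((q : ℕ) : OO) ∣ ((p.1 : ℕ) : OO) := Nat.cast_dvd_cast hqd
    exact hqd'.trans hG

end Pool.Agent.RL
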