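import Pool.Agent.helper88.RL.SpecL
import Pool.Agent.helper88.RL.Cop

set_option autoImplicit false

/-!
# T6, row Z9
-/

namespace Pool.Agent.RL

open Finset Pool.Agent.helper3.FT Pool.Agent.T6 Pool.Agent.RF

theorem Z9_sqrt (u : ℕ) : √((2 : ℝ) ^ u) = (2 : ℝ) ^ ((u : ℝ) / 2) := by
  rw [Real.sqrt_eq_rpow, ← Real.rpow_natCast, ← Real.rpow_mul (by norm_num)]
  congr 1
  ring

theorem Z9_lin (u : ℕ) : (u : ℝ) ≤ 15 * (2 : ℝ) ^ ((u : ℝ) / 10) := by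
  have h1 : (2 : ℝ) ^ ((u : ℝ) / 10) = Real.exp (Real.log 2 * ((u : ℝ) / 10)) :=
    Real.rpow_def_of_pos (by norm_num) _
  have h2 := Real.add_one_le_exp (Real.log 2 * ((u : ℝ) / 10))
  have h3 := Real.log_two_gt_d9
  have h4 : (0 : ℝ) ≤ u := Nat.cast_nonneg u
  rw [h1]
  nlinarith

theorem Z9_pow (w : ℕ) : (4 : ℝ) ^ w = (2 : ℝ) ^ (2 * (w : ℝ)) := by
  rw [Real.rpow_mul (by norm_num), Real.rpow_natCast]
  norm_num

theorem Z9_geo (u : ℕ) : ∑ w ∈ range u, (2 : ℝ) ^ w ≤ 2 ^ u := by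
  rw [geom_sum_eq (by norm_num)]
  norm_num

open Classical in
theorem Z9_one (hN4 : N4_stmt) (hC0 : C0_stmt) (C : ℝ) (hC : 1 ≤ C)
    (h8 : ∀ (b V : ℝ) (y w : ℕ), 1 ≤ b → 5 ≤ y → 0 < V → V * b ^ 5 < 2 ^ w →
      (((PR y w).filter
        (fun p => ∃ v : V4, v ≠ 0 ∧ InG p.1 p.2 v ∧ RV v = 0 ∧ nrm b v ≤ V)).card : ℝ) ≤
        C * b ^ 5 * V * (2 : ℝ) ^ ((1 + (1 / 200 : ℝ)) * w))
    (b : ℝ) (y u : ℕ) (s : ℝ) (hM : MR b u s) (hy : 5 ≤ y) (w : ℕ) (hw : w < u) :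
    (((PR y w).filter (fun p => ¬ Gd b p.1 p.2 ∧ lamb b p.1 p.2 ≤ √(2 ^ u) / s ^ 2)).card : ℝ) ≤
      2 * (2 : ℝ) ^ (6 * (u : ℝ) / 5) +
        C * b ^ 5 * (2 : ℝ) ^ (101 * (u : ℝ) / 200) * (2 : ℝ) ^ w := by
  have hb := hM.b1
  have hs := hM.s1
  have hu0 : (0 : ℝ) ≤ u := Nat.cast_nonneg u
  have hw' : (w : ℝ) < u := by exact_mod_cast hw
  have hpos : 0 ≤ C * b ^ 5 * (2 : ℝ) ^ (101 * (u : ℝ) / 200) * (2 : ℝ) ^ w := by positivity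
  rcases le_or_gt (5 * w) (3 * u) with h | h
  · have h1 : (((PR y w).filter
        (fun p => ¬ Gd b p.1 p.2 ∧ lamb b p.1 p.2 ≤ √(2 ^ u) / s ^ 2)).card : ℝ) ≤
        ((PR y w).card : ℝ) := by
      exact_mod_cast Finset.card_filter_le _ _
    have h2 := hC0.1 y w
    have h3 : (4 : ℝ) ^ w ≤ (2 : ℝ) ^ (6 * (u : ℝ) / 5) := by
      rw [Z9_pow]
      apply Real.rpow_le_rpow_of_exponent_le (by norm_num)
      have : (5 * w : ℝ) ≤ 3 * u := by exact_mod_cast h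
      linarith
    linarith
  · have hV : 0 < √((2 : ℝ) ^ u) / s ^ 2 := by positivity
    have hVle : √((2 : ℝ) ^ u) / s ^ 2 ≤ (2 : ℝ) ^ ((u : ℝ) / 2) := by
      rw [← Z9_sqrt]
      apply div_le_self (Real.sqrt_nonneg _)
      exact one_le_pow₀ hs
    have hb5 : b ^ 5 ≤ (2 : ℝ) ^ ((u : ℝ) / 20) := by
      have := pow_le_pow_left₀ (by linarith : (0 : ℝ) ≤ b) hM.b2 5
      refine this.trans (le_of_eq ?_)
      rw [← Real.rpow_natCast, ← Real.rpow_mul (by norm_num)]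
      congr 1
      push_cast
      ring
    have hlt : √((2 : ℝ) ^ u) / s ^ 2 * b ^ 5 < 2 ^ w := by
      calc √((2 : ℝ) ^ u) / s ^ 2 * b ^ 5 ≤ (2 : ℝ) ^ ((u : ℝ) / 2) * (2 : ℝ) ^ ((u : ℝ) / 20) := by
            apply mul_le_mul hVle hb5 (by positivity) (by positivity)
        _ = (2 : ℝ) ^ (11 * (u : ℝ) / 20) := by
            rw [← Real.rpow_add (by norm_num)]
            congr 1
            ring
        _ < (2 : ℝ) ^ (w : ℝ) := by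
            apply Real.rpow_lt_rpow_of_exponent_lt (by norm_num)
            have : (3 * u : ℝ) < 5 * w := by exact_mod_cast h
            linarith
        _ = 2 ^ w := Real.rpow_natCast _ _
    have h1 := h8 b (√((2 : ℝ) ^ u) / s ^ 2) y w hb hy hV hlt
    have h2 : (((PR y w).filter
        (fun p => ¬ Gd b p.1 p.2 ∧ lamb b p.1 p.2 ≤ √(2 ^ u) / s ^ 2)).card : ℝ) ≤
        (((PR y w).filter (fun p => ∃ v : V4, v ≠ 0 ∧ InG p.1 p.2 v ∧ RV v = 0 ∧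
          nrm b v ≤ √((2 : ℝ) ^ u) / s ^ 2)).card : ℝ) := by
      have : ((PR y w).filter
        (fun p => ¬ Gd b p.1 p.2 ∧ lamb b p.1 p.2 ≤ √(2 ^ u) / s ^ 2)).card ≤
        ((PR y w).filter (fun p => ∃ v : V4, v ≠ 0 ∧ InG p.1 p.2 v ∧ RV v = 0 ∧
          nrm b v ≤ √((2 : ℝ) ^ u) / s ^ 2)).card := by
        apply Finset.card_le_card
        intro p hp
        rw [Finset.mem_filter] at hp ⊢
        refine ⟨hp.1, ?_⟩
        have hp1 : 1 ≤ p.1 := by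
          have := hp.1
          unfold PR at this
          rw [Finset.mem_filter, Finset.mem_product, Finset.mem_Ico] at this
          exact le_trans Nat.one_le_two_pow this.1.1.1
        obtain ⟨v, hv0, hvG, hvn⟩ := (hN4 b p.1 p.2 hb hp1).1
        refine ⟨v, hv0, hvG, ?_, ?_⟩
        · by_contra hR
          exact hp.2.1 ⟨v, hvG, hvn, hR⟩
        · rw [hvn]
          exact hp.2.2
      exact_mod_cast this
    have h3 : C * b ^ 5 * (√((2 : ℝ) ^ u) / s ^ 2) * (2 : ℝ) ^ ((1 + (1 / 200 : ℝ)) * w) ≤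
        C * b ^ 5 * (2 : ℝ) ^ (101 * (u : ℝ) / 200) * (2 : ℝ) ^ w := by
      have e1 : (2 : ℝ) ^ ((1 + (1 / 200 : ℝ)) * w) ≤ (2 : ℝ) ^ ((u : ℝ) / 200) * (2 : ℝ) ^ w := by
        rw [← Real.rpow_natCast 2 w, ← Real.rpow_add (by norm_num)]
        apply Real.rpow_le_rpow_of_exponent_le (by norm_num)
        linarith
      have e2 : (2 : ℝ) ^ (101 * (u : ℝ) / 200) = (2 : ℝ) ^ ((u : ℝ) / 2) * (2 : ℝ) ^ ((u : ℝ) / 200) := by
        rw [← Real.rpow_add (by norm_num)]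
        congr 1
        ring
      calc C * b ^ 5 * (√((2 : ℝ) ^ u) / s ^ 2) * (2 : ℝ) ^ ((1 + (1 / 200 : ℝ)) * w)
          ≤ C * b ^ 5 * (2 : ℝ) ^ ((u : ℝ) / 2) * ((2 : ℝ) ^ ((u : ℝ) / 200) * (2 : ℝ) ^ w) := by
            apply mul_le_mul _ e1 (by positivity) (by positivity)
            apply mul_le_mul_of_nonneg_left hVle (by positivity)
        _ = _ := by rw [e2]; ring
    have h4 : (0 : ℝ) ≤ 2 * (2 : ℝ) ^ (6 * (u : ℝ) / 5) := by positivity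
    linarith

/-- Z9 -/
theorem Z9 (hZ8 : Z8_stmt) (hN4 : N4_stmt) (hC0 : C0_stmt) : Z9_stmt := by
  obtain ⟨C, hC, h8⟩ := hZ8 (1 / 200) (by norm_num)
  refine ⟨30 + C, by linarith, ?_⟩
  intro b y u s hM hy
  have hb := hM.b1
  have hu0 : (0 : ℝ) ≤ u := Nat.cast_nonneg u
  have hb5 : (1 : ℝ) ≤ b ^ 5 := one_le_pow₀ hb
  have h1 := Finset.sum_le_sum (s := range u) fun w hw =>
    Z9_one hN4 hC0 C hC h8 b y u s hM hy w (Finset.mem_range.1 hw)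
  refine h1.trans ?_
  rw [Finset.sum_add_distrib, Finset.sum_const, Finset.card_range, ← Finset.mul_sum, nsmul_eq_mul]
  have h2 := Z9_geo u
  have h3 : (u : ℝ) * (2 * (2 : ℝ) ^ (6 * (u : ℝ) / 5)) ≤
      30 * b ^ 5 * (2 : ℝ) ^ (151 * (u : ℝ) / 100) := by
    have e1 := Z9_lin u
    have e2 : (2 : ℝ) ^ ((u : ℝ) / 10) * (2 : ℝ) ^ (6 * (u : ℝ) / 5) ≤
        (2 : ℝ) ^ (151 * (u : ℝ) / 100) := by
      rw [← Real.rpow_add (by norm_num)]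
      apply Real.rpow_le_rpow_of_exponent_le (by norm_num)
      linarith
    calc (u : ℝ) * (2 * (2 : ℝ) ^ (6 * (u : ℝ) / 5))
        ≤ 15 * (2 : ℝ) ^ ((u : ℝ) / 10) * (2 * (2 : ℝ) ^ (6 * (u : ℝ) / 5)) :=
          mul_le_mul_of_nonneg_right e1 (by positivity)
      _ = 30 * ((2 : ℝ) ^ ((u : ℝ) / 10) * (2 : ℝ) ^ (6 * (u : ℝ) / 5)) := by ring
      _ ≤ 30 * (2 : ℝ) ^ (151 * (u : ℝ) / 100) := by linarith
      _ = 30 * 1 * (2 : ℝ) ^ (151 * (u : ℝ) / 100) := by ring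
      _ ≤ 30 * b ^ 5 * (2 : ℝ) ^ (151 * (u : ℝ) / 100) := by gcongr
  have h4 : C * b ^ 5 * (2 : ℝ) ^ (101 * (u : ℝ) / 200) * ∑ w ∈ range u, (2 : ℝ) ^ w ≤
      C * b ^ 5 * (2 : ℝ) ^ (151 * (u : ℝ) / 100) := by
    have e3 : (2 : ℝ) ^ (101 * (u : ℝ) / 200) * (2 : ℝ) ^ u ≤ (2 : ℝ) ^ (151 * (u : ℝ) / 100) := by
      rw [← Real.rpow_natCast 2 u, ← Real.rpow_add (by norm_num)]
      apply Real.rpow_le_rpow_of_exponent_le (by norm_num)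
      linarith
    calc C * b ^ 5 * (2 : ℝ) ^ (101 * (u : ℝ) / 200) * ∑ w ∈ range u, (2 : ℝ) ^ w
        ≤ C * b ^ 5 * (2 : ℝ) ^ (101 * (u : ℝ) / 200) * 2 ^ u :=
          mul_le_mul_of_nonneg_left h2 (by positivity)
      _ = C * b ^ 5 * ((2 : ℝ) ^ (101 * (u : ℝ) / 200) * 2 ^ u) := by ring
      _ ≤ _ := mul_le_mul_of_nonneg_left e3 (by positivity)
  calc _ ≤ 30 * b ^ 5 * (2 : ℝ) ^ (151 * (u : ℝ) / 100) + C * b ^ 5 * (2 : ℝ) ^ (151 * (u : ℝ) / 100) :=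
        add_le_add h3 h4
    _ = _ := by ring

end Pool.Agent.RL
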