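import Pool.Agent.helper47.T6.GP
import Pool.Agent.helper71.T6.GR
import Pool.Agent.helper93.T6.P1
import Pool.Agent.helper11.T6.P2
import Pool.Agent.helper11.T6.P3
import Pool.Agent.helper45.T6.P4
import Pool.Agent.helper11.T6.P5
import Pool.Agent.helper85.T6.P6
import Pool.Agent.helper2.T6.P7
import Pool.Agent.helper20.RL.N1
import Pool.Agent.helper87.RL.N2
import Pool.Agent.helper79.RL.N3
import Pool.Agent.helper88.RL.N4
import Pool.Agent.helper88.RL.N5
import Pool.Agent.helper92.RL.NBD
import Pool.Agent.helper3.RL.NBC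
import Pool.Agent.helper75.RL.NRT
import Pool.Agent.helper83.RL.NRV
import Pool.Agent.helper88.RL.VVP
import Pool.Agent.helper88.RL.PAR
import Pool.Agent.helper88.RL.TRN
import Pool.Agent.helper88.RL.NBF
import Pool.Agent.helper88.RL.C0
import Pool.Agent.helper88.RL.C2
import Pool.Agent.helper88.RL.C3
import Pool.Agent.helper88.RL.C4
import Pool.Agent.helper88.RL.C5
import Pool.Agent.helper88.RL.C6
import Pool.Agent.helper89.RL.Z1
import Pool.Agent.helper44.RL.Z2
import Pool.Agent.helper90.RL.Z3
import Pool.Agent.helper45.RL.Z4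
import Pool.Agent.helper21.RL.Z5
import Pool.Agent.helper66.RL.Z6
import Pool.Agent.helper58.RL.Z7
import Pool.Agent.helper39.RL.Z8
import Pool.Agent.helper88.RL.Z9
import Pool.Agent.helper88.RL.DA
import Pool.Agent.helper88.RL.DB
import Pool.Agent.helper88.RL.DC
import Pool.Agent.helper88.RL.DD
import Pool.Agent.helper88.RL.DE
import Pool.Agent.helper88.RL.DF
import Pool.Agent.helper88.RL.DG
import Pool.Agent.helper88.RL.DI
import Pool.Agent.helper88.RL.ML
import Pool.Agent.helper88.RL.EA
import Pool.Agent.helper88.RL.EB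
import Pool.Agent.helper88.RL.EC
import Pool.Agent.helper88.RL.ED
import Pool.Agent.helper88.RL.EE
import Pool.Agent.helper88.RL.FM
import Pool.Agent.helper88.RL.FL
import Pool.Agent.helper88.RL.FS
import Pool.Agent.helper88.RF.AllW

set_option autoImplicit false

/-! # Project RL, block L assembled: the log-free bound `LFS_stmt` for the lattices over `ℤ[φ]` -/

namespace Pool.Agent.RL

open Finset Pool.Agent.helper3.FT Pool.Agent.T6 Pool.Agent.RF

theorem allGP : GP_stmt := GP

theorem allGR : GR_stmt := GR

theorem allP1 : P1_stmt := P1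

theorem allP2 : P2_stmt := P2

theorem allP3 : P3_stmt := P3 allP1

theorem allP4 : P4_stmt := P4 allP1 allP3

theorem allP5 : P5_stmt := P5 allP1

theorem allP6 : P6_stmt := P6 allP1

theorem allP7 : P7_stmt := P7 allP1

theorem allN1 : N1_stmt := N1

theorem allN2 : N2_stmt := N2

theorem allN3 : N3_stmt := N3 allN2

theorem allN4 : N4_stmt := N4 allN1 allN2

theorem allN5 : N5_stmt := N5 allN1 allN2 allN4

theorem allNBD : NBD_stmt := NBD allGP allGR allN1 allN2 allN4

theorem allNBC : NBC_stmt := NBC allN2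

theorem allNRT : NRT_stmt := NRT WSE_final WRO_final

theorem allNRV : NRV_stmt := NRV

theorem allVVP : VVP_stmt := VVP allNRV

theorem allPAR : PAR_stmt := PAR allN3 allP5

theorem allTRN : TRN_stmt := TRN allVVP allN2 allN3 allN5 allNRT

theorem allNBF : NBF_stmt := NBF allN1 allNBD

theorem allC0 : C0_stmt := C0 allN5

theorem allC2 : C2_stmt := C2 allN1 allN2 allNRT allNRV allVVP

theorem allC3 : C3_stmt := C3

theorem allC4 : C4_stmt := C4 allN1 allN2 allN5 allVVP

theorem allC5 : C5_stmt := C5 allN5

theorem allC6 : C6_stmt := C6 allC5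

theorem allZ1 : Z1_stmt := Z1 WEU_final

theorem allZ2 : Z2_stmt := Z2 allZ1 WEU_final WVA_final

theorem allZ3 : Z3_stmt := Z3 WSE_final

theorem allZ4 : Z4_stmt := Z4

theorem allZ5 : Z5_stmt := Z5 allZ3 allZ4

theorem allZ6 : Z6_stmt := Z6 WRT_final WEU_final

theorem allZ7 : Z7_stmt := Z7 WEU_final WVA_final WDB_final

theorem allZ8 : Z8_stmt := Z8 allN1 allN2 allNRT allZ2 allZ5 allZ6 allZ7

theorem allZ9 : Z9_stmt := Z9 allZ8 allN4 allC0

theorem allDA : DA_stmt := DA allTRN allPAR allP5

theorem allDB : DB_stmt := DB allP2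

theorem allDC : DC_stmt := DC allC6 allZ9

theorem allDD : DD_stmt := DD allDA allDB allDC allNBF allP5

theorem allDE : DE_stmt := DE allP1 allP2

theorem allDF : DF_stmt := DF allDD allDE allP4

theorem allDG : DG_stmt := DG allTRN allNBF allP6 allC6 allZ9

theorem allDI : DI_stmt := DI allDF allDG

theorem allML : ML_stmt := ML allNBC allNRV allN3 allP7

theorem allEA : EA_stmt := EA allML allVVP allNRT allC3

theorem allEB : EB_stmt := EBrow allP6

theorem allEC : EC_stmt := EC allPAR allP4 allP5 allVVP allN3 allNBC allNRT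

theorem allED : ED_stmt := ED allPAR allP4 allP5 allP1 allVVP allN3 allML allNRT allC0

theorem allEE : EE_stmt := EE allEB allEC allED

theorem allFM : FM_stmt := FM allC3 allC4 allDI allEA allEE

theorem allFL : FL_stmt := FL allFM allC0 allC2

theorem allFS : FS_stmt := FS allFL allZ8 allC0 allN4 allN5

/-- **LF** over `ℤ[φ]`, summed form: the lattices of the family have on average no short vectors -/
theorem LFS_final : LFS_stmt := allFS

end Pool.Agent.RL
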