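import Pool.Agent.helper88.RF.SpecW
import Pool.Agent.helper82.T6.SpecL2

set_option autoImplicit false

/-!
# Project RL (MP_16912e_nt, real fields, stage 2): the log-free bound LF for the lattices over `ℤ[φ]`

Vectors `v = (a.re, a.im, z.re, z.im)`, `Γ_{d,r} = {v : d ∣ FF (r + φ) a z}`, `r` modulo `d` with `norm (r + φ)` prime to `d`.
This is block L of T6 (Pool/Agent/helper82/T6/SpecL.lean, SpecL2.lean) for another pair of cubic forms; the parameter `b` of T6 is kept as a dummy.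
-/

namespace Pool.Agent.RL

open Finset Pool.Agent.helper3.FT Pool.Agent.T6 Pool.Agent.RF

/-- the first component `a` -/
def va4 (v : V4) : OO := ⟨v.1, v.2.1⟩

/-- the second component `z` -/
def vz4 (v : V4) : OO := ⟨v.2.2.1, v.2.2.2⟩

/-- the lattice `Γ_{d,r}` -/
def InG (d r : ℕ) (v : V4) : Prop := ((d : ℕ) : OO) ∣ FF ⟨(r : ℤ), 1⟩ (va4 v) (vz4 v)

/-- the largest coordinate (`b` is a dummy) -/
noncomputable def nrm (_b : ℝ) (v : V4) : ℝ := max (max |(v.1 : ℝ)| |(v.2.1 : ℝ)|) (max |(v.2.2.1 : ℝ)| |(v.2.2.2 : ℝ)|)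

/-- the first minimum of `Γ_{d,r}` -/
noncomputable def lamb (b : ℝ) (d r : ℕ) : ℝ := sInf {x : ℝ | ∃ v : V4, v ≠ 0 ∧ InG d r v ∧ x = nrm b v}

/-- the resultant -/
def RV (v : V4) : ℤ := R0 (va4 v) (vz4 v)

/-- `|norm (r + φ)|` -/
def nr (r : ℕ) : ℕ := ((r : ℤ) ^ 2 + r - 1).natAbs

/-- `norm (r + φ)` is prime to `d` -/
abbrev Cop (r d : ℕ) : Prop := Nat.Coprime (nr r) d

open Classical in
/-- the pairs `(d, r)` of level `u`: `2^u ≤ d < 2^(u+1)`, `norm (r + φ)` a unit modulo `d` -/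
noncomputable def PR (y u : ℕ) : Finset (ℕ × ℕ) :=
  (Ico (2 ^ u) (2 ^ (u + 1)) ×ˢ range (2 ^ (u + 1))).filter
    (fun p => p.2 < p.1 ∧ Cop p.2 p.1 ∧ Rgh y p.1)

/-- some shortest vector has nonzero resultant -/
def Gd (b : ℝ) (d r : ℕ) : Prop := ∃ v : V4, InG d r v ∧ nrm b v = lamb b d r ∧ RV v ≠ 0

open Classical in
/-- the good pairs of level `u` with `x ≥ s²` -/
noncomputable def SU (b : ℝ) (y u : ℕ) (s : ℝ) : Finset (ℕ × ℕ) :=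
  (PR y u).filter (fun p => Gd b p.1 p.2 ∧ lamb b p.1 p.2 * s ^ 2 ≤ √(2 ^ u))

/-- LFS: the log-free bound on average -/
def LFS_stmt : Prop :=
  ∃ (y B : ℕ) (C τ : ℝ), 5 ≤ y ∧ 1 ≤ C ∧ 0 < τ ∧ τ ≤ 1 / 100 ∧ ∀ b : ℝ, 1 ≤ b → ∀ u : ℕ,
    ∑ p ∈ PR y u, (√(2 ^ u) / lamb b p.1 p.2) ^ (3 / 2 : ℝ) ≤
      C * (1 + b ^ B * (2 : ℝ) ^ (-(τ * u))) * 4 ^ u

end Pool.Agent.RL
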