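import Pool.Agent.helper88.RL.SpecL
import Pool.Agent.helper88.RL.Cop

/-! Row EB of the project T6 (MP_16912e_nt): trivially rare events. -/

set_option autoImplicit false

namespace Pool.Agent.RL

open Finset Pool.Agent.helper3.FT Pool.Agent.T6 Pool.Agent.RF

theorem EB_cnt (N : ℕ) (D : Finset ℕ) (Q : Finset ℕ) (w : ℕ → ℕ)
    (hD : ∀ d ∈ D, 0 < d ∧ d ≤ N) (hQ : ∀ d ∈ D, ∃ q ∈ Q, w q ∣ d) :
    (D.card : ℝ) ≤ ∑ q ∈ Q, (N : ℝ) / (w q : ℝ) := by
  classical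
  have h1 : D ⊆ Q.biUnion (fun q => (Ioc 0 N).filter (fun d => w q ∣ d)) := by
    intro d hd
    obtain ⟨q, hq, h⟩ := hQ d hd
    rw [Finset.mem_biUnion]
    refine ⟨q, hq, ?_⟩
    rw [Finset.mem_filter, Finset.mem_Ioc]
    exact ⟨hD d hd, h⟩
  have h2 : D.card ≤ ∑ q ∈ Q, N / w q := by
    refine (Finset.card_le_card h1).trans (Finset.card_biUnion_le.trans ?_)
    refine Finset.sum_le_sum fun q _ => ?_
    rw [Nat.Ioc_filter_dvd_card_eq_div]
  calc (D.card : ℝ) ≤ ((∑ q ∈ Q, N / w q : ℕ) : ℝ) := by exact_mod_cast h2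
    _ = ∑ q ∈ Q, ((N / w q : ℕ) : ℝ) := by push_cast; rfl
    _ ≤ ∑ q ∈ Q, (N : ℝ) / (w q : ℝ) := Finset.sum_le_sum fun q _ => Nat.cast_div_le

open Classical in
theorem EB_pairs (y u : ℕ) (P : ℕ → Prop) :
    (((PR y u).filter (fun p => P p.1)).card : ℝ) ≤
      (((Ico (2 ^ u) (2 ^ (u + 1))).filter P).card : ℝ) * 2 ^ (u + 1) := by
  have h1 : (PR y u).filter (fun p => P p.1) ⊆
      ((Ico (2 ^ u) (2 ^ (u + 1))).filter P) ×ˢ range (2 ^ (u + 1)) := by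
    intro p hp
    rw [Finset.mem_filter] at hp
    obtain ⟨hp1, hp2⟩ := hp
    unfold PR at hp1
    rw [Finset.mem_filter, Finset.mem_product] at hp1
    rw [Finset.mem_product, Finset.mem_filter]
    exact ⟨⟨hp1.1.1, hp2⟩, hp1.1.2⟩
  have h2 := Finset.card_le_card h1
  rw [Finset.card_product, Finset.card_range] at h2
  exact_mod_cast h2

theorem EB_prt (j d : ℕ) (hd : d ≠ 0) : prt j d ∣ d ∧ 1 ≤ prt j d ∧
    ∀ p : ℕ, p.Prime → p ∣ prt j d → Nat.log 2 p < j := by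
  unfold prt
  have h1 : (∏ p ∈ d.primeFactors.filter (fun p => Nat.log 2 p < j), p ^ d.factorization p) ∣ d := by
    have h2 := Finset.prod_dvd_prod_of_subset (d.primeFactors.filter (fun p => Nat.log 2 p < j))
      d.primeFactors (fun p => p ^ d.factorization p) (Finset.filter_subset _ _)
    have h3 : (∏ p ∈ d.primeFactors, p ^ d.factorization p) = d := by
      exact Nat.prod_factorization_pow_eq_self hd
    rwa [h3] at h2
  refine ⟨h1, Nat.pos_of_dvd_of_pos h1 (Nat.pos_of_ne_zero hd), ?_⟩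
  intro p hp h
  obtain ⟨q, hq, h4⟩ := (hp.prime.dvd_finsetProd_iff _).1 h
  rw [Finset.mem_filter] at hq
  have h5 := hp.dvd_of_dvd_pow h4
  have h6 := (Nat.prime_dvd_prime_iff_eq hp (Nat.prime_of_mem_primeFactors hq.1)).1 h5
  rw [h6]
  exact hq.2

theorem EB_bd (K A : ℕ) (hK : 1 ≤ K) : ∃ c : ℕ, ∀ u : ℕ, 1 ≤ u → A * (Nat.log 2 u + 1) ≤ j0 K u + c := by
  have h1 := tendsto_pow_const_div_const_pow_of_one_lt 2 (one_lt_two (α := ℝ))
  have h2 : (0 : ℝ) < 1 / (2 * K * A + 1) := by positivity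
  have h3 := h1.eventually (gt_mem_nhds h2)
  rw [Filter.eventually_atTop] at h3
  obtain ⟨L0, hL0⟩ := h3
  refine ⟨A * L0, fun u hu => ?_⟩
  by_cases hL : Nat.log 2 u + 1 < L0
  · have := Nat.mul_le_mul_left A hL.le
    omega
  · push Not at hL
    have h4 := hL0 _ hL
    set L := Nat.log 2 u + 1 with hLd
    have hp : (0 : ℝ) < 2 ^ L := by positivity
    have h5 : (L : ℝ) ^ 2 * (2 * K * A + 1) < 2 ^ L := by
      rw [div_lt_div_iff₀ hp (by positivity)] at h4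
      linarith
    have h6 : 2 ^ (L - 1) ≤ u := by
      have : L - 1 = Nat.log 2 u := by omega
      rw [this]
      exact Nat.pow_log_le_self 2 (by omega)
    have h7 : (A * L) * (K * L) ≤ u := by
      refine le_trans ?_ h6
      have e : 2 ^ L = 2 * 2 ^ (L - 1) := by
        have : L = L - 1 + 1 := by omega
        conv_lhs => rw [this, pow_succ, mul_comm]
      have h8 : (2 : ℝ) ^ L = 2 * 2 ^ (L - 1) := by exact_mod_cast e
      have h9 : (((A * L) * (K * L) : ℕ) : ℝ) ≤ ((2 ^ (L - 1) : ℕ) : ℝ) := by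
        push_cast
        rw [h8] at h5
        nlinarith [sq_nonneg (L : ℝ)]
      exact_mod_cast h9
    have h10 : A * L ≤ j0 K u := by
      unfold j0
      rw [Nat.le_div_iff_mul_le (by positivity)]
      exact h7
    omega

open Classical in
theorem EBrow (hP6 : P6_stmt) : EB_stmt := by
  intro C₁
  obtain ⟨K₀, hK₀, hP⟩ := hP6 (7 * C₁ + 1)
  refine ⟨K₀, hK₀, fun K hK => ?_⟩
  obtain ⟨C, hC, hQ⟩ := hP K hK
  obtain ⟨c, hc⟩ := EB_bd K (7 * C₁) (hK₀.trans hK)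
  refine ⟨4 * C * 2 ^ (7 * C₁) + 8 * 2 ^ c, ?_, fun y u s hu hs hsu => ?_⟩
  · have h1 : (1 : ℝ) ≤ 2 ^ (7 * C₁) := one_le_pow₀ (by norm_num)
    have h2 : (0 : ℝ) ≤ 2 ^ c := pow_nonneg (by norm_num) c
    generalize (2 : ℝ) ^ (7 * C₁) = a at h1 ⊢
    generalize (2 : ℝ) ^ c = b at h2 ⊢
    nlinarith
  have hu0 : (0 : ℝ) < u := by exact_mod_cast hu
  have hs7 : s ^ 7 ≤ ((u : ℝ) + 1) ^ (7 * C₁) := by
    rw [mul_comm 7 C₁, pow_mul]
    exact pow_le_pow_left₀ hs.le hsu 7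
  have hN : ((2 ^ (u + 1) : ℕ) : ℝ) * 2 ^ (u + 1) = 4 * 4 ^ u := by
    push_cast
    rw [← mul_pow, pow_succ]
    norm_num
    ring
  refine ⟨?_, ?_⟩
  · -- large smooth part
    have hs7' : (0 : ℝ) ≤ s ^ 7 := pow_nonneg hs.le 7
    refine (mul_le_mul_of_nonneg_right (EB_pairs y u (fun d => (2 : ℝ) ^ ((u : ℝ) / 50) < prt (j0 K u) d)) hs7').trans ?_
    set D := (Ico (2 ^ u) (2 ^ (u + 1))).filter (fun d => (2 : ℝ) ^ ((u : ℝ) / 50) < prt (j0 K u) d) with hD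
    have hd0 : ∀ d ∈ D, d ≠ 0 := by
      intro d hd
      rw [hD, Finset.mem_filter, Finset.mem_Ico] at hd
      have := hd.1.1
      have h2 : 0 < 2 ^ u := by positivity
      omega
    have h1 := EB_cnt (2 ^ (u + 1)) D (D.image (prt (j0 K u))) id (fun d hd => by
      have h0 := hd0 d hd
      rw [hD, Finset.mem_filter, Finset.mem_Ico] at hd
      omega) (fun d hd => ⟨prt (j0 K u) d, Finset.mem_image_of_mem _ hd, (EB_prt _ d (hd0 d hd)).1⟩)
    have h2 := hQ u (D.image (prt (j0 K u))) hu (fun q hq => by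
      rw [Finset.mem_image] at hq
      obtain ⟨d, hd, rfl⟩ := hq
      have h3 := EB_prt (j0 K u) d (hd0 d hd)
      have hd' := hd
      rw [hD, Finset.mem_filter] at hd'
      exact ⟨h3.2.1, hd'.2, h3.2.2⟩)
    have h3 : ∑ q ∈ D.image (prt (j0 K u)), ((2 ^ (u + 1) : ℕ) : ℝ) / ((id q : ℕ) : ℝ) =
        ((2 ^ (u + 1) : ℕ) : ℝ) * ∑ q ∈ D.image (prt (j0 K u)), (1 : ℝ) / q := by
      rw [Finset.mul_sum]
      refine Finset.sum_congr rfl fun q _ => ?_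
      rw [id]
      ring
    rw [h3] at h1
    have h4 : (D.card : ℝ) * 2 ^ (u + 1) ≤ 4 * 4 ^ u * (C / (u : ℝ) ^ (7 * C₁ + 1)) := by
      calc (D.card : ℝ) * 2 ^ (u + 1)
          ≤ (((2 ^ (u + 1) : ℕ) : ℝ) * (C / (u : ℝ) ^ (7 * C₁ + 1))) * 2 ^ (u + 1) := by
            refine mul_le_mul_of_nonneg_right (h1.trans ?_) (by positivity)
            exact mul_le_mul_of_nonneg_left h2 (by positivity)
        _ = (((2 ^ (u + 1) : ℕ) : ℝ) * 2 ^ (u + 1)) * (C / (u : ℝ) ^ (7 * C₁ + 1)) := by ring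
        _ = 4 * 4 ^ u * (C / (u : ℝ) ^ (7 * C₁ + 1)) := by rw [hN]
    have h5 : s ^ 7 ≤ 2 ^ (7 * C₁) * (u : ℝ) ^ (7 * C₁ + 1) := by
      refine hs7.trans ?_
      have h6 : ((u : ℝ) + 1) ^ (7 * C₁) ≤ (2 * (u : ℝ)) ^ (7 * C₁) := by
        have h7 : (1 : ℝ) ≤ u := by exact_mod_cast hu
        exact pow_le_pow_left₀ (by positivity) (by linarith) _
      rw [mul_pow] at h6
      refine h6.trans (mul_le_mul_of_nonneg_left ?_ (by positivity))
      exact pow_le_pow_right₀ (by exact_mod_cast hu) (by omega)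
    calc (D.card : ℝ) * 2 ^ (u + 1) * s ^ 7
        ≤ (4 * 4 ^ u * (C / (u : ℝ) ^ (7 * C₁ + 1))) * (2 ^ (7 * C₁) * (u : ℝ) ^ (7 * C₁ + 1)) :=
          mul_le_mul h4 h5 (by positivity) (by positivity)
      _ = 4 * C * 2 ^ (7 * C₁) * 4 ^ u := by
          field_simp
      _ ≤ (4 * C * 2 ^ (7 * C₁) + 8 * 2 ^ c) * 4 ^ u := by
          refine mul_le_mul_of_nonneg_right ?_ (by positivity)
          have : (0 : ℝ) ≤ 8 * 2 ^ c := by positivity
          linarith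
  · -- a large square
    have hs7' : (0 : ℝ) ≤ s ^ 7 := pow_nonneg hs.le 7
    refine (mul_le_mul_of_nonneg_right (EB_pairs y u (fun d => ∃ l : ℕ, l.Prime ∧ l ^ 2 ∣ d ∧ j0 K u ≤ Nat.log 2 l)) hs7').trans ?_
    set j := j0 K u with hj
    set D := (Ico (2 ^ u) (2 ^ (u + 1))).filter (fun d => ∃ l : ℕ, l.Prime ∧ l ^ 2 ∣ d ∧ j ≤ Nat.log 2 l) with hD
    have h1 := EB_cnt (2 ^ (u + 1)) D (Ioo (2 ^ j - 1) (2 ^ (u + 1))) (fun l => l ^ 2) (fun d hd => by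
      rw [hD, Finset.mem_filter, Finset.mem_Ico] at hd
      have h2 : 0 < 2 ^ u := by positivity
      omega) (fun d hd => by
      rw [hD, Finset.mem_filter, Finset.mem_Ico] at hd
      obtain ⟨⟨hd1, hd2⟩, l, hl, hl2, hl3⟩ := hd
      refine ⟨l, ?_, hl2⟩
      rw [Finset.mem_Ioo]
      have h2 : 0 < 2 ^ u := by positivity
      have h3 := Nat.le_of_dvd (by omega) hl2
      have h4 : 2 ^ j ≤ l := (Nat.pow_le_pow_right (by norm_num) hl3).trans (Nat.pow_log_le_self 2 hl.ne_zero)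
      have h5 : 0 < 2 ^ j := by positivity
      have h6 : l ≤ l ^ 2 := Nat.le_self_pow (by norm_num) l
      omega)
    have h2 : ∑ l ∈ Ioo (2 ^ j - 1) (2 ^ (u + 1)), ((2 ^ (u + 1) : ℕ) : ℝ) / ((l ^ 2 : ℕ) : ℝ) ≤
        ((2 ^ (u + 1) : ℕ) : ℝ) * (2 / 2 ^ j) := by
      have h3 : ∑ l ∈ Ioo (2 ^ j - 1) (2 ^ (u + 1)), ((2 ^ (u + 1) : ℕ) : ℝ) / ((l ^ 2 : ℕ) : ℝ) =
          ((2 ^ (u + 1) : ℕ) : ℝ) * ∑ l ∈ Ioo (2 ^ j - 1) (2 ^ (u + 1)), (((l : ℕ) : ℝ) ^ 2)⁻¹ := by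
        rw [Finset.mul_sum]
        refine Finset.sum_congr rfl fun l _ => ?_
        push_cast
        ring
      rw [h3]
      refine mul_le_mul_of_nonneg_left ?_ (by positivity)
      have h4 := sum_Ioo_inv_sq_le (α := ℝ) (2 ^ j - 1) (2 ^ (u + 1))
      have h5 : (((2 ^ j - 1 : ℕ) : ℝ) + 1) = 2 ^ j := by
        have : 1 ≤ 2 ^ j := Nat.one_le_two_pow
        push_cast [Nat.cast_sub this]
        ring
      rwa [h5] at h4
    have h4 : (D.card : ℝ) * 2 ^ (u + 1) ≤ 4 * 4 ^ u * (2 / 2 ^ j) := by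
      calc (D.card : ℝ) * 2 ^ (u + 1)
          ≤ (((2 ^ (u + 1) : ℕ) : ℝ) * (2 / 2 ^ j)) * 2 ^ (u + 1) :=
            mul_le_mul_of_nonneg_right (h1.trans h2) (by positivity)
        _ = (((2 ^ (u + 1) : ℕ) : ℝ) * 2 ^ (u + 1)) * (2 / 2 ^ j) := by ring
        _ = 4 * 4 ^ u * (2 / 2 ^ j) := by rw [hN]
    have h5 : s ^ 7 ≤ 2 ^ j * 2 ^ c := by
      refine hs7.trans ?_
      have h6 : (u : ℝ) + 1 ≤ 2 ^ (Nat.log 2 u + 1) := by
        have : u < 2 ^ (Nat.log 2 u + 1) := Nat.lt_pow_succ_log_self (by norm_num) u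
        exact_mod_cast this
      calc ((u : ℝ) + 1) ^ (7 * C₁) ≤ (2 ^ (Nat.log 2 u + 1)) ^ (7 * C₁) :=
            pow_le_pow_left₀ (by positivity) h6 _
        _ = 2 ^ ((7 * C₁) * (Nat.log 2 u + 1)) := by rw [← pow_mul, mul_comm]
        _ ≤ 2 ^ (j + c) := pow_le_pow_right₀ (by norm_num) (hc u hu)
        _ = 2 ^ j * 2 ^ c := pow_add _ _ _
    calc (D.card : ℝ) * 2 ^ (u + 1) * s ^ 7
        ≤ (4 * 4 ^ u * (2 / 2 ^ j)) * (2 ^ j * 2 ^ c) :=
          mul_le_mul h4 h5 (by positivity) (by positivity)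
      _ = 8 * 2 ^ c * 4 ^ u := by
          field_simp
          ring
      _ ≤ (4 * C * 2 ^ (7 * C₁) + 8 * 2 ^ c) * 4 ^ u := by
          refine mul_le_mul_of_nonneg_right ?_ (by positivity)
          have : (0 : ℝ) ≤ 4 * C * 2 ^ (7 * C₁) := by positivity
          linarith

end Pool.Agent.RL
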