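import Pool.Agent.helper88.RL.Defs

set_option autoImplicit false

/-!
# Project RL (MP_16912e_nt, real fields, stage 2), block L: the log-free bound for the lattices over `ℤ[φ]`

RULES. Row `XXX`: file `Pool/Agent/<seat>/RL/XXX.lean`, header

  import Pool.Agent.helper88.RL.SpecL
  set_option autoImplicit false
  namespace Pool.Agent.RL
  open Finset Pool.Agent.helper3.FT Pool.Agent.T6 Pool.Agent.RF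

and the theorem line of the lock note; auxiliary lemmas are prefixed `XXX_`. In this namespace `InG, nrm, lamb, RV, PR, Gd, SU, vv, PV, IsoP, NBf, ..` are the definitions of `RL` (they shadow those of T6), everything else is T6. ROWS MARKED `as in T6` ARE MECHANICAL PORTS: copy the file named in the docstring, replace the header and `Nat.Coprime r d` (root, modulus) by `Cop r d`, `3842` by `16384`, and repair.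
No sorry, no straight double quotes, no `convert`, no `congr!`, no `native_decide`. Other rows only as hypotheses `(hYYY : YYY_stmt)` (any row of this file may be added, no circles; rows of T6 and RF that are proved may be cited directly).
-/

namespace Pool.Agent.RL

open Finset Pool.Agent.helper3.FT Pool.Agent.T6 Pool.Agent.RF

/-- **N1** (short; NEW, easy: `b` is a dummy; coordinates. `v ≠ 0` has a coordinate with `|·| ≥ 1 ≥ 1/b⁵`.) -/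
def N1_stmt : Prop :=
  ∀ b : ℝ, 1 ≤ b → ∀ v w : V4, 0 ≤ nrm b v ∧ nrm b (v + w) ≤ nrm b v + nrm b w ∧ nrm b (-v) = nrm b v ∧
    (∀ k : ℤ, nrm b (k • v) = |(k : ℝ)| * nrm b v) ∧ (v ≠ 0 → 1 / b ^ 5 ≤ nrm b v) ∧ nrm b (0 : V4) = 0

/-- **N2** (short; NEW: `FF` is additive and homogeneous in `(a, z)` (`ring`; `va4 (v + w) = va4 v + va4 w` by `ext`), a polynomial in `r`: `(d : OO) ∣ FF ⟨r,1⟩ a z - FF ⟨r',1⟩ a z` if `d ∣ r - r'` (`⟨r,1⟩ = (r : OO) + ph`). For the last: cancel `m` in `OO` (`QuadraticAlgebra`: compare `re`, `im`, or domain WEU).) -/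
def N2_stmt : Prop :=
  (∀ d r : ℕ, InG d r 0) ∧ (∀ (d r : ℕ) (v w : V4), InG d r v → InG d r w → InG d r (v + w) ∧ InG d r (-v)) ∧
  (∀ (d r : ℕ) (v : V4) (k : ℤ), InG d r v → InG d r (k • v)) ∧
  (∀ (d r : ℕ) (v : V4), InG d r ((d : ℤ) • v)) ∧
  (∀ (d d' r : ℕ) (v : V4), d' ∣ d → InG d r v → InG d' r v) ∧
  (∀ (d r r' : ℕ) (v : V4), r ≡ r' [MOD d] → InG d r v → InG d r' v) ∧
  (∀ (m d r : ℕ) (v : V4), 1 ≤ m → (InG (m * d) r ((m : ℤ) • v) ↔ InG d r v))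

/-- **N3** (short; NEW: from N2 the same `r''` for both, then `IsCoprime (d : OO) (d' : OO)` (from `ℤ`) and `IsCoprime.mul_dvd`.) -/
def N3_stmt : Prop :=
  ∀ (d d' r r' r'' : ℕ) (v : V4), Nat.Coprime d d' → InG d r v → InG d' r' v → r'' ≡ r [MOD d] → r'' ≡ r' [MOD d'] →
    InG (d * d') r'' v

/-- **N4**: as in T6 (Pool/Agent/helper93/T6/N4.lean). -/
def N4_stmt : Prop :=
  ∀ (b : ℝ) (d r : ℕ), 1 ≤ b → 1 ≤ d → (∃ v : V4, v ≠ 0 ∧ InG d r v ∧ nrm b v = lamb b d r) ∧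
    ∀ v : V4, v ≠ 0 → InG d r v → lamb b d r ≤ nrm b v

/-- **N5**: as in T6 (Pool/Agent/helper93/T6/N5.lean). -/
def N5_stmt : Prop :=
  ∀ (b : ℝ), 1 ≤ b → (∀ d r : ℕ, 1 ≤ d → 1 / b ^ 5 ≤ lamb b d r ∧ lamb b d r ≤ d) ∧
    (∀ d d' r : ℕ, 1 ≤ d → d' ∣ d → lamb b d' r ≤ lamb b d r) ∧
    (∀ m d r : ℕ, 1 ≤ m → 1 ≤ d → lamb b (m * d) r ≤ m * lamb b d r) ∧
    (∀ d r r' : ℕ, 1 ≤ d → r ≡ r' [MOD d] → lamb b d r = lamb b d r')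

/-- **NBD** (medium; from GP (`GP_stmt`), GR, N1, N2, N4 of this file; model Pool/Agent/helper72/T6/NBD.lean with all sides `V` (`S k = V`, product `14641 V⁴`; in the second case `GR` with `S = 1`, `lam = lamb`). The surjective homomorphism: `v ↦ FF ⟨r,1⟩ a z` to `OO / d = ZMod d × ZMod d` (`(re, im)`). SURJECTIVE for `gcd(d, 5) = 1`: `K = ⟨r,1⟩`, `K - K' = r5`, so `r5⁷ = x K³ + y K'⁵` with some `x, y` (binomial), `5 r5⁷` is a unit modulo `d` (inverse `u`): for a target `t`: `z := - K² star(y u' t')..`: choose `w` with `w' = - y u t·` (so that `- w' K'⁵ = y u t K'⁵`), `z = K² w`, then `FF K a z = 5 a K³ + 2 φ' w K³ K'² - w' K'⁵`, and `5 a = x u t - 2 φ' w K'²` modulo `d` (5 is invertible modulo `d`).) -/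
def NBD_stmt : Prop :=
  ∀ (b V : ℝ) (d r : ℕ) (F : Finset V4), 1 ≤ b → 1 ≤ d → Nat.Coprime d 5 → (∀ v ∈ F, v ≠ 0 ∧ InG d r v ∧ nrm b v ≤ V) →
    (F.card : ℝ) ≤ 14641 * V ^ 4 / (d : ℝ) ^ 2 ∨ (lamb b d r ≤ V ∧ (F.card : ℝ) ≤ 343 * (V / lamb b d r) ^ 3)

/-- **NBC** (medium; NEW. The number of residue classes modulo `m` of the vectors in `Γ_{m,r}` is `m²` (kernel of a surjective map `(ZMod m)⁴ → (ZMod m)²`, see NBD for the surjectivity), and every class modulo `m` has at most `(2 V/m + 1)⁴ ≤ (3 V/m)⁴` points with coordinates in `[-V, V]`: `81 V⁴/m²`.) -/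
def NBC_stmt : Prop :=
  ∀ (b V : ℝ) (m r : ℕ) (F : Finset V4), 1 ≤ b → 1 ≤ m → Nat.Coprime m 5 → (m : ℝ) * b ^ 5 ≤ V →
    (∀ v ∈ F, InG m r v ∧ nrm b v ≤ V) → (F.card : ℝ) ≤ 81 * V ^ 4 / (m : ℝ) ^ 2

open Classical in
/-- **NRT** (medium; model Pool/Agent/helper43/T6/NRT.lean; from `WSE_stmt`, `WRO_stmt` (hypotheses `h1 : WSE_stmt`, `h2 : WRO_stmt`; both proved: `WSE_final`, `WRO_final` in Pool/Agent/helper88/RF/AllW.lean). Classes of `r` modulo `p ∣ d`: `clp p ⟨r,1⟩ = some r`: at most 3 (WRO: not both `p ∣ a`, `p ∣ z` by `Pm`). Two `r, r'` congruent modulo all `p ∣ d`: `dt ⟨r,1⟩ ⟨r',1⟩ = r' - r`, WSE gives `d ∣ r - r'`.) -/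
def NRT_stmt : Prop :=
  ∀ (d : ℕ) (v : V4), 1 ≤ d → Rgh 5 d → Pm d v →
    ((range d).filter (fun r => Cop r d ∧ InG d r v)).card ≤ 3 ^ d.primeFactors.card

/-- **NRV** (medium; NEW. (1) as WDV (Pool/Agent/helper78/RF/WDV.lean; the identity `U F1 + W F2 = -5 Rf κ⁵`): `d ∣ 5 φ'³ R0 K'⁵`, and the conjugate: `d ∣ 5 φ³ R0 K⁵` (`star d = d`, `star (R0 : OO) = R0`), `K = ⟨r,1⟩`; `K - K' = r5`, so `r5⁹ ∈ (K⁵, K'⁵)`, `d ∣ 5 r5⁹ R0`, `d ∣ 5⁶ R0`, `d` is prime to 5. No condition on `norm (r + φ)`. (2) coordinates `≤ V`: `|norm x| ≤ 5/4 V²`, `(125/64)(1 + 75 + 625 + 3125) ≤ 7475`; `|trO (φ³ a z'⁵)| ≤ 4.3 · 2.62 · 1.62⁵ V⁶ + 0.3 · 1.62 · 2.62⁵ V⁶ ≤ 200 V⁶` (WVA: `trO = va + vb`); `8 · 200 + 7475 ≤ 16384`.) -/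
def NRV_stmt : Prop :=
  (∀ (d r : ℕ) (v : V4), Nat.Coprime d 5 → InG d r v → (d : ℤ) ∣ RV v) ∧
  ∀ (b : ℝ) (v : V4), 1 ≤ b → |(RV v : ℝ)| ≤ 16384 * nrm b v ^ 6

open Classical in
/-- a chosen shortest vector with nonzero resultant -/
noncomputable def vv (b : ℝ) (d r : ℕ) : V4 := if h : Gd b d r then h.choose else 0

/-- the primes attached to `v` -/
def PV (y : ℕ) (v : V4) (p : ℕ) : Prop := p.Prime ∧ y < p ∧ ∃ r : ℕ, Cop r p ∧ InG p r v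

/-- `p` is an isolated prime of `(d, v)` -/
def IsoP (y : ℕ) (v : V4) (d p : ℕ) : Prop :=
  p.Prime ∧ p ∣ d ∧ ¬ p ^ 2 ∣ d ∧ ∀ p' : ℕ, PV y v p' → Nat.log 2 p' = Nat.log 2 p → p' = p

/-- **VVP**: as in T6 (Pool/Agent/helper93/T6/VVP.lean). -/
def VVP_stmt : Prop :=
  ∀ (b : ℝ) (y u : ℕ) (s : ℝ), 1 ≤ b → 5 ≤ y → 1 ≤ s → ∀ p ∈ SU b y u s,
    InG p.1 p.2 (vv b p.1 p.2) ∧ nrm b (vv b p.1 p.2) = lamb b p.1 p.2 ∧ RV (vv b p.1 p.2) ≠ 0 ∧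
    nrm b (vv b p.1 p.2) ≤ √(2 ^ u) / s ^ 2 ∧ vv b p.1 p.2 ≠ 0 ∧
    (∀ q : ℕ, q.Prime → q ∣ p.1 → PV y (vv b p.1 p.2) q) ∧ (p.1 : ℤ) ∣ RV (vv b p.1 p.2)

/-- **PAR**: as in T6 (Pool/Agent/helper61/T6/PAR.lean). -/
def PAR_stmt : Prop :=
  ∀ (y j d r : ℕ) (v : V4), 5 ≤ y → 1 ≤ d → Rgh y d → Cop r d → InG d r v →
    (∀ p : ℕ, IsoP y v d p → j ≤ Nat.log 2 p) →
    ∃ q' ∈ QP y j (prt j d), Nat.Coprime q' d ∧ ∃ r' : ℕ, Cop r' q' ∧ InG q' r' v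

open Classical in
/-- the number of vectors counted in the selection step -/
noncomputable def NBf (b V : ℝ) (H r i : ℕ) : ℝ :=
  ({v : V4 | v ≠ 0 ∧ InG H r v ∧ nrm b v ≤ V ∧ (Gd b H r ∨ nrm b v ≤ 2 ^ (i + 1) * lamb b H r)}.ncard : ℝ)

open Classical in
/-- **TRN**: as in T6 (Pool/Agent/helper71/T6/TRN.lean). -/
def TRN_stmt : Prop :=
  ∀ (b : ℝ) (y u i : ℕ) (s : ℝ) (S : Finset (ℕ × ℕ)) (Q : Finset ℕ) (D : ℕ → Finset ℕ), 1 ≤ b → 5 ≤ y → 1 ≤ s →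
    S ⊆ SU b y u s → (∀ p ∈ S, Pm p.1 (vv b p.1 p.2) ∧ ∃ l q' : ℕ, IsoP y (vv b p.1 p.2) p.1 l ∧ Nat.log 2 l = i ∧
      q' ∈ Q ∧ Nat.Coprime q' p.1 ∧ (∃ r' : ℕ, Cop r' q' ∧ InG q' r' (vv b p.1 p.2)) ∧ 1 ≤ q' ∧ p.1 / l * q' ∈ D q') →
    (S.card : ℝ) ≤ 3 * ∑ q' ∈ Q, ∑ H ∈ D q', ∑ r ∈ (range H).filter (fun r => Cop r H),
      NBf b (√(2 ^ u) / s ^ 2) H r i

open Classical in
/-- **NBF**: as in T6 (Pool/Agent/helper68/T6/NBF.lean). -/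
def NBF_stmt : Prop :=
  ∀ (b V : ℝ) (H r i : ℕ), 1 ≤ b → 1 ≤ H → Nat.Coprime H 5 → 0 ≤ V →
    NBf b V H r i ≤ 14641 * V ^ 4 / (H : ℝ) ^ 2 +
      (if Gd b H r ∧ lamb b H r ≤ V then 343 * (V / lamb b H r) ^ 3 else 0) +
      (if ¬ Gd b H r ∧ lamb b H r ≤ V then 343 * 8 ^ (i + 1) else 0)

/-- the induction hypothesis -/
def IH (b : ℝ) (y : ℕ) (Φ : ℕ → ℝ) (u : ℕ) : Prop :=
  ∀ w < u, ∀ s : ℝ, 0 < s → ((SU b y w s).card : ℝ) * s ^ 7 ≤ Φ w * 4 ^ w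

/-- **C0**: as in T6 (Pool/Agent/helper68/T6/C0.lean). -/
def C0_stmt : Prop :=
  (∀ y u : ℕ, ((PR y u).card : ℝ) ≤ 2 * 4 ^ u) ∧
  ∀ (b : ℝ) (y u : ℕ) (s : ℝ), 1 ≤ b → 0 < s →
    ((SU b y u s).card : ℝ) * s ^ 7 ≤ 2 * 4 ^ u * ((2 : ℝ) ^ (7 * (u : ℝ) / 4) * b ^ 18)

/-- **C2**: as in T6 (Pool/Agent/helper24/T6/C2.lean). -/
def C2_stmt : Prop :=
  ∀ ε : ℝ, 0 < ε → ∃ C : ℝ, 1 ≤ C ∧ ∀ (b : ℝ) (y u : ℕ) (s : ℝ), 1 ≤ b → 5 ≤ y → 1 ≤ s →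
    ((SU b y u s).card : ℝ) ≤ C * (2 : ℝ) ^ (ε * u) * b ^ 40 * (4 ^ u / s ^ 8)

open Classical in
/-- **C3**: as in T6 (Pool/Agent/helper11/T6/C3.lean). -/
def C3_stmt : Prop :=
  ∃ C : ℝ, 1 ≤ C ∧ (∀ y u : ℕ, (((PR y u).filter (fun p => (2 : ℝ) ^ ((u : ℝ) / 25) < pw p.1)).card : ℝ) ≤
      C * 4 ^ u * (2 : ℝ) ^ (-((u : ℝ) / 50))) ∧
    ∀ S : Finset ℕ, (∀ s ∈ S, 1 ≤ s ∧ ∀ p : ℕ, p.Prime → p ∣ s → p ^ 2 ∣ s) →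
      ∑ s ∈ S, (4 : ℝ) ^ s.primeFactors.card / s ≤ C

open Classical in
/-- **C4**: as in T6 (Pool/Agent/helper57/T6/C4.lean). -/
def C4_stmt : Prop :=
  ∃ C : ℝ, 1 ≤ C ∧ ∀ (b : ℝ) (y u : ℕ) (s : ℝ) (Φ : ℕ → ℝ), 1 ≤ b → 5 ≤ y → 1 ≤ s → Pot Φ → IH b y Φ u →
    (((SU b y u s).filter (fun p => ¬ Pm p.1 (vv b p.1 p.2))).card : ℝ) * s ^ 7 ≤ C / y * Φ u * 4 ^ u

open Classical in
/-- **C5**: as in T6 (Pool/Agent/helper66/T6/C5.lean). -/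
def C5_stmt : Prop :=
  ∃ C : ℝ, 1 ≤ C ∧ ∀ (b : ℝ) (y u : ℕ) (Φ : ℕ → ℝ), 1 ≤ b → Pot Φ → IH b y Φ u → ∀ w < u, ∀ V : ℝ, 0 < V →
    ∑ p ∈ (PR y w).filter (fun p => Gd b p.1 p.2 ∧ lamb b p.1 p.2 ≤ V), (V / lamb b p.1 p.2) ^ 3 ≤
      C * Φ w * 4 ^ w * (V / √(2 ^ w)) ^ (7 / 2 : ℝ)

open Classical in
/-- **C6**: as in T6 (Pool/Agent/helper11/T6/C6.lean). -/
def C6_stmt : Prop :=
  ∃ C : ℝ, 1 ≤ C ∧ ∀ (b : ℝ) (y u w₀ : ℕ) (s : ℝ) (Φ : ℕ → ℝ), 1 ≤ b → 1 ≤ s → Pot Φ → IH b y Φ u → w₀ < u →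
    (∑ w ∈ range (w₀ + 1), ∑ p ∈ (PR y w).filter (fun p => Gd b p.1 p.2 ∧ lamb b p.1 p.2 ≤ √(2 ^ u) / s ^ 2),
      343 * (√(2 ^ u) / s ^ 2 / lamb b p.1 p.2) ^ 3) * s ^ 7 ≤ C * Φ u * 4 ^ u * (2 : ℝ) ^ (-(((u - w₀ : ℕ) : ℝ) / 5))

/-- the plane of the vectors with root `n + k φ` -/
def InW (n k : ℤ) (v : V4) : Prop := FF ⟨n, k⟩ (va4 v) (vz4 v) = 0

/-- **Z1** (short-medium; NEW; from WEU, WVA). Parametrisation of the plane.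
PROOF. `K = ⟨n, k⟩`, `K' = star K`, `5 a K³ + 2 φ' z K K'² = z' K'³` (R). The conjugate of (R): `z K³ = 5 a' K'³ + 2 φ z' K' K²`; times `K'²` and (R): `z K³ K'² = 5 a' K'⁵ + 2 φ K² (5 a K³ + 2 φ' z K K'²) = 5 a' K'⁵ + 10 φ a K⁵ - 4 z K³ K'²` (`φ φ' = -1`), so `5 z K³ K'² = 5 (a' K'⁵ + 2 φ a K⁵)`: the second claim.
It gives `K³ ∣ a' K'⁵`, so `K³ ∣ a' (x K'⁵ + y K⁵)` for all `x, y`. `K - K' = k r5`, `φ K' - φ' K = n r5` (`star ⟨n, k⟩ = ⟨n + k, - k⟩`; check with `ring`), `n, k` coprime: `r5 ∈ (K, K')`, so `r5⁹ ∈ (K⁵, K'⁵)` (binomial: `(x K + y K')⁹`), so `K³ ∣ a' r5⁹`, hence `K³ ∣ 5⁵ a'` (`r5² = 5`); conjugate. -/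
def Z1_stmt : Prop :=
  ∀ (n k : ℤ) (v : V4), IsCoprime n k → InW n k v → (∃ α : OO, 3125 * va4 v = star ⟨n, k⟩ ^ 3 * α) ∧
    vz4 v * (⟨n, k⟩ : OO) ^ 3 * star ⟨n, k⟩ ^ 2 = star (va4 v) * star ⟨n, k⟩ ^ 5 + 2 * ph * va4 v * (⟨n, k⟩ : OO) ^ 5

/-- **Z2** (medium; NEW; from Z1, WVA). Sizes.
PROOF. `V ≥ 1` (`v ≠ 0`; a nonzero integer coordinate). If `a = 0` then Z1 gives `z = 0` (`K ≠ 0`, domain), so `a ≠ 0`, `α ≠ 0`, `|va α| |vb α| ≥ 1` (WVA). `|va a|, |vb a|, |va z|, |vb z| ≤ 3 V` (coordinates `≤ V`). Put `k₁ = |va K|`, `k₂ = |vb K|`, `α₁ = |va α|`, `α₂ = |vb α|`: `k₂³ α₁ = 3125 |va a| ≤ 10⁴ V`, `k₁³ α₂ ≤ 10⁴ V`.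
The relation of Z1 at the two places, multiplied by 3125 and divided by `k₁³ k₂²` resp. `k₂³ k₁²` (with `3125 a = K'³ α`, `3125 a' = K³ α'`): `3125 z = K'³ α' + 2 φ K² K' α` (cancel `K³ K'²` in `OO`). At the first place: `2 φ k₁² k₂ α₁ ≤ 10⁴ V + k₂³ α₂`, at the second place (`|φ'| ≥ 1/2`): `k₂² k₁ α₂ ≤ 10⁴ V + k₁³ α₁`, and also `k₁³ α₁ ≤ 10⁴ V + 2 k₂² k₁ α₂`, `k₂³ α₂ ≤ 10⁴ V + 4 k₁² k₂ α₁`.
If `k₁ ≥ k₂`: `k₁³ α₁ ≤ 10⁴ V + 2 k₁³ α₂ ≤ 3 · 10⁴ V`, so `k₁⁶ ≤ k₁⁶ α₁ α₂ ≤ 3 · 10⁸ V²`, `k₁³ ≤ 2 · 10⁴ V`. If `k₂ ≥ k₁`: `k₂³ α₂ ≤ 10⁴ V + 4 k₂³ α₁ ≤ 5 · 10⁴ V`, the same. So `k₁³, k₂³ ≤ 3 · 10⁴ V`; `|k| = |va K - vb K|/√5 ≤ max`, `|n| ≤ max` (`n = (φ vb K - φ' va K)/√5`). -/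
def Z2_stmt : Prop :=
  ∃ C : ℝ, 1 ≤ C ∧ ∀ (b V : ℝ) (n k : ℤ) (v : V4), 1 ≤ b → IsCoprime n k → InW n k v → v ≠ 0 → nrm b v ≤ V →
    |(n : ℝ)| ^ 3 ≤ C * V ∧ |(k : ℝ)| ^ 3 ≤ C * V

/-- **Z3** (medium; model Pool/Agent/helper74/T6/Z3.lean, separation: Pool/Agent/helper63/FT/P2.lean and WSE). The determinant.
PROOF. In `OO`, `A = a`, `A' = - φ' z`, `B = - z'`, `X = - φ' a'`, `N = ⟨n, k⟩`, `κ = N'`, `N₁ = ⟨r, 1⟩`, `κ₁ = N₁'`: `5 A N³ - 2 A' N κ² + B κ³ = 0`, `A' N³ + 2 B N² κ - 5 X κ³ = 0` (the second is `φ'` times the conjugate of the first), and the same with `N₁, κ₁` modulo `p^a`. As in Z3 of T6: `adj(M) M v = det M v`, `det M = -25 D² E²`, `D = N κ₁ - N₁ κ = ± √5 (k r - n)`, `E = α² + 3 α β + β²`, `α = N κ₁`, `β = N₁ κ`.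
`E = D² + 5 α β = 5 ((k r - n)² + norm N · norm N₁) = 5 ((n + k) r - k)(n r + n - k)` (`ring` in integers). So `p^a` divides the integer `det M = - 5⁵ (k r - n)² (..)²` times `a`, `z`; some coordinate of `v` is prime to `p` (`Pm p v`, `p` prime, so by `Pm` at `p`), hence `p^a ∣ (k r - n)² (..)²`. If `p ∤ k r - n`: the second claim.
If `p ∣ k r - n`: `norm N · norm N₁ = 5⁻¹ E - (k r - n)²`; `p ∤ norm N₁` (`Cop r p`), and `N ≡ c N₁` modulo `p` (`k r ≡ n`: `N = n + k φ ≡ k (r + φ)`, `p ∤ k` because otherwise `p ∣ n`), so `p ∤ norm N`: WSE with `h = p^a`, `k := N`, `k₁ := N₁`, `dt N N₁ = k r - n` (`WSE_stmt` may be taken as hypothesis). -/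
def Z3_stmt : Prop :=
  ∀ (p a r : ℕ) (n k : ℤ) (v : V4), p.Prime → 5 < p → 1 ≤ a → Cop r p → IsCoprime n k → InW n k v →
    Pm p v → InG (p ^ a) r v →
    ((p : ℤ) ∣ k * r - n → (p : ℤ) ^ a ∣ k * r - n) ∧
    (¬ (p : ℤ) ∣ k * r - n → (p : ℤ) ^ a ∣ (((n + k) * r - k) * (n * r + n - k)) ^ 2)

open Classical in
/-- **Z4** (medium; model Pool/Agent/helper27/T6/Z4.lean). Number of `r` modulo `p^a`.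
PROOF. `c = ⌈a/2⌉`: `p^c ∣ l₁ l₂`, `l₁ = (n + k) r - k`, `l₂ = n r + n - k`, `l₁ l₂ = (k r - n)² + (n² + n k - k²)(r² + r - 1)`. If `p` divides both `l₁` and `l₂` then `p ∣ n l₁ - (n + k) l₂ = - (n² + n k - k²)·(..)`: precisely `(n + k) l₂ - n l₁ = n² + n k - k²`, so `p ∣ n² + n k - k²` and `p ∣ (k r - n)²`: excluded. So `p^c ∣ l₁` or `p^c ∣ l₂`.
`p ∤ n + k` if `p ∣ l₁` (else `p ∣ k`, `p ∣ n`), so `r` is determined modulo `p^c`; `p ∤ n` if `p ∣ l₂` (else `p ∣ k`): the same. At most 2 classes modulo `p^c`, each has `p^(a-c)` lifts, `a - c = a / 2`. -/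
def Z4_stmt : Prop :=
  ∀ (p a : ℕ) (n k : ℤ), p.Prime → 5 < p → 1 ≤ a → IsCoprime n k →
    (((range (p ^ a)).filter (fun r => ¬ (p : ℤ) ∣ k * r - n ∧
      (p : ℤ) ^ a ∣ (((n + k) * r - k) * (n * r + n - k)) ^ 2)).card) ≤ 2 * p ^ (a / 2)

open Classical in
/-- **Z5** (medium; port of Pool/Agent/helper22/T6/Z5.lean; from Z3, Z4). Pairs for one plane. `H = H₁ E`, `H₁` the part of `H` with the primes dividing `k r - n`: by Z3 `H₁ ∣ k r - n`, so `r` modulo `H₁` is determined (`p ∣ H₁`, `p ∣ k` would give `p ∣ n`); modulo every `p^a ∥ E` at most `2 p^(a/2)` values (Z4). The rest as in T6. -/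
def Z5_stmt : Prop :=
  ∀ ε : ℝ, 0 < ε → ∃ C : ℝ, 1 ≤ C ∧ ∀ (y w : ℕ) (n k : ℤ), 5 ≤ y → IsCoprime n k →
    (((PR y w).filter (fun p => ∃ v : V4, Pm p.1 v ∧ InW n k v ∧ InG p.1 p.2 v)).card : ℝ) ≤
      C * (2 : ℝ) ^ ((1 + ε) * w)

/-- **Z6** (medium; NEW; from WRT, WEU). Vectors with resultant zero.
PROOF. WRT for `a, z`: the second alternative is the special case (`z ≠ 0`: otherwise `5 a z'² = 0`.. if `z = 0` then `R0 = - 3125 (norm a)³`, so `a = 0`, `v = 0`). Otherwise there are `N, κ ∈ OO`, nonzero, with `F1(N, κ) := 5 a N³ + 2 φ' z N κ² - z' κ³ = 0` and `F2(N, κ) := φ' z N³ + 2 z' N² κ - 5 φ' a' κ³ = 0`. Identity: `F2(κ', N') = - φ' star (F1(N, κ))` (`φ φ' = -1`, `ring`), so also `F1(κ', N') = 0` up to a unit (conjugate the identity) and `F2(κ', N') = 0`.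
Case `N N' = κ κ'`: then `N = κ' t..`: put `K := N + κ'`; if `K ≠ 0` then `K κ = N κ + κ κ' = N κ + N N' = N (κ + N') = N K'`, so `N / κ = K / K'` and `FF K a z = 0` (multiply `F1(N, κ) = 0` by `K'³` and replace `N K'` by `K κ`; cancel `κ³`). If `K = 0`, `N = - κ'`: take `K := r5 κ'`: `K' = - r5 κ = ..`, `K κ = r5 κ κ'`, `N K' = κ' r5 κ`: the same. `K = m ⟨n, k⟩` with `m` the content (`FF` is homogeneous of degree 3 in `K` for integers `m`: cancel `m³`), `n, k` coprime.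
Case `N N' ≠ κ κ'`: the two common zeros `(N, κ)`, `(κ', N')` are different. Resultant computation: from `F1(N, κ) = F1(κ', N') = 0`, `F2(N, κ) = F2(κ', N') = 0` deduce `5 a z'² + φ'³ z³ = 0`: (in the field of fractions, `λ = N/κ`, `μ = κ'/N'`, `σ = λ + μ`, `π = λ μ`; `(F1(λ) - F1(μ))/(λ - μ)`: `5 a (σ² - π) + 2 φ' z = 0`; `F1`: `z' = 5 a λ³ + 2 φ' z λ = 5 a (λ³ - λ (σ² - π)) = - 5 a σ π`; `(F2(λ) - F2(μ))/(λ - μ)`: `φ' z (σ² - π) + 2 z' σ = 0`. Insert: `- (5 a / 2)(σ² - π)² - 10 a σ² π = 0`, `a ≠ 0` (else `z = 0`): `(σ² + π)² = 0`, `π = - σ²`; `φ' z = - 5 a σ²`, `z' = 5 a σ³`: `5 a z'² = 125 a³ σ⁶ = - φ'³ z³`.) -/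
def Z6_stmt : Prop :=
  ∀ v : V4, v ≠ 0 → RV v = 0 → (∃ n k : ℤ, IsCoprime n k ∧ InW n k v) ∨
    (vz4 v ≠ 0 ∧ 5 * va4 v * star (vz4 v) ^ 2 = -(star ph ^ 3 * vz4 v ^ 3))

/-- **Z7** (medium-long; NEW; from WEU, WVA, WDB). The special vectors.
PROOF. `z` determines `a` (cancel `5 z'²`). `m := |norm z| ≤ 5/4 V²`, `m ≥ 1`. CLAIM: `p ∣ m → p² ∣ m` for every prime `p`. Let `π` be a prime element of `OO` with `π ∣ p` (`OO` is a UFD by WEU). `π ∣ z z'`, so `π ∣ z` or `π ∣ z'`; `z'² ∣ z³` (`φ'` is a unit), `z² ∣ z'³` (conjugate): in both cases `π ∣ z` and `π ∣ z'`, so `π' ∣ z' ' = z` too. If `p ∤ π²·unit`: the norm of `π` is `± p` or `± p²`. If `± p²`: `π ~ p`, `p ∣ z`, `p² ∣ m`. If `± p` and `p ≠ 5`: `π` and `π'` are not associated, so `p ~ π π' ∣ z`, `p² ∣ m`. If `p = 5`: `π ~ r5`, `z = r5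 z₁`, `z' = - r5 z₁'`: `5 a · 5 z₁'² = - φ'³ 5 r5 z₁³`, so `r5 a z₁'² = - φ'³ z₁³` (`5 = r5²`, cancel), so `r5 ∣ z₁` (prime), `5 ∣ z`, `25 ∣ m`.
(Shorter way for all `p`: `π² ∣ z z'` and `π'² ∣ z z'`.. gives `p² ∣ m` for `p ≠ 5` split.) So `m` is powerful: `m = s² t³`: the number of `m ≤ X` is at most `∑_t √(X/t³) ≤ 3 √X` (see C3, Pool/Agent/helper11/T6/C3.lean). For given `m`: `z ∣ (m : OO)` and `|va z|, |vb z| ≤ 3 V`: WDB: at most `C V^ε` values `z` (`T = ⌈3 V⌉`, `j = 3`, `m` or `- m`). -/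
def Z7_stmt : Prop :=
  ∀ ε : ℝ, 0 < ε → ∃ C : ℝ, 1 ≤ C ∧ ∀ (b V : ℝ) (F : Finset V4), 1 ≤ b → 1 ≤ V → (∀ v ∈ F, nrm b v ≤ V ∧
    vz4 v ≠ 0 ∧ 5 * va4 v * star (vz4 v) ^ 2 = -(star ph ^ 3 * vz4 v ^ 3)) →
    (F.card : ℝ) ≤ C * V ^ (1 + ε)

open Classical in
/-- **Z8**: as in T6 (Pool/Agent/helper54/T6/Z8.lean). -/
def Z8_stmt : Prop :=
  ∀ ε : ℝ, 0 < ε → ∃ C : ℝ, 1 ≤ C ∧ ∀ (b V : ℝ) (y w : ℕ), 1 ≤ b → 5 ≤ y → 0 < V → V * b ^ 5 < 2 ^ w →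
    (((PR y w).filter (fun p => ∃ v : V4, v ≠ 0 ∧ InG p.1 p.2 v ∧ RV v = 0 ∧ nrm b v ≤ V)).card : ℝ) ≤
      C * b ^ 5 * V * (2 : ℝ) ^ ((1 + ε) * w)

open Classical in
/-- **Z9**: as in T6 (Pool/Agent/helper1/T6/Z9.lean). -/
def Z9_stmt : Prop :=
  ∃ C : ℝ, 1 ≤ C ∧ ∀ (b : ℝ) (y u : ℕ) (s : ℝ), MR b u s → 5 ≤ y →
    ∑ w ∈ range u, (((PR y w).filter (fun p => ¬ Gd b p.1 p.2 ∧ lamb b p.1 p.2 ≤ √(2 ^ u) / s ^ 2)).card : ℝ) ≤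
      C * b ^ 5 * (2 : ℝ) ^ (151 * (u : ℝ) / 100)

open Classical in
/-- the pairs treated by selection: primitive, small powerful part -/
noncomputable def SB (b : ℝ) (y u : ℕ) (s : ℝ) : Finset (ℕ × ℕ) :=
  (SU b y u s).filter (fun p => Pm p.1 (vv b p.1 p.2) ∧ ¬ ((2 : ℝ) ^ ((u : ℝ) / 25) < pw p.1))

open Classical in
/-- case I: the smallest block with an isolated prime is `i` -/
noncomputable def SI (b : ℝ) (y u : ℕ) (s : ℝ) (i : ℕ) : Finset (ℕ × ℕ) :=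
  (SB b y u s).filter (fun p => (∃ l : ℕ, IsoP y (vv b p.1 p.2) p.1 l ∧ Nat.log 2 l = i) ∧
    ∀ l : ℕ, IsoP y (vv b p.1 p.2) p.1 l → i ≤ Nat.log 2 l)

open Classical in
/-- case I, the part `q` of `d` in the blocks `< j0 K i` is given -/
noncomputable def SIq (b : ℝ) (y u : ℕ) (s : ℝ) (K i q : ℕ) : Finset (ℕ × ℕ) :=
  (SI b y u s i).filter (fun p => prt (j0 K i) p.1 = q)

/-- **DA**: as in T6 (Pool/Agent/helper1/T6/DA.lean). -/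
def DA_stmt : Prop :=
  ∀ (b : ℝ) (y u K i q : ℕ) (s : ℝ), 1 ≤ b → 32 ≤ y → 1 ≤ s → 1 ≤ K →
    ((SIq b y u s K i q).card : ℝ) ≤ 3 * ∑ q' ∈ QP y (j0 K i) q, ∑ H ∈ DH y u i (j0 K i) q q',
      ∑ r ∈ (range H).filter (fun r => Cop r H), NBf b (√(2 ^ u) / s ^ 2) H r i

open Classical in
/-- **DB**: as in T6 (Pool/Agent/helper28/T6/DB.lean). -/
def DB_stmt : Prop :=
  ∃ C : ℝ, 1 ≤ C ∧ ∀ (y u K i q q' : ℕ) (s : ℝ), 1 ≤ s → 1 ≤ K → 1 ≤ i → i ≤ 2 * u / 25 → 1 ≤ q → 1 ≤ q' →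
    (q : ℝ) ≤ (2 : ℝ) ^ ((i : ℝ) / 20) →
    ∑ H ∈ DH y u i (j0 K i) q q', ∑ r ∈ (range H).filter (fun r => Cop r H),
      14641 * (√(2 ^ u) / s ^ 2) ^ 4 / (H : ℝ) ^ 2 ≤ C * (4 ^ u / s ^ 8) / (q * q' * (j0 K i + 1))

open Classical in
/-- **DC**: as in T6 (Pool/Agent/helper1/T6/DC.lean). -/
def DC_stmt : Prop :=
  ∃ C : ℝ, 1 ≤ C ∧ ∀ (b : ℝ) (y u j i q q' : ℕ) (s : ℝ) (Φ : ℕ → ℝ), MR b u s → 5 ≤ y → Pot Φ → IH b y Φ u →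
    5 ≤ i → i ≤ 2 * u / 25 → (q' : ℝ) ≤ (2 : ℝ) ^ (3 * (i : ℝ) / 50) → 1 ≤ q' →
    (∑ H ∈ DH y u i j q q', ∑ r ∈ (range H).filter (fun r => Cop r H),
      ((if Gd b H r ∧ lamb b H r ≤ √(2 ^ u) / s ^ 2 then 343 * (√(2 ^ u) / s ^ 2 / lamb b H r) ^ 3 else 0) +
      (if ¬ Gd b H r ∧ lamb b H r ≤ √(2 ^ u) / s ^ 2 then 343 * 8 ^ (i + 1) else 0))) * s ^ 7 ≤
      C * Φ u * 4 ^ u * (2 : ℝ) ^ (-(47 * (i : ℝ) / 250)) + C * 8 ^ i * (2 : ℝ) ^ (158 * (u : ℝ) / 100)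

/-- **DD**: as in T6 (Pool/Agent/helper63/T6/DD.lean). -/
def DD_stmt : Prop :=
  ∃ C : ℝ, 1 ≤ C ∧ ∀ (b : ℝ) (y u K i q : ℕ) (s : ℝ) (Φ : ℕ → ℝ), MR b u s → 32 ≤ y → Pot Φ → IH b y Φ u → 1 ≤ K →
    5 ≤ i → i ≤ 2 * u / 25 → 1 ≤ q → Rgh y q → (q : ℝ) ≤ (2 : ℝ) ^ ((i : ℝ) / 20) →
    ((SIq b y u s K i q).card : ℝ) * s ^ 7 ≤
      C * (4 ^ u / s) * (∏ J ∈ Sg (j0 K i) q, (4 / J : ℝ)) / (q * (j0 K i + 1)) +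
      C * (2 : ℝ) ^ (3 * (i : ℝ) / 50) * (Φ u * 4 ^ u * (2 : ℝ) ^ (-(47 * (i : ℝ) / 250)) +
        8 ^ i * (2 : ℝ) ^ (158 * (u : ℝ) / 100))

/-- **DE**: as in T6 (Pool/Agent/helper50/T6/DE.lean). -/
def DE_stmt : Prop :=
  ∃ C : ℝ, 1 ≤ C ∧ ∀ (b : ℝ) (y u K i q : ℕ) (s : ℝ), 1 ≤ K → 1 ≤ i → i ≤ 2 * u / 25 → 1 ≤ q →
    (q : ℝ) ≤ (2 : ℝ) ^ ((i : ℝ) / 20) →
    ((SIq b y u s K i q).card : ℝ) ≤ C * 4 ^ u / (q * (j0 K i + 1) * i)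

open Classical in
/-- **DF**: as in T6 (Pool/Agent/helper21/T6/DF.lean). -/
def DF_stmt : Prop :=
  ∃ (C : ℝ) (y₁ : ℕ), 1 ≤ C ∧ ∀ (b : ℝ) (y u K i : ℕ) (s : ℝ) (Φ : ℕ → ℝ), MR b u s → y₁ ≤ y → Pot Φ → IH b y Φ u → 1 ≤ K →
    5 ≤ i → i ≤ 2 * u / 25 →
    (((SI b y u s i).filter (fun p => (prt (j0 K i) p.1 : ℝ) ≤ (2 : ℝ) ^ ((i : ℝ) / 20))).card : ℝ) * s ^ 7 ≤
      C * 4 ^ u / ((j0 K i + 1) * (i : ℝ) ^ (1 / 8 : ℝ)) +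
      C * (2 : ℝ) ^ (11 * (i : ℝ) / 100) * (Φ u * 4 ^ u * (2 : ℝ) ^ (-(47 * (i : ℝ) / 250)) +
        8 ^ i * (2 : ℝ) ^ (158 * (u : ℝ) / 100))

open Classical in
/-- **DG**: as in T6 (Pool/Agent/helper1/T6/DG.lean). -/
def DG_stmt : Prop :=
  ∃ K₀ : ℕ, 1 ≤ K₀ ∧ ∀ K : ℕ, K₀ ≤ K → ∃ C : ℝ, 1 ≤ C ∧ ∀ (b : ℝ) (y u i : ℕ) (s : ℝ) (Φ : ℕ → ℝ), MR b u s → 32 ≤ y →
    Pot Φ → IH b y Φ u → 5 ≤ i → i ≤ 2 * u / 25 →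
    (((SI b y u s i).filter (fun p => ¬ (prt (j0 K i) p.1 : ℝ) ≤ (2 : ℝ) ^ ((i : ℝ) / 20))).card : ℝ) * s ^ 7 ≤
      C * 4 ^ u / (i : ℝ) ^ 2 + C * (Φ u * 4 ^ u * (2 : ℝ) ^ (-(47 * (i : ℝ) / 250)) + 8 ^ i * (2 : ℝ) ^ (158 * (u : ℝ) / 100))

/-- **DI**: as in T6 (Pool/Agent/helper34/T6/DI.lean). -/
def DI_stmt : Prop :=
  ∃ K₀ : ℕ, 1 ≤ K₀ ∧ ∀ K : ℕ, K₀ ≤ K → ∃ (C : ℝ) (y₁ : ℕ), 1 ≤ C ∧ 5 ≤ y₁ ∧ ∀ (b : ℝ) (y u : ℕ) (s : ℝ) (Φ : ℕ → ℝ), MR b u s →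
    y₁ ≤ y → Pot Φ → IH b y Φ u →
    (∑ i ∈ range (2 * u / 25 + 1), ((SI b y u s i).card : ℝ)) * s ^ 7 ≤ (C + C * (y : ℝ) ^ (-(1 / 20 : ℝ)) * Φ u) * 4 ^ u

open Classical in
/-- case II: all isolated primes are in blocks `> 2u/25` -/
noncomputable def SII (b : ℝ) (y u : ℕ) (s : ℝ) : Finset (ℕ × ℕ) :=
  (SB b y u s).filter (fun p => ∀ l : ℕ, IsoP y (vv b p.1 p.2) p.1 l → 2 * u / 25 < Nat.log 2 l)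

/-- number of primes attached to `v`, in blocks `≥ j`, not dividing `m` -/
noncomputable def wj (y j m : ℕ) (v : V4) : ℕ := {p : ℕ | PV y v p ∧ ¬ p ∣ m ∧ j ≤ Nat.log 2 p}.ncard

/-- **ML**: as in T6 (Pool/Agent/helper13/T6/ML.lean). -/
def ML_stmt : Prop :=
  ∃ (C : ℝ) (C₁ : ℕ), 1 ≤ C ∧ ∀ (b : ℝ) (u : ℕ) (s : ℝ), MR b u s → ∀ (y m r j : ℕ) (F : Finset V4), 5 ≤ y → 1 ≤ m → Rgh y m →
    (m : ℝ) ≤ (2 : ℝ) ^ ((u : ℝ) / 10) → 1 ≤ j → j ≤ u → (∀ v ∈ F, RV v ≠ 0 ∧ InG m r v ∧ nrm b v ≤ √(2 ^ u) / s ^ 2) →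
    ∑ v ∈ F, (4 : ℝ) ^ wj y j m v ≤ C * ((4 ^ u / s ^ 8) / (m : ℝ) ^ 2) * ((u : ℝ) / j) ^ C₁

/-- **EA**: as in T6 (Pool/Agent/helper21/T6/EA.lean). -/
def EA_stmt : Prop :=
  ∃ (C : ℝ) (C₁ : ℕ), 1 ≤ C ∧ ∀ (b : ℝ) (y u : ℕ) (s : ℝ), MR b u s → 5 ≤ y → 1 ≤ u → ((u : ℝ) + 1) ^ C₁ ≤ s →
    ((SB b y u s).card : ℝ) * s ^ 7 ≤ C * 4 ^ u

open Classical in
/-- **EB**: as in T6 (Pool/Agent/helper27/T6/EB.lean). -/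
def EB_stmt : Prop :=
  ∀ C₁ : ℕ, ∃ K₀ : ℕ, 1 ≤ K₀ ∧ ∀ K : ℕ, K₀ ≤ K → ∃ C : ℝ, 1 ≤ C ∧ ∀ (y u : ℕ) (s : ℝ), 1 ≤ u → 0 < s → s ≤ ((u : ℝ) + 1) ^ C₁ →
    (((PR y u).filter (fun p => (2 : ℝ) ^ ((u : ℝ) / 50) < prt (j0 K u) p.1)).card : ℝ) * s ^ 7 ≤ C * 4 ^ u ∧
    (((PR y u).filter (fun p => ∃ l : ℕ, l.Prime ∧ l ^ 2 ∣ p.1 ∧ j0 K u ≤ Nat.log 2 l)).card : ℝ) * s ^ 7 ≤ C * 4 ^ u

open Classical in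
/-- **EC**: as in T6 (Pool/Agent/helper14/T6/EC.lean). -/
def EC_stmt : Prop :=
  ∃ (C : ℝ) (y₁ : ℕ), 1 ≤ C ∧ ∀ K : ℕ, 13 ≤ K → ∀ (b : ℝ) (y u : ℕ) (s : ℝ), MR b u s → y₁ ≤ y → 1 ≤ u →
    (((SII b y u s).filter (fun p => (prt (j0 K u) p.1 : ℝ) ≤ (2 : ℝ) ^ ((u : ℝ) / 50) ∧
      ∀ l : ℕ, l.Prime → l ∣ p.1 → Nat.log 2 l < j0 K u ∨ u / 100 ≤ Nat.log 2 l)).card : ℝ) * s ^ 8 ≤ C * 4 ^ u

open Classical in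
/-- **ED**: as in T6 (Pool/Agent/helper75/T6/ED.lean). -/
def ED_stmt : Prop :=
  ∃ y₁ : ℕ, ∀ K : ℕ, 13 ≤ K → ∃ C : ℝ, 1 ≤ C ∧ ∀ (b : ℝ) (y u : ℕ) (s : ℝ), MR b u s → y₁ ≤ y → 1 ≤ u →
    (((SII b y u s).filter (fun p => (prt (j0 K u) p.1 : ℝ) ≤ (2 : ℝ) ^ ((u : ℝ) / 50) ∧
      (∀ l : ℕ, l.Prime → j0 K u ≤ Nat.log 2 l → ¬ l ^ 2 ∣ p.1) ∧
      ∃ l : ℕ, l.Prime ∧ l ∣ p.1 ∧ j0 K u ≤ Nat.log 2 l ∧ Nat.log 2 l < u / 100)).card : ℝ) * s ^ 7 ≤ C * 4 ^ u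

/-- **EE**: as in T6 (Pool/Agent/helper49/T6/EE.lean). -/
def EE_stmt : Prop :=
  ∀ C₁ : ℕ, ∃ K₀ : ℕ, 1 ≤ K₀ ∧ ∃ y₁ : ℕ, ∀ K : ℕ, K₀ ≤ K → ∃ C : ℝ, 1 ≤ C ∧ ∀ (b : ℝ) (y u : ℕ) (s : ℝ), MR b u s → y₁ ≤ y →
    1 ≤ u → s ≤ ((u : ℝ) + 1) ^ C₁ → ((SII b y u s).card : ℝ) * s ^ 7 ≤ C * 4 ^ u

/-- **FM**: as in T6 (Pool/Agent/helper84/T6/FM.lean). -/
def FM_stmt : Prop :=
  ∃ (C : ℝ) (y₁ : ℕ), 1 ≤ C ∧ 5 ≤ y₁ ∧ ∀ (b : ℝ) (y u : ℕ) (s : ℝ) (Φ : ℕ → ℝ), MR b u s → y₁ ≤ y → Pot Φ → IH b y Φ u →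
    ((SU b y u s).card : ℝ) * s ^ 7 ≤ (C + C * (y : ℝ) ^ (-(1 / 20 : ℝ)) * Φ u) * 4 ^ u

/-- **LF**: as in T6 (SpecL). -/
def LF_stmt : Prop :=
  ∃ (y B : ℕ) (A D τ : ℝ), 5 ≤ y ∧ 2 ≤ A ∧ 0 ≤ D ∧ 0 < τ ∧ τ ≤ 1 / 100 ∧ ∀ b : ℝ, 1 ≤ b → ∀ u : ℕ, ∀ s : ℝ, 0 < s →
    ((SU b y u s).card : ℝ) * s ^ 7 ≤ (A + D * (b ^ B * (2 : ℝ) ^ (-(τ * u)))) * 4 ^ u

/-- **FL**: as in T6 (Pool/Agent/helper31/T6/FL.lean). -/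
def FL_stmt : Prop := LF_stmt

/-- **FS**: as in T6 (Pool/Agent/helper47/T6/FS.lean). -/
def FS_stmt : Prop := LFS_stmt

end Pool.Agent.RL
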