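import Pool.Agent.helper88.RL.SpecL
import Pool.Agent.helper82.T6.SpecW

set_option autoImplicit false

/-!
# Project RL (MP_16912e_nt, real fields, stage 2), block W: near points for all moduli `k`, without loss

Sources: block W of RF (Pool/Agent/helper88/RF/SpecW.lean; prime norms) and block W of T6 (Pool/Agent/helper82/T6/SpecW.lean; no loss).
OUTPUTS for block C' (helper95): `VKA_stmt`, `VKB_stmt`.

RULES. Row `XXX`: file `Pool/Agent/<seat>/RL/XXX.lean`, header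

  import Pool.Agent.helper88.RL.SpecW
  set_option autoImplicit false
  namespace Pool.Agent.RL
  open Finset Pool.Agent.helper3.FT Pool.Agent.T6 Pool.Agent.RF

and the theorem line of the lock note; auxiliary lemmas are prefixed `XXX_`. In this namespace `InG, nrm, lamb, PR, Cop, ..` are the definitions of `RL` (useful lemmas: Pool/Agent/helper88/RL/Cop.lean); `dl, rr, nearPts, nd, GP_stmt, GR_stmt` are those of T6 / FT. No sorry, no straight double quotes, no `convert`, no `congr!`, no `native_decide`. Other rows only as hypotheses `(hYYY : YYY_stmt)` (any row of SpecL, SpecW may be added, no circles; rows of T6 and RF which are proved may be cited directly, e.g. `Pool.Agent.RF.WVA_final`, `WEU_final` in Pool/Agent/helper88/RF/AllW.lean). `star` is not known to `ring`: see Pool/Agent/helper88/RF/WDA.lean.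
-/

namespace Pool.Agent.RL

open Finset Pool.Agent.helper3.FT Pool.Agent.T6 Pool.Agent.RF

/-! ## Definitions -/

/-- the moduli: balanced elements of norm in `(Q, 2 Q]`, prime to the conjugate and to 10 -/
structure KG (Q : ℕ) (k : OO) : Prop where
  co : IsCoprime k (star k)
  n10 : Nat.Coprime k.norm.natAbs 10
  lo : Q < k.norm.natAbs
  hi : k.norm.natAbs ≤ 2 * Q
  ba : |va k| ≤ 2 * √(Q : ℝ)
  bb : |vb k| ≤ 2 * √(Q : ℝ)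

/-- the residues of the form `s = Q (mu x)`; `RQ k g c a` gives `RM k (c g) (c norm g) a` -/
structure RM (k mu : OO) (P : ℤ) (a : ℤ × ℤ × ℤ) : Prop where
  ha : k ^ 3 ∣ star k ^ 2 * (r5 * ((P : OO) * (a.1 : OO)) - ((mu.norm : ℤ) : OO)) - 2 * ph * k ^ 2 * mu ^ 2
  hb : k ^ 3 ∣ star k ^ 2 * (r5 * ((P : OO) * (a.2.1 : OO)) - ((mu.norm : ℤ) : OO)) - 4 * ph ^ 2 * k ^ 2 * mu ^ 2
  hc : k ^ 3 ∣ star k ^ 2 * (r5 * ((P : OO) * (a.2.2 : OO)) + ((mu.norm : ℤ) : OO)) - 2 * ph ^ 3 * k ^ 2 * mu ^ 2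

/-- near points of the modulus `k` at the frequency `h` -/
noncomputable def nearG (B h : ℕ) (k : OO) (a : ℤ × ℤ × ℤ) : Finset (ℤ × ℤ) :=
  nearPts B B ((h : ℕ) * a.1 / (k.norm.natAbs : ℝ) ^ 3) ((h : ℕ) * a.2.1 / (k.norm.natAbs : ℝ) ^ 3)
    ((h : ℕ) * a.2.2 / (k.norm.natAbs : ℝ) ^ 3)

/-- the sum over the frequencies -/
noncomputable def NK (B T E : ℕ) (k : OO) (a : ℤ × ℤ × ℤ) : ℝ :=
  ∑ h ∈ Ico 1 T, √((nearG B (h * E) k a).card : ℝ)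

/-- the number to which `δ` is prime -/
def mk (k : OO) : ℕ := k.norm.natAbs * k.im.natAbs

/-- `re / im` modulo `δ` -/
def rk (δ : ℕ) (k : OO) : ℕ := if δ = 0 then 0 else ((k.re : ZMod δ) * (k.im : ZMod δ)⁻¹).val

/-- a near point `(u, v, P₁, P₂)` of the form `(α, β, γ)` modulo `m` at the frequency `h` -/
structure NP (m B h : ℕ) (α β γ : ℤ) (p : ℤ × ℤ × ℤ × ℤ) : Prop where
  u : |p.1| ≤ 4 * B
  v : |p.2.1| ≤ 4 * B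
  P1 : (m : ℤ) ∣ h * (2 * α * p.1 + β * p.2.1) - p.2.2.1
  P2 : (m : ℤ) ∣ h * (β * p.1 + 2 * γ * p.2.1) - p.2.2.2
  s1 : |p.2.2.1| * B ≤ m
  s2 : |p.2.2.2| * B ≤ m

/-! ## The ring -/

/-- **VIN** (medium; PURE; model Pool/Agent/helper26/RF/WIN.lean). `q = |norm k|`, `k k' = ± q`. `k` is coprime to `r5` and `2` because `q` is coprime to `10 = 2 · r5²`. (integers) `k³ ∣ n` gives `k'³ ∣ n`, so `(k k')³ ∣ n`, `q³ ∣ n` (compare `re`). (representatives) `k³ = X + Y φ`; `gcd (Y, q) = 1`: a prime `p ∣ q`, `p ∣ Y` has `p ∣ norm (k³) = X² + X Y - Y²`, so `p ∣ X`, `p ∣ k³`, and `p ∣ k'³` (conjugate), but `k³, k'³` are coprime. `t Y = 1 + q³ m`: `φ ≡ - t X` modulo `k³`. -/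
def VIN_stmt : Prop := ∀ k : OO, IsCoprime k (star k) → Nat.Coprime k.norm.natAbs 10 → IsCoprime k r5 ∧ IsCoprime k 2 ∧
  (∀ n : ℤ, k ^ 3 ∣ (n : OO) ↔ (k.norm.natAbs : ℤ) ^ 3 ∣ n) ∧ (∀ x : OO, ∃ n : ℤ, k ^ 3 ∣ x - (n : OO))

/-- **VDC** (short-medium; from WEU; = steps (b'), (d), (e) of Pool/Agent/helper88/RF/WDA.lean). PROOF. `e` from the first divisibility. Conjugate: `H U' - P' = k'³ e'`. The second: `g' k'² P' + H (g' k'² U' + 4 φ k² g U) = k³ t`; insert `P' = H U' - k'³ e'`: `g' k'² (2 H U' - k'³ e') + 4 φ H k² g U = k³ t`, so `k² ∣ g' k'² (k'³ e' - 2 H U')`: define `w`; `g' k'² w = 4 φ H g U - k t`. Conjugate of the definition of `w`: `k³ e - 2 H U = k'² w'`. `k'² (g' w + 2 φ g w') = 4 φ H g U - k t + 2 φ g (k³ e - 2 H U) = k (2 φ g k² e - t)`: define `z`. Last: step (e) of WDA. -/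
def VDC_stmt : Prop := ∀ (k g U P : OO) (H : ℤ), k ≠ 0 → IsCoprime k (star k) → IsCoprime k (star g) →
  k ^ 3 ∣ (H : OO) * U - P →
  k ^ 3 ∣ star g * star k ^ 2 * star P + (H : OO) * (star g * star k ^ 2 * star U + 4 * ph * k ^ 2 * g * U) →
  ∃ e w z : OO, (H : OO) * U - P = k ^ 3 * e ∧ star k ^ 3 * star e - 2 * H * star U = k ^ 2 * w ∧
    star g * w + 2 * ph * g * star w = k * z ∧ 10 * (H : OO) * g * U = FF k (g * e) z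

/-- **VDQ** (short-medium; from VIN; = steps (a), (b), (c) of Pool/Agent/helper88/RF/WDA.lean, `P = φ P₁ - P₂`, `P' = φ' P₁ - P₂`). -/
def VDQ_stmt : Prop := ∀ (k g : OO) (c h α β γ P₁ P₂ u v : ℤ), IsCoprime k (star k) → Nat.Coprime k.norm.natAbs 10 →
  IsCoprime k (star g) → RQ k g c α β γ → (k.norm.natAbs : ℤ) ^ 3 ∣ h * (2 * α * u + β * v) - P₁ →
  (k.norm.natAbs : ℤ) ^ 3 ∣ h * (β * u + 2 * γ * v) - P₂ →
  k ^ 3 ∣ ((h * c : ℤ) : OO) * (⟨u, v⟩ : OO) - (ph * P₁ - P₂) ∧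
  k ^ 3 ∣ star g * star k ^ 2 * star (ph * P₁ - P₂) +
    ((h * c : ℤ) : OO) * (star g * star k ^ 2 * star (⟨u, v⟩ : OO) + 4 * ph * k ^ 2 * g * (⟨u, v⟩ : OO))

/-- **VDM** (medium; from VIN). The same for `RM k g 1`, for the point `g U`. PROOF. `N = norm g = ε l`, `U = ⟨u, v⟩ = u + v φ`, `P = φ P₁ - P₂`, all congruences modulo `k³`. `h (2 u ha + v hb)`: `r5 k'² P₁ ≡ h (N k'² (2 u + v) + 4 φ k² g² U)`; `h (u hb + 2 v hc)`: `r5 k'² P₂ ≡ h (N k'² (u - 2 v) + 4 φ² k² g² U)`.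
(b) `φ (1) - (2)`: `r5 k'² P ≡ h N k'² r5 U`, cancel `r5 k'²`: `P ≡ h N U`; times `ε g`: the first claim. (c) `φ' (1) - (2)`: `r5 k'² P' ≡ - r5 h (N k'² U' + 4 φ k² g² U)` (`φ' (2u + v) - (u - 2v) = - r5 U'`, `φ φ' - φ² = - r5 φ`), cancel `r5`; times `ε g'`: `k'² (ε g' P') ≡ - h (ε N g' k'² U' + 4 φ k² ε N g U)`, `ε N = l`: the second claim. -/
def VDM_stmt : Prop := ∀ (k g : OO) (ε l h α β γ P₁ P₂ u v : ℤ), IsCoprime k (star k) → Nat.Coprime k.norm.natAbs 10 →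
  (ε = 1 ∨ ε = -1) → g.norm = ε * l → RM k g 1 (α, β, γ) → (k.norm.natAbs : ℤ) ^ 3 ∣ h * (2 * α * u + β * v) - P₁ →
  (k.norm.natAbs : ℤ) ^ 3 ∣ h * (β * u + 2 * γ * v) - P₂ →
  k ^ 3 ∣ ((h * l : ℤ) : OO) * (g * (⟨u, v⟩ : OO)) - (ε : OO) * g * (ph * P₁ - P₂) ∧
  k ^ 3 ∣ star (1 : OO) * star k ^ 2 * star ((ε : OO) * g * (ph * P₁ - P₂)) +
    ((h * l : ℤ) : OO) * (star (1 : OO) * star k ^ 2 * star (g * (⟨u, v⟩ : OO)) + 4 * ph * k ^ 2 * 1 * (g * (⟨u, v⟩ : OO)))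

/-- **VSZ** (short-medium; from WVA; model Pool/Agent/helper14/RF/WDS.lean). Sizes. `|va k|, |vb k| ∈ [√Q/2, 2 √Q]` (`|va k vb k| > Q`). `R = (H X₁ + X₂)/Q^(3/2)`: `|e| ≤ 8 R` at both places (`|k|³ ≥ Q^(3/2)/8`); `|w| ≤ (8 Q^(3/2) · 8 R + 2 H X₁) 4/Q ≤ 264 √Q R`; `|z| ≤ (2 G |w| + 2 φ · 2 G |w'|) 2/√Q ≤ C G R`. -/
def VSZ_stmt : Prop := ∃ C : ℝ, 1 ≤ C ∧ ∀ (Q H : ℕ) (G X₁ X₂ : ℝ) (k g U P e w z : OO), KG Q k → 1 ≤ Q → 1 ≤ G → 0 ≤ X₁ → 0 ≤ X₂ →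
  |va g| ≤ 2 * G → |vb g| ≤ 2 * G → |va U| ≤ X₁ → |vb U| ≤ X₁ → |va P| ≤ X₂ → |vb P| ≤ X₂ →
  (H : OO) * U - P = k ^ 3 * e → star k ^ 3 * star e - 2 * H * star U = k ^ 2 * w → star g * w + 2 * ph * g * star w = k * z →
  |va e| ≤ C * ((H * X₁ + X₂) / (Q : ℝ) ^ (3 / 2 : ℝ)) ∧ |vb e| ≤ C * ((H * X₁ + X₂) / (Q : ℝ) ^ (3 / 2 : ℝ)) ∧
  |va z| ≤ C * (G * ((H * X₁ + X₂) / (Q : ℝ) ^ (3 / 2 : ℝ))) ∧ |vb z| ≤ C * (G * ((H * X₁ + X₂) / (Q : ℝ) ^ (3 / 2 : ℝ)))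

/-! ## Near points -/

/-- **VGN** (medium-long; from GP, GR, N1, N2, N4; port of Pool/Agent/helper22/T6/WNR.lean). The general near point lemma. PROOF. For `(u, v) ∈ nearPts` put `P₁ = h (2 α u + β v) - m · round (..)`, `P₂` likewise: a point with `NP`; `S` = the set of these `(u, v, P₁, P₂)`, `#S = #nearPts`. (1) `S` contains four independent vectors: GP with `G = ZMod m × ZMod m`, `φ (u, v, ξ, Ξ) = (ξ - h (2 α u + β v), Ξ - h (β u + 2 γ v))`, sides `4 B, 4 B, m/B, m/B`: `#S m² ≤ 11⁴ · 16 m²`.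
(2) Otherwise: by the last hypothesis `L` is injective on `S` and the image contains no four independent vectors; two different values of `L` differ by a nonzero vector of `Γ_{δ,r}` (N2), so some coordinate differs by at least `lamb` (N4); GR with `S = 1`, `V = ρ`, `lam = lamb 1 δ r` (N1, N4: positive): `#S ≤ (1 + 6 ρ/lamb)³`. -/
def VGN_stmt : Prop := ∀ (m B h δ r : ℕ) (α β γ : ℤ) (ρ : ℝ) (L : ℤ × ℤ × ℤ × ℤ → V4), 1 ≤ m → 1 ≤ B → 1 ≤ h → 1 ≤ δ → 0 ≤ ρ →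
  (∀ p, NP m B h α β γ p → InG δ r (L p) ∧ nrm 1 (L p) ≤ ρ) →
  (∀ (n : Fin 4 → ℤ) (p : Fin 4 → ℤ × ℤ × ℤ × ℤ), (∀ i, NP m B h α β γ (p i)) →
    (∑ i, n i • L (p i) = 0 ↔ ∑ i, n i • p i = 0)) →
  ((nearPts B B (h * α / (m : ℝ)) (h * β / (m : ℝ)) (h * γ / (m : ℝ))).card : ℝ) ≤ 234256 ∨
  ((nearPts B B (h * α / (m : ℝ)) (h * β / (m : ℝ)) (h * γ / (m : ℝ))).card : ℝ) ≤ (1 + 6 * ρ / lamb 1 δ r) ^ 3

/-- **VNR** (medium; from VGN, VDC, VDQ, VSZ, VIN, WVA, WEU). Near points for `RQ k g c`. PROOF. `m = q³`. For `NP p`: VDQ, VDC with `H = h c`, `U = ⟨u, v⟩`, `P = φ P₁ - P₂` give `e, w, z` (unique, as `k ≠ 0`); `L p := (coordinates of g e, coordinates of z)`. `δ ∣ h ∣ FF k (g e) z`, `k ≡ im · (r + φ)` modulo `δ` (`δ ∣ im r - re`), so `FF k a z ≡ im³ FF ⟨r,1⟩ a z` (`im` is an integer) and `im` is a unit modulo `δ`: `InG δ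 r (L p)`.
Sizes: VSZ with `X₁ = 11 B`, `X₂ = 3 q³/B ≤ 24 Q³/B`: coordinates of `g e`, `z` at most `max (|va|, |vb|)·1` (`re = (φ vb - φ' va)/√5`, `im = (va - vb)/√5`: `≤ max`), so `nrm ≤ C R`. Linearity: the three defining relations are linear over the integers: `∑ n p = 0` gives `k³ ∑ n e = 0`, then `k² ∑ n w = 0`, `k ∑ n z = 0` (domain). Conversely `∑ n (g e) = 0`, `∑ n z = 0` gives `10 h c g ∑ n U = FF k 0 0 = 0`, so `∑ n U = 0`, `∑ n e = 0`, `∑ n P = 0`, and `φ A - B = 0` with integers `A, B` gives `A = B = 0`. -/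
def VNR_stmt : Prop := ∃ C : ℝ, 1 ≤ C ∧ ∀ (Q B c h δ r : ℕ) (G R : ℝ) (k g : OO) (a : ℤ × ℤ × ℤ), 1 ≤ Q → 1 ≤ B → 1 ≤ c → 1 ≤ h → 1 ≤ G →
  g ≠ 0 → |va g| ≤ 2 * G → |vb g| ≤ 2 * G → KG Q k → IsCoprime k (star g) → RQ k g c a.1 a.2.1 a.2.2 → 1 ≤ δ → δ ∣ h →
  Nat.Coprime δ (mk k) → (δ : ℤ) ∣ k.im * r - k.re →
  (h : ℝ) * c * G * B / (Q : ℝ) ^ (3 / 2 : ℝ) + G * (Q : ℝ) ^ (3 / 2 : ℝ) / B ≤ R →
  ((nearG B h k a).card : ℝ) ≤ C * (1 + R / lamb 1 δ r) ^ 3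

/-- **VNB** (medium; from VGN, VDC, VDM, VSZ, VIN, WVA, WEU). Near points for `RM k g 1`, `norm g = ± l`. PROOF. As VNR with VDM and VDC for `g := 1`, `H = h l`, `U₁ = g U`, `P = ε g (φ P₁ - P₂)`: `10 h l (g U) = FF k e z`, `L p = (e, z)`, `X₁ = 3 √l · 11 B`, `X₂ = 3 √l · 24 Q³/B`, `G = 1`; `R ≥ h l^(3/2) B/Q^(3/2) + √l Q^(3/2)/B`. (`FF k (1 * e) z = FF k e z`.) -/
def VNB_stmt : Prop := ∃ C : ℝ, 1 ≤ C ∧ ∀ (Q B l h δ r : ℕ) (R : ℝ) (k g : OO) (a : ℤ × ℤ × ℤ), 1 ≤ Q → 1 ≤ B → 1 ≤ l → 1 ≤ h →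
  g.norm.natAbs = l → |va g| ≤ 3 * √(l : ℝ) → |vb g| ≤ 3 * √(l : ℝ) → KG Q k → RM k g 1 a → 1 ≤ δ → δ ∣ h →
  Nat.Coprime δ (mk k) → (δ : ℤ) ∣ k.im * r - k.re →
  (h : ℝ) * (l : ℝ) ^ (3 / 2 : ℝ) * B / (Q : ℝ) ^ (3 / 2 : ℝ) + √(l : ℝ) * (Q : ℝ) ^ (3 / 2 : ℝ) / B ≤ R →
  ((nearG B h k a).card : ℝ) ≤ C * (1 + R / lamb 1 δ r) ^ 3

/-! ## Sums over `k` and `h` -/

/-- **VRK** (short). Properties of `rk`, and `mk k ≠ 0`. PROOF. `im` is a unit modulo `δ`; `norm k = im² · norm (r + φ)` modulo `δ` (`re ≡ im r`; `norm k = re² + re im - im²`), so `norm (r + φ)` is a unit. If `im k = 0` then `k = re` is an integer which divides itself and `k' = k`, so a unit, `|norm| = 1`, but `|norm k| > Q ≥ 1`. -/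
def VRK_stmt : Prop := (∀ (δ : ℕ) (k : OO), 1 ≤ δ → Nat.Coprime δ (mk k) →
    (δ : ℤ) ∣ k.im * (rk δ k) - k.re ∧ rk δ k < δ ∧ Cop (rk δ k) δ) ∧
  (∀ (Q : ℕ) (k : OO), 1 ≤ Q → KG Q k → 1 ≤ mk k)

/-- **VWF** (short-medium; from WVA; Pool/Agent/helper87/RF/WFA.lean for `KG`: the proof uses only `lo, hi, ba, bb`). -/
def VWF_stmt : Prop := ∀ (Q D : ℕ) (S : Finset OO), 1 ≤ Q → 1 ≤ D → (∀ k ∈ S, KG Q k) →
  (∀ k ∈ S, ∀ k₁ ∈ S, k ≠ k₁ → (D : ℤ) ≤ |dt k k₁|) → (S.card : ℝ) ≤ 1 + 15 * Q / D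

/-- **VMU** (medium; from VWF, `WRO_stmt`, WEU; model Pool/Agent/helper88/RF/WPC.lean). Moduli in one class. PROOF. `k` is not divisible by a prime number `p` (`p ∣ k, k'`). For `p ∣ y` the class `clp p k` is `none` if `p ∣ im k`, otherwise `p ∣ norm k` and `t = re/im` is a root of `t² + t - 1`: at most 3 classes for each `p`, `3^ω(y)` systems. Two different elements of one system: `dt k k₁ ≠ 0` (if `k k₁' = k' k₁` then `k ∣ k₁`, `k₁ ∣ k` by coprimality, so `k = k₁`), `p ∣ dt` for all `p ∣ y` (second part of WRO), `δ ∣ dt = im re₁ - re im₁` (both `re ≡ im r`), so `δ y ∣ dt` (`y` squarefree, `gcd (δ, y) = 1`): VWF with `D = δ y`. -/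
def VMU_stmt : Prop := ∀ (Q y δ r : ℕ) (S : Finset OO), 1 ≤ Q → Squarefree y → ¬ 5 ∣ y → 1 ≤ δ → Nat.Coprime δ y →
  (∀ k ∈ S, KG Q k ∧ (y : ℤ) ∣ k.norm * k.im ∧ (δ : ℤ) ∣ k.im * r - k.re) →
  (∀ k ∈ S, ∀ k₁ ∈ S, k ∣ k₁ → k₁ ∣ k → k = k₁) →
  (S.card : ℝ) ≤ 3 ^ y.primeFactors.card * (1 + 15 * Q / (δ * y))

open Classical in
/-- **VEP** (medium; mechanical port of Pool/Agent/helper10/T6/WEP.lean with `3` instead of `2`). -/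
def VEP_stmt : Prop :=
  ∀ y₀ : ℕ, ∃ C : ℝ, 1 ≤ C ∧ ∀ (y T : ℕ), Squarefree y →
    ∑ e ∈ Ico 1 T, (3 : ℝ) ^ (Nat.lcm y (rr y₀ e)).primeFactors.card / (Nat.lcm y (rr y₀ e)) * (e : ℝ) ^ (-(1 / 5 : ℝ)) ≤
      C ^ (y.primeFactors.card + 1) / y ∧
    ∑ e ∈ Ico 1 T, (3 : ℝ) ^ (Nat.lcm y (rr y₀ e)).primeFactors.card * (e : ℝ) ^ (-(6 / 5 : ℝ)) ≤ C ^ (y.primeFactors.card + 1)

open Classical in
/-- **VSM** (medium-long; from WDL of T6 (Pool/Agent/helper51/T6/WDL.lean, `theorem WDL`), VRK, VMU, VEP; port of Pool/Agent/helper98/T6/WSM.lean). PROOF. For `(k, h)`: `δ = dl y₀ h (mk k)`, `e = h/δ < T`, `rr y₀ e ∣ mk k`, `r = rk δ k`, `(δ, r) ∈ PR y₀ u`, `u = log₂ δ`, `2^u ≤ δ ≤ T/e`, `Y = lcm (y, rr y₀ e) ∣ mk k`-like: precisely `(Y : ℤ) ∣ norm k · im k`, squarefree, coprime to `δ`, `5 ∤ Y` (`y ∣ norm k`; take `y₀ ≥ 5`; `rr`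 has primes `> y₀`).
So the sum is at most `∑_e ∑_{2^u ≤ T/e} 2^(-3u/4) ∑_{(δ,r) ∈ PR y₀ u} (√(2^u)/lamb)^(3/2) · 3^ω(Y) (1 + 15 Q/(2^u Y))` (VMU) `≤ C ∑_e 3^ω(Y) ∑_u (2^(5u/4) + Q 2^(u/4)/Y)`, geometric sums, `(T/e)^(5/4) ≤ T^(5/4) e^(-6/5)`, `(T/e)^(1/4) ≤ T^(1/4) e^(-1/5)`; VEP. -/
def VSM_stmt : Prop := LFS_stmt → ∃ (y₀ : ℕ) (C : ℝ), 5 ≤ y₀ ∧ 1 ≤ C ∧ ∀ (Q T y : ℕ) (S : Finset OO), 1 ≤ Q → 1 ≤ T → Squarefree y →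
  (∀ k ∈ S, KG Q k ∧ (y : ℤ) ∣ k.norm) → (∀ k ∈ S, ∀ k₁ ∈ S, k ∣ k₁ → k₁ ∣ k → k = k₁) →
  ∑ k ∈ S, ∑ h ∈ Ico 1 T, (1 / lamb 1 (dl y₀ h (mk k)) (rk (dl y₀ h (mk k)) k)) ^ (3 / 2 : ℝ) ≤
    C ^ (y.primeFactors.card + 1) * ((T : ℝ) ^ (5 / 4 : ℝ) + Q * (T : ℝ) ^ (1 / 4 : ℝ) / y)

/-! ## Outputs -/

/-- **VKA** (short-medium; from VNR, VSM, VRK, VWF, WDL): OUTPUT 1. PROOF. `√near ≤ √C (1 + R/lamb)^(3/2) ≤ C (1 + (R/lamb)^(3/2))` for the frequency `h E`, `δ = dl y₀ h (mk k) ∣ h ∣ h E`, `r = rk δ k`; the size hypothesis holds as `h < T`. `#W ≤ 16 Q` (VWF with `D = 1`: `dt ≠ 0` for different elements, see VMU). Sum: VSM with `y = 1`. -/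
def VKA_stmt : Prop := LFS_stmt → ∃ C : ℝ, 1 ≤ C ∧ ∀ (Q B T E c : ℕ) (G R : ℝ) (g : OO) (W : Finset OO) (a : OO → ℤ × ℤ × ℤ),
  1 ≤ Q → 1 ≤ B → 1 ≤ T → 1 ≤ E → 1 ≤ c → 1 ≤ G → g ≠ 0 → |va g| ≤ 2 * G → |vb g| ≤ 2 * G →
  (E : ℝ) * T * c * G * B / (Q : ℝ) ^ (3 / 2 : ℝ) + G * (Q : ℝ) ^ (3 / 2 : ℝ) / B ≤ R →
  (∀ k ∈ W, KG Q k ∧ IsCoprime k (star g) ∧ RQ k g c (a k).1 (a k).2.1 (a k).2.2) →
  (∀ k ∈ W, ∀ k₁ ∈ W, k ∣ k₁ → k₁ ∣ k → k = k₁) →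
  ∑ k ∈ W, NK B T E k (a k) ≤ C * (T * Q + R ^ (3 / 2 : ℝ) * ((T : ℝ) ^ (5 / 4 : ℝ) + Q * (T : ℝ) ^ (1 / 4 : ℝ)))

/-- **VKB** (short-medium; from VNB, VSM, VRK, VMU, WDL): OUTPUT 2. PROOF. As VKA with VNB and VSM for `y = l` (`ω(l) = 1`). `#W ≤ 3 (1 + 15 Q/l)` (VMU with `δ = 1`, `y = l`; `l ≠ 5` as `norm k` is prime to 10), and `l ≤ 2 Q` if `W` is not empty, so `#W ≤ 51 Q/l`. -/
def VKB_stmt : Prop := LFS_stmt → ∃ C : ℝ, 1 ≤ C ∧ ∀ (Q B T E l : ℕ) (R : ℝ) (g : OO) (W : Finset OO) (a : OO → ℤ × ℤ × ℤ),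
  1 ≤ Q → 1 ≤ B → 1 ≤ T → 1 ≤ E → l.Prime → g.norm.natAbs = l → |va g| ≤ 3 * √(l : ℝ) → |vb g| ≤ 3 * √(l : ℝ) →
  (E : ℝ) * T * (l : ℝ) ^ (3 / 2 : ℝ) * B / (Q : ℝ) ^ (3 / 2 : ℝ) + √(l : ℝ) * (Q : ℝ) ^ (3 / 2 : ℝ) / B ≤ R →
  (∀ k ∈ W, KG Q k ∧ (l : ℤ) ∣ k.norm ∧ RM k g 1 (a k)) →
  (∀ k ∈ W, ∀ k₁ ∈ W, k ∣ k₁ → k₁ ∣ k → k = k₁) →
  ∑ k ∈ W, NK B T E k (a k) ≤ C * (T * Q / l + R ^ (3 / 2 : ℝ) * ((T : ℝ) ^ (5 / 4 : ℝ) + Q * (T : ℝ) ^ (1 / 4 : ℝ) / l))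

end Pool.Agent.RL
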